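import Pool.Agent.FHP.Main
import Pool.Agent.EQT.Third

/-!
# FHP, module Band: twist numbers near odd multiples of a real number (helper32)
-/

set_option autoImplicit false
set_option linter.unusedSectionVars false
set_option linter.unusedTactic false

open Submodule Module LaurentPolynomial

namespace Pool.Agent.FHP

open Pool.Agent.SPT Pool.Agent.EQT Pool.Agent.Helper16.Knotoid

variable {n : ℕ}

section

variable {I : Fin n → Fin n → Prop} {e : Fin n → Bool}

/-- the relation of the state which cuts the twist regions -/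
private def Band_R (I : Fin n → Fin n → Prop) (e : Fin n → Bool) (i j : Fin n) : Prop :=
  I i j ∨ (i = j ∧ cutState I e i ≠ e i)

private theorem Band_cut (I : Fin n → Fin n → Prop) (e : Fin n → Bool) (i : Fin n) :
    cutState I e i ≠ e i ↔ ∃ j, Twins I i j ∧ I i j := by
  classical
  unfold cutState
  by_cases h : ∃ j, Twins I i j ∧ I i j
  · rw [if_pos h]
    exact ⟨fun _ => h, fun _ => by cases e i <;> decide⟩
  · rw [if_neg h]
    exact ⟨fun h' => absurd rfl h', fun h' => absurd h' h⟩

private theorem Band_symm {i j : Fin n} (h : Twins I i j) : Twins I j i :=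
  fun k h1 h2 => (h k h2 h1).symm

private theorem Band_adj (hi : ∀ i, ¬ I i i) (hs : ∀ i j, I i j → I j i) {i j k : Fin n}
    (h1 : Twins I i j) (h2 : I i j) (h3 : Twins I i k) (hk : k ≠ i) : I i k := by
  by_cases hkj : k = j
  · rw [hkj]
    exact h2
  · have hji : j ≠ i := by
      intro h
      rw [h] at h2
      exact hi i h2
    have h4 := (h3 j hji (Ne.symm hkj)).1 h2
    exact (h1 k hk hkj).2 (hs _ _ h4)

private theorem Band_diag (hi : ∀ i, ¬ I i i) (hs : ∀ i j, I i j → I j i) {i j : Fin n}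
    (h : Twins I i j) (hij : j ≠ i) : cutState I e i ≠ e i ↔ I i j := by
  rw [Band_cut]
  constructor
  · rintro ⟨k, h1, h2⟩
    exact Band_adj hi hs h1 h2 h hij
  · intro h2
    exact ⟨j, h, h2⟩

private theorem Band_row (hi : ∀ i, ¬ I i i) (hs : ∀ i j, I i j → I j i) (i j : Fin n) :
    row (Band_R I e) i = row (Band_R I e) j ↔ Twins I i j := by
  classical
  have h0 : row (Band_R I e) i = row (Band_R I e) j ↔
      ∀ k, (Band_R I e i k ↔ Band_R I e j k) := by
    unfold row
    constructor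
    · intro h k
      have h1 := congrFun h k
      beta_reduce at h1
      by_cases h2 : Band_R I e i k <;> by_cases h3 : Band_R I e j k <;> simp_all
    · intro h
      funext k
      beta_reduce
      rw [if_congr (h k) rfl rfl]
  rw [h0]
  constructor
  · intro h k h1 h2
    have h3 := h k
    unfold Band_R at h3
    constructor
    · intro h4
      rcases h3.1 (Or.inl h4) with h5 | h5
      · exact h5
      · exact absurd h5.1.symm h2
    · intro h4
      rcases h3.2 (Or.inl h4) with h5 | h5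
      · exact h5
      · exact absurd h5.1.symm h1
  · intro h k
    by_cases hij : i = j
    · rw [hij]
    unfold Band_R
    by_cases h1 : k = i
    · subst h1
      have h2 : ¬ I k k := hi k
      have h3 := Band_diag (e := e) hi hs h (Ne.symm hij)
      constructor
      · rintro (h4 | ⟨-, h4⟩)
        · exact absurd h4 h2
        · exact Or.inl (hs _ _ (h3.1 h4))
      · rintro (h4 | ⟨h4, -⟩)
        · exact Or.inr ⟨rfl, h3.2 (hs _ _ h4)⟩
        · exact absurd h4.symm hij
    · by_cases h2 : k = j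
      · subst h2
        have h4 : ¬ I k k := hi k
        have h3 := Band_diag (e := e) hi hs (Band_symm h) hij
        constructor
        · rintro (h5 | ⟨h5, -⟩)
          · exact Or.inr ⟨rfl, h3.2 (hs _ _ h5)⟩
          · exact absurd h5 hij
        · rintro (h5 | ⟨-, h5⟩)
          · exact absurd h5 h4
          · exact Or.inl (hs _ _ (h3.1 h5))
      · have h3 := h k h1 h2
        constructor
        · rintro (h4 | ⟨h4, -⟩)
          · exact Or.inl (h3.1 h4)
          · exact absurd h4.symm h1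
        · rintro (h4 | ⟨h4, -⟩)
          · exact Or.inl (h3.2 h4)
          · exact absurd h4.symm h2

private theorem Band_ne (i : Fin n) : row (Band_R I e) i ≠ 0 ↔ ∃ j, I i j := by
  constructor
  · intro h
    obtain ⟨k, hk⟩ := Function.ne_iff.1 h
    unfold row at hk
    beta_reduce at hk
    have h1 : Band_R I e i k := by
      by_contra h2
      rw [if_neg h2] at hk
      exact hk rfl
    rcases h1 with h1 | ⟨-, h1⟩
    · exact ⟨k, h1⟩
    · obtain ⟨j, -, hj⟩ := (Band_cut I e i).1 h1
      exact ⟨j, hj⟩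
  · rintro ⟨j, hj⟩ h
    have h1 := congrFun h j
    unfold row at h1
    beta_reduce at h1
    rw [if_pos (show Band_R I e i j from Or.inl hj)] at h1
    exact one_ne_zero h1

private theorem Band_twist (hi : ∀ i, ¬ I i i) (hs : ∀ i j, I i j → I j i) (i : Fin n) :
    twist (Band_R I e) (cutState I e) (row (Band_R I e) i) = twistNumber I e i ∨
      twist (Band_R I e) (cutState I e) (row (Band_R I e) i) = -twistNumber I e i := by
  classical
  have h1 : twist (Band_R I e) (cutState I e) (row (Band_R I e) i) =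
      ∑ c with Twins I i c, if cutState I e c then 1 else -1 := by
    unfold twist
    refine Finset.sum_congr ?_ fun _ _ => rfl
    ext c
    rw [Finset.mem_filter, Finset.mem_filter, eq_comm, Band_row hi hs]
  have h2 : ∀ c, Twins I i c → (cutState I e c ≠ e c ↔ cutState I e i ≠ e i) := by
    intro c hc
    by_cases hci : c = i
    · rw [hci]
    · rw [Band_diag hi hs hc hci, Band_diag hi hs (Band_symm hc) (Ne.symm hci)]
      exact ⟨hs _ _, hs _ _⟩
  rw [h1]
  unfold twistNumber
  by_cases h3 : cutState I e i ≠ e i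
  · right
    rw [← Finset.sum_neg_distrib]
    refine Finset.sum_congr rfl fun c hc => ?_
    have h4 := (h2 c (Finset.mem_filter.1 hc).2).2 h3
    revert h4
    cases cutState I e c <;> cases e c <;> simp
  · left
    refine Finset.sum_congr rfl fun c hc => ?_
    have h4 : cutState I e c = e c := by
      by_contra h5
      exact h3 ((h2 c (Finset.mem_filter.1 hc).2).1 h5)
    rw [h4]

/-- the nonzero rows and the transversal -/
private theorem Band_image (hi : ∀ i, ¬ I i i) (hs : ∀ i j, I i j → I j i) {S : Finset (Fin n)}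
    (hS : Transversal I S) : (rows (Band_R I e)).erase 0 = S.image (row (Band_R I e)) := by
  classical
  ext v
  unfold rows
  rw [Finset.mem_erase, Finset.mem_image, Finset.mem_image]
  constructor
  · rintro ⟨h1, i, -, rfl⟩
    obtain ⟨s, hs1, hs2⟩ := hS.2.2 i ((Band_ne i).1 h1)
    exact ⟨s, hs1, ((Band_row hi hs i s).2 hs2).symm⟩
  · rintro ⟨i, h1, rfl⟩
    exact ⟨(Band_ne i).2 (hS.1 i h1), i, Finset.mem_univ _, rfl⟩

private theorem Band_inj (hi : ∀ i, ¬ I i i) (hs : ∀ i j, I i j → I j i) {S : Finset (Fin n)}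
    (hS : Transversal I S) : Set.InjOn (row (Band_R I e)) (S : Set (Fin n)) :=
  fun i h1 j h2 h => hS.2.1 i h1 j h2 ((Band_row hi hs i j).1 h)

private theorem Band_norm_neg (a : ℝ) :
    ‖Complex.exp (((-a : ℝ) : ℂ) * Complex.I) + 1‖ =
      ‖Complex.exp (((a : ℝ) : ℂ) * Complex.I) + 1‖ := by
  have h1 : Complex.exp (((-a : ℝ) : ℂ) * Complex.I) *
      (Complex.exp (((a : ℝ) : ℂ) * Complex.I) + 1) =
      Complex.exp (((-a : ℝ) : ℂ) * Complex.I) + 1 := by
    rw [mul_add, mul_one, ← Complex.exp_add]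
    have h2 : (((-a : ℝ) : ℂ) * Complex.I) + ((a : ℝ) : ℂ) * Complex.I = 0 := by
      push_cast
      ring
    rw [h2, Complex.exp_zero]
    ring
  rw [← h1, norm_mul, Complex.norm_exp_ofReal_mul_I, one_mul]

/-- the core for the relation of a state -/
private theorem Band_core (D : GaussDiagram n) (hi : ∀ i, ¬ I i i)
    (hs : ∀ i j, I i j → I j i) (hR : D.Cut (cutState I e) = Band_R I e) {S : Finset (Fin n)}
    (hS : Transversal I S) (hne : S.Nonempty) (θ : ℝ) (h0 : 0 < θ) (h1 : θ < 1)
    (h2 : ∀ i ∈ S, ‖Complex.exp (((twistNumber I e i * θ : ℝ) : ℂ) * Complex.I) + 1‖ ≤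
      1 / (3 * (S.card : ℝ))) :
    ∃ r : ℕ, 1 ≤ r ∧ S.card ≤ 3 * r ∧
      2 ^ r ≤ 2 * (θ ^ r * (coeffSum D.normalizedBracket : ℝ) + 3 ^ (S.card + 1) * θ) := by
  classical
  obtain ⟨σ, hσ⟩ : ∃ σ, σ = cutState I e := ⟨_, rfl⟩
  rw [← hσ] at hR
  have hcard : ((rows (Band_R I e)).erase 0).card = S.card := by
    rw [Band_image hi hs hS, Finset.card_image_of_injOn (Band_inj hi hs hS)]
  have hrow : ∀ c, row (Band_R I e) c = D.gmat σ c := fun c => by
    rw [← hR]
    exact row_eq D σ c
  obtain ⟨X, x, hX, hx, hx1, hev⟩ : ∃ (X : Finset (Fin n → ZMod 2)) (x : (Fin n → ZMod 2) → ℂ),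
      (∀ v, v ∈ X ↔ ∃ c, D.gmat σ c = v) ∧
      (∀ v (T : Finset (Fin n)), (∀ c, c ∈ T ↔ D.gmat σ c = v) →
        x v = Complex.exp (((signedCount σ T * θ : ℝ) : ℂ) * Complex.I)) ∧ (∀ v, ‖x v‖ = 1) ∧
      ‖PP X ⊥ x‖ - 3 ^ X.card * θ ≤
        θ ^ (D.gmat σ).rank * ‖evθ θ D.normalizedBracket‖ := by
    have hev := thm_Eval (Fin n) (D.gmat σ) (D.gmat_symm σ) σ θ h0 h1
    rw [← norm_f D σ] at hev
    refine ⟨_, _, ?_, ?_, ?_, hev⟩
    · intro v
      constructor
      · intro h
        obtain ⟨c, -, hc⟩ := Finset.mem_image.1 h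
        exact ⟨c, hc⟩
      · rintro ⟨c, hc⟩
        exact Finset.mem_image.2 ⟨c, Finset.mem_univ c, hc⟩
    · intro v T hT
      have h6 : ∀ (inst : DecidablePred fun c => D.gmat σ c = v),
          signedCount σ (@Finset.filter _ (fun c => D.gmat σ c = v) inst Finset.univ) =
            signedCount σ T := by
        intro inst
        congr 1
        ext c
        rw [Finset.mem_filter, hT]
        exact ⟨fun h => h.2, fun h => ⟨Finset.mem_univ _, h⟩⟩
      beta_reduce
      rw [h6]
    · intro v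
      exact Complex.norm_exp_ofReal_mul_I _
  have hXr : X = rows (Band_R I e) := by
    ext v
    rw [hX]
    unfold rows
    rw [Finset.mem_image]
    constructor
    · rintro ⟨c, hc⟩
      exact ⟨c, Finset.mem_univ c, (hrow c).trans hc⟩
    · rintro ⟨c, -, hc⟩
      exact ⟨c, (hrow c).symm.trans hc⟩
  have hspan : span (ZMod 2) (X : Set (Fin n → ZMod 2)) =
      span (ZMod 2) (Set.range (D.gmat σ).row) := by
    congr 1
    ext v
    rw [Finset.mem_coe, hX]
    rfl
  have hrk : finrank (ZMod 2) (span (ZMod 2) (X : Set (Fin n → ZMod 2))) = (D.gmat σ).rank := by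
    rw [hspan, ← Matrix.rank_eq_finrank_span_row]
  have hlow := thm_Near (Fin n → ZMod 2) X S.card (by rw [hXr, hcard]) x (hx1 0) (by
      intro v hv hv0
      rw [hXr] at hv
      have hv' : v ∈ (rows (Band_R I e)).erase 0 := Finset.mem_erase.2 ⟨hv0, hv⟩
      rw [Band_image hi hs hS] at hv'
      obtain ⟨i, hiS, rfl⟩ := Finset.mem_image.1 hv'
      have h7 := h2 i hiS
      have h8 : signedCount σ (Finset.univ.filter fun c => D.gmat σ c = row (Band_R I e) i) =
          twist (Band_R I e) (cutState I e) (row (Band_R I e) i) := by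
        unfold twist signedCount
        rw [hσ]
        refine Finset.sum_congr ?_ fun _ _ => rfl
        ext c
        rw [Finset.mem_filter, Finset.mem_filter, hrow c, hσ]
      rw [hx _ (Finset.univ.filter fun c => D.gmat σ c = row (Band_R I e) i) (fun c => by
        rw [Finset.mem_filter]
        exact ⟨fun h => h.2, fun h => ⟨Finset.mem_univ _, h⟩⟩), h8]
      rcases Band_twist (e := e) hi hs i with h9 | h9
      · rw [h9]
        exact h7
      · rw [h9]
        have h10 : (((-twistNumber I e i : ℤ) : ℝ) * θ) = -((twistNumber I e i : ℝ) * θ) := by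
          push_cast
          ring
        rw [h10, Band_norm_neg]
        exact h7)
  rw [hrk] at hlow
  obtain ⟨i₀, hi₀⟩ := hne
  have hmem : D.gmat σ i₀ ≠ 0 := by
    rw [← hrow]
    exact (Band_ne (e := e) i₀).2 (hS.1 i₀ hi₀)
  obtain ⟨c, d, hcd⟩ : ∃ c d, D.gmat σ c d ≠ 0 := by
    by_contra h
    push Not at h
    exact hmem (funext fun d => h i₀ d)
  have hrank : 1 ≤ (D.gmat σ).rank := rank_pos _ c d hcd
  have hle := norm_ev_le θ D.normalizedBracket
  refine ⟨(D.gmat σ).rank, hrank, ?_, ?_⟩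
  · have h3 := third D σ
    have h4 : EQT.rk (D.Cut σ) = (D.gmat σ).rank := by
      unfold EQT.rk
      rw [hR, ← hXr, hrk]
    rw [h4, hR, hcard] at h3
    omega
  · have h5 : X.card ≤ S.card + 1 := by
      have h7 := Finset.pred_card_le_card_erase (s := rows (Band_R I e)) (a := 0)
      rw [hXr]
      omega
    have h6 : (3 : ℝ) ^ X.card ≤ 3 ^ (S.card + 1) := pow_le_pow_right₀ (by norm_num) h5
    have h7 : (3 : ℝ) ^ X.card * θ ≤ 3 ^ (S.card + 1) * θ := mul_le_mul_of_nonneg_right h6 h0.le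
    have h8 : θ ^ (D.gmat σ).rank * ‖evθ θ D.normalizedBracket‖ ≤
        θ ^ (D.gmat σ).rank * (coeffSum D.normalizedBracket : ℝ) :=
      mul_le_mul_of_nonneg_left hle (by positivity)
    linarith

end

/-! ### the band -/

private theorem Band_pi (M : ℝ) (c : ℝ) (u : ℤ) (k : ℕ) (hk : 1 ≤ k) (hM : 0 < M)
    (h : |c - (2 * u + 1) * M| ≤ M / (10 * k)) :
    ‖Complex.exp (((c * (Real.pi / M) : ℝ) : ℂ) * Complex.I) + 1‖ ≤ 1 / (3 * (k : ℝ)) := by
  obtain ⟨y, hy⟩ : ∃ y : ℝ, y = (c - (2 * u + 1) * M) * (Real.pi / M) := ⟨_, rfl⟩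
  have hkr : (1 : ℝ) ≤ k := by exact_mod_cast hk
  have h1 : c * (Real.pi / M) = y + (2 * u + 1) * Real.pi := by
    rw [hy]
    field_simp
    ring
  have h2 : Complex.exp (((c * (Real.pi / M) : ℝ) : ℂ) * Complex.I) =
      -Complex.exp (((y : ℝ) : ℂ) * Complex.I) := by
    rw [h1]
    have h3 : (((y + (2 * u + 1) * Real.pi : ℝ)) : ℂ) * Complex.I =
        ((y : ℝ) : ℂ) * Complex.I + Real.pi * Complex.I + u * (2 * Real.pi * Complex.I) := by
      push_cast
      ring
    rw [h3, Complex.exp_add, Complex.exp_add, Complex.exp_pi_mul_I,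
      Complex.exp_int_mul_two_pi_mul_I]
    ring
  have h3 : |y| ≤ 1 / (3 * k) := by
    have h4 : |y| = |c - (2 * u + 1) * M| * (Real.pi / M) := by
      rw [hy, abs_mul, abs_of_nonneg (by positivity : (0 : ℝ) ≤ Real.pi / M)]
    rw [h4]
    calc |c - (2 * u + 1) * M| * (Real.pi / M) ≤ M / (10 * k) * (Real.pi / M) :=
          mul_le_mul_of_nonneg_right h (by positivity)
      _ = Real.pi / (10 * k) := by field_simp
      _ ≤ 1 / (3 * k) := by
        rw [div_le_div_iff₀ (by positivity) (by positivity)]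
        have := Real.pi_lt_d2
        nlinarith
  rw [h2]
  have h4 : -Complex.exp (((y : ℝ) : ℂ) * Complex.I) + 1 =
      -(Complex.exp (Complex.I * ((y : ℝ) : ℂ)) - 1) := by
    rw [mul_comm Complex.I]
    ring
  rw [h4, norm_neg]
  exact (Real.norm_exp_I_mul_ofReal_sub_one_le).trans (by rw [Real.norm_eq_abs]; exact h3)

private theorem Band_num (k r : ℕ) (M A : ℝ) (hr : 1 ≤ r) (hkr : k ≤ 3 * r)
    (hM : 4 ^ (k + 3) ≤ M)
    (h : 2 ^ r ≤ 2 * ((Real.pi / M) ^ r * A + 3 ^ (k + 1) * (Real.pi / M))) :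
    (M / 4) ^ ((k : ℝ) / 3) ≤ A ∧ M / 4 ≤ A := by
  have hM0 : (64 : ℝ) ≤ M := by
    have h1 : (4 : ℝ) ^ 3 ≤ 4 ^ (k + 3) := pow_le_pow_right₀ (by norm_num) (by omega)
    linarith
  have h1 : (3 : ℝ) ^ (k + 1) * (Real.pi / M) ≤ 1 / 5 := by
    have h2 : (3 : ℝ) ^ (k + 1) ≤ 4 ^ (k + 1) :=
      pow_le_pow_left₀ (by norm_num) (by norm_num) _
    have h3 : (4 : ℝ) ^ (k + 3) = 16 * 4 ^ (k + 1) := by ring
    rw [← mul_div_assoc, div_le_iff₀ (by linarith)]
    have h4 := Real.pi_lt_d2
    have h5 : (0 : ℝ) < 4 ^ (k + 1) := by positivity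
    have h6 := Real.pi_pos
    nlinarith
  have h2 : (Real.pi / M) ^ r * A ≥ 4 / 5 := by
    have h3 : (2 : ℝ) ^ 1 ≤ 2 ^ r := pow_le_pow_right₀ (by norm_num) hr
    linarith
  have hpi : 0 < Real.pi / M := by
    have := Real.pi_pos
    positivity
  have h3 : (M / 4) ^ r ≤ A := by
    have h4 : (M / 4) ^ r * (Real.pi / M) ^ r ≤ A * (Real.pi / M) ^ r := by
      rw [← mul_pow]
      have h5 : M / 4 * (Real.pi / M) = Real.pi / 4 := by
        field_simp
      rw [h5]
      have h7 := Real.pi_lt_d2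
      have h8 := Real.pi_pos
      have h6 : (Real.pi / 4) ^ r ≤ 4 / 5 := by
        calc (Real.pi / 4) ^ r ≤ (Real.pi / 4) ^ 1 :=
              pow_le_pow_of_le_one (by positivity) (by linarith) hr
          _ ≤ 4 / 5 := by
            rw [pow_one]
            linarith
      linarith
    exact le_of_mul_le_mul_right h4 (by positivity)
  have hM4 : 1 ≤ M / 4 := by linarith
  constructor
  · refine le_trans ?_ h3
    rw [← Real.rpow_natCast]
    refine Real.rpow_le_rpow_of_exponent_le hM4 ?_
    rw [div_le_iff₀ (by norm_num)]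
    have : (k : ℝ) ≤ 3 * r := by exact_mod_cast hkr
    linarith
  · refine le_trans ?_ h3
    calc M / 4 = (M / 4) ^ 1 := (pow_one _).symm
      _ ≤ (M / 4) ^ r := pow_le_pow_right₀ hM4 hr

private theorem Band_irrefl (D : GaussDiagram n) (i : Fin n) : ¬ D.Interlaced i i := by
  unfold GaussDiagram.Interlaced GaussDiagram.Inside
  simp

private theorem Band_int_symm (D : GaussDiagram n) (i j : Fin n) (h : D.Interlaced i j) :
    D.Interlaced j i := by
  have h1 : D.Cut D.sign i j := Or.inl h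
  rw [UNI.cut_iff, D.gmat_symm, ← UNI.cut_iff] at h1
  rcases h1 with h1 | ⟨-, h1⟩
  · exact h1
  · exact absurd rfl h1


/-- **knotoid diagrams**: the twist numbers are near odd multiples of `M` -/
theorem knotoidB (D : GaussDiagram n) (S : Finset (Fin n)) (M : ℝ)
    (hS : Transversal D.Interlaced S) (hne : S.Nonempty) (hM : 4 ^ (S.card + 3) ≤ M)
    (h : ∀ i ∈ S, ∃ u : ℤ, |(twistNumber D.Interlaced D.sign i : ℝ) - (2 * u + 1) * M| ≤
      M / (10 * S.card)) :
    (M / 4) ^ ((S.card : ℝ) / 3) ≤ (coeffSum D.normalizedBracket : ℝ) ∧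
      M / 4 ≤ (coeffSum D.normalizedBracket : ℝ) := by
  have hk : 1 ≤ S.card := Finset.card_pos.2 hne
  have hM0 : (64 : ℝ) ≤ M := by
    have h1 : (4 : ℝ) ^ 3 ≤ 4 ^ (S.card + 3) := pow_le_pow_right₀ (by norm_num) (by omega)
    linarith
  have hpi := Real.pi_pos
  have hpi4 := Real.pi_le_four
  obtain ⟨r, h1, h2, h3⟩ := Band_core D (Band_irrefl D) (Band_int_symm D) rfl hS hne
    (Real.pi / M) (by positivity) (by rw [div_lt_one (by linarith)]; linarith) (fun i hi => by
      obtain ⟨u, hu⟩ := h i hi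
      exact Band_pi M _ u S.card hk (by linarith) hu)
  exact Band_num S.card r M _ h1 h2 hM h3

/-- **knot diagrams**: the twist numbers are near odd multiples of `M` -/
theorem knotB (g : GaussJones.Code n) (e : Fin n → Bool) (S : Finset (Fin n)) (M : ℝ)
    (hS : Transversal (GaussJones.Interlaced g) S) (hne : S.Nonempty)
    (hM : 4 ^ (S.card + 3) ≤ M)
    (h : ∀ i ∈ S, ∃ u : ℤ, |(twistNumber (GaussJones.Interlaced g) e i : ℝ) - (2 * u + 1) * M| ≤
      M / (10 * S.card)) :
    (M / 4) ^ ((S.card : ℝ) / 3) ≤ (coeffSum (GaussJones.fPoly g e) : ℝ) ∧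
      M / 4 ≤ (coeffSum (GaussJones.fPoly g e) : ℝ) := by
  have hi : ∀ i, ¬ GaussJones.Interlaced g i i := by
    intro i h
    rcases h with h | h <;> exact lt_irrefl _ h.1
  have hs : ∀ i j, GaussJones.Interlaced g i j → GaussJones.Interlaced g j i :=
    fun i j h => h.symm
  have hk : 1 ≤ S.card := Finset.card_pos.2 hne
  have hM0 : (64 : ℝ) ≤ M := by
    have h1 : (4 : ℝ) ^ 3 ≤ 4 ^ (S.card + 3) := pow_le_pow_right₀ (by norm_num) (by omega)
    linarith
  have hn : 0 < n := by
    obtain ⟨i, _⟩ := hne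
    exact i.pos
  have hpi := Real.pi_pos
  have hpi4 := Real.pi_le_four
  have h0 : (UNI.cutOpen g e).Cut (cutState (GaussJones.Interlaced g) e) =
      Band_R (GaussJones.Interlaced g) e := by
    funext i j
    exact (propext (UNI.cut_closed g e _ i j)).symm
  rw [UNI.f_closed hn]
  obtain ⟨r, h1, h2, h3⟩ := Band_core (UNI.cutOpen g e) hi hs h0 hS hne
    (Real.pi / M) (by positivity) (by rw [div_lt_one (by linarith)]; linarith) (fun i hi => by
      obtain ⟨u, hu⟩ := h i hi
      exact Band_pi M _ u S.card hk (by linarith) hu)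
  exact Band_num S.card r M _ h1 h2 hM h3

end Pool.Agent.FHP
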