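import Pool.Agent.FHP.Fin

/-!
# FHP, module Cls: the form with twist classes
-/

set_option autoImplicit false

open Submodule Module LaurentPolynomial

namespace Pool.Agent.FHP

open Pool.Agent.SPT Pool.Agent.EQT Pool.Agent.Helper16.Knotoid

variable {n : ℕ}

section

variable {I : Fin n → Fin n → Prop} {e : Fin n → Bool}

/-- the relation of the state which cuts the twist regions -/
private def Cls_R (I : Fin n → Fin n → Prop) (e : Fin n → Bool) (i j : Fin n) : Prop :=
  I i j ∨ (i = j ∧ cutState I e i ≠ e i)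

private theorem Cls_cut (I : Fin n → Fin n → Prop) (e : Fin n → Bool) (i : Fin n) :
    cutState I e i ≠ e i ↔ ∃ j, Twins I i j ∧ I i j := by
  classical
  unfold cutState
  by_cases h : ∃ j, Twins I i j ∧ I i j
  · rw [if_pos h]
    exact ⟨fun _ => h, fun _ => by cases e i <;> decide⟩
  · rw [if_neg h]
    exact ⟨fun h' => absurd rfl h', fun h' => absurd h' h⟩

private theorem Cls_symm {i j : Fin n} (h : Twins I i j) : Twins I j i :=
  fun k h1 h2 => (h k h2 h1).symm

private theorem Cls_adj (hi : ∀ i, ¬ I i i) (hs : ∀ i j, I i j → I j i) {i j k : Fin n}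
    (h1 : Twins I i j) (h2 : I i j) (h3 : Twins I i k) (hk : k ≠ i) : I i k := by
  by_cases hkj : k = j
  · rw [hkj]
    exact h2
  · have hji : j ≠ i := by
      intro h
      rw [h] at h2
      exact hi i h2
    have h4 := (h3 j hji (Ne.symm hkj)).1 h2
    exact (h1 k hk hkj).2 (hs _ _ h4)

private theorem Cls_diag (hi : ∀ i, ¬ I i i) (hs : ∀ i j, I i j → I j i) {i j : Fin n}
    (h : Twins I i j) (hij : j ≠ i) : cutState I e i ≠ e i ↔ I i j := by
  rw [Cls_cut]
  constructor
  · rintro ⟨k, h1, h2⟩
    exact Cls_adj hi hs h1 h2 h hij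
  · intro h2
    exact ⟨j, h, h2⟩

private theorem Cls_row (hi : ∀ i, ¬ I i i) (hs : ∀ i j, I i j → I j i) (i j : Fin n) :
    row (Cls_R I e) i = row (Cls_R I e) j ↔ Twins I i j := by
  classical
  have h0 : row (Cls_R I e) i = row (Cls_R I e) j ↔
      ∀ k, (Cls_R I e i k ↔ Cls_R I e j k) := by
    unfold row
    constructor
    · intro h k
      have h1 := congrFun h k
      beta_reduce at h1
      by_cases h2 : Cls_R I e i k <;> by_cases h3 : Cls_R I e j k <;> simp_all
    · intro h
      funext k
      beta_reduce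
      rw [if_congr (h k) rfl rfl]
  rw [h0]
  constructor
  · intro h k h1 h2
    have h3 := h k
    unfold Cls_R at h3
    constructor
    · intro h4
      rcases h3.1 (Or.inl h4) with h5 | h5
      · exact h5
      · exact absurd h5.1.symm h2
    · intro h4
      rcases h3.2 (Or.inl h4) with h5 | h5
      · exact h5
      · exact absurd h5.1.symm h1
  · intro h k
    by_cases hij : i = j
    · rw [hij]
    unfold Cls_R
    by_cases h1 : k = i
    · subst h1
      have h2 : ¬ I k k := hi k
      have h3 := Cls_diag (e := e) hi hs h (Ne.symm hij)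
      constructor
      · rintro (h4 | ⟨-, h4⟩)
        · exact absurd h4 h2
        · exact Or.inl (hs _ _ (h3.1 h4))
      · rintro (h4 | ⟨h4, -⟩)
        · exact Or.inr ⟨rfl, h3.2 (hs _ _ h4)⟩
        · exact absurd h4.symm hij
    · by_cases h2 : k = j
      · subst h2
        have h4 : ¬ I k k := hi k
        have h3 := Cls_diag (e := e) hi hs (Cls_symm h) hij
        constructor
        · rintro (h5 | ⟨h5, -⟩)
          · exact Or.inr ⟨rfl, h3.2 (hs _ _ h5)⟩
          · exact absurd h5 hij
        · rintro (h5 | ⟨-, h5⟩)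
          · exact absurd h5 h4
          · exact Or.inl (hs _ _ (h3.1 h5))
      · have h3 := h k h1 h2
        constructor
        · rintro (h4 | ⟨h4, -⟩)
          · exact Or.inl (h3.1 h4)
          · exact absurd h4.symm h1
        · rintro (h4 | ⟨h4, -⟩)
          · exact Or.inl (h3.2 h4)
          · exact absurd h4.symm h2

private theorem Cls_ne (i : Fin n) : row (Cls_R I e) i ≠ 0 ↔ ∃ j, I i j := by
  constructor
  · intro h
    obtain ⟨k, hk⟩ := Function.ne_iff.1 h
    unfold row at hk
    beta_reduce at hk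
    have h1 : Cls_R I e i k := by
      by_contra h2
      rw [if_neg h2] at hk
      exact hk rfl
    rcases h1 with h1 | ⟨-, h1⟩
    · exact ⟨k, h1⟩
    · obtain ⟨j, -, hj⟩ := (Cls_cut I e i).1 h1
      exact ⟨j, hj⟩
  · rintro ⟨j, hj⟩ h
    have h1 := congrFun h j
    unfold row at h1
    beta_reduce at h1
    rw [if_pos (show Cls_R I e i j from Or.inl hj)] at h1
    exact one_ne_zero h1

private theorem Cls_twist (hi : ∀ i, ¬ I i i) (hs : ∀ i j, I i j → I j i) (i : Fin n) :
    twist (Cls_R I e) (cutState I e) (row (Cls_R I e) i) = twistNumber I e i ∨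
      twist (Cls_R I e) (cutState I e) (row (Cls_R I e) i) = -twistNumber I e i := by
  classical
  have h1 : twist (Cls_R I e) (cutState I e) (row (Cls_R I e) i) =
      ∑ c with Twins I i c, if cutState I e c then 1 else -1 := by
    unfold twist
    refine Finset.sum_congr ?_ fun _ _ => rfl
    ext c
    rw [Finset.mem_filter, Finset.mem_filter, eq_comm, Cls_row hi hs]
  have h2 : ∀ c, Twins I i c → (cutState I e c ≠ e c ↔ cutState I e i ≠ e i) := by
    intro c hc
    by_cases hci : c = i
    · rw [hci]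
    · rw [Cls_diag hi hs hc hci, Cls_diag hi hs (Cls_symm hc) (Ne.symm hci)]
      exact ⟨hs _ _, hs _ _⟩
  rw [h1]
  unfold twistNumber
  by_cases h3 : cutState I e i ≠ e i
  · right
    rw [← Finset.sum_neg_distrib]
    refine Finset.sum_congr rfl fun c hc => ?_
    have h4 := (h2 c (Finset.mem_filter.1 hc).2).2 h3
    revert h4
    cases cutState I e c <;> cases e c <;> simp
  · left
    refine Finset.sum_congr rfl fun c hc => ?_
    have h4 : cutState I e c = e c := by
      by_contra h5
      exact h3 ((h2 c (Finset.mem_filter.1 hc).2).1 h5)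
    rw [h4]

/-- the nonzero rows and the transversal -/
private theorem Cls_image (hi : ∀ i, ¬ I i i) (hs : ∀ i j, I i j → I j i) {S : Finset (Fin n)}
    (hS : Transversal I S) : (rows (Cls_R I e)).erase 0 = S.image (row (Cls_R I e)) := by
  classical
  ext v
  unfold rows
  rw [Finset.mem_erase, Finset.mem_image, Finset.mem_image]
  constructor
  · rintro ⟨h1, i, -, rfl⟩
    obtain ⟨s, hs1, hs2⟩ := hS.2.2 i ((Cls_ne i).1 h1)
    exact ⟨s, hs1, ((Cls_row hi hs i s).2 hs2).symm⟩
  · rintro ⟨i, h1, rfl⟩
    exact ⟨(Cls_ne i).2 (hS.1 i h1), i, Finset.mem_univ _, rfl⟩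

private theorem Cls_inj (hi : ∀ i, ¬ I i i) (hs : ∀ i j, I i j → I j i) {S : Finset (Fin n)}
    (hS : Transversal I S) : Set.InjOn (row (Cls_R I e)) (S : Set (Fin n)) :=
  fun i h1 j h2 h => hS.2.1 i h1 j h2 ((Cls_row hi hs i j).1 h)

private theorem Cls_free (hi : ∀ i, ¬ I i i) (hs : ∀ i j, I i j → I j i) {S : Finset (Fin n)}
    (hS : Transversal I S) (L K : ℕ)
    (h : ∀ a : Fin n → ℤ, (∀ i ∈ S, |a i| ≤ L) → Odd (∑ i ∈ S, a i) →
      (K : ℤ) ≤ |∑ i ∈ S, a i * twistNumber I e i|) :
    RowsFree (Cls_R I e) (cutState I e) L K := by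
  classical
  intro a ha hodd
  have h1 : ∀ i : Fin n, ∃ s : ℤ, (s = 1 ∨ s = -1) ∧
      twist (Cls_R I e) (cutState I e) (row (Cls_R I e) i) = s * twistNumber I e i := by
    intro i
    rcases Cls_twist (e := e) hi hs i with h2 | h2
    · exact ⟨1, Or.inl rfl, by rw [h2, one_mul]⟩
    · exact ⟨-1, Or.inr rfl, by rw [h2, neg_one_mul]⟩
  choose s hs1 hs2 using h1
  rw [Cls_image hi hs hS] at ha hodd ⊢
  rw [Finset.sum_image (Cls_inj hi hs hS)] at hodd ⊢
  have h3 := h (fun i => a (row (Cls_R I e) i) * s i) (fun i hi' => by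
    have h4 := ha _ (Finset.mem_image_of_mem _ hi')
    rcases hs1 i with h5 | h5 <;> simp only [h5, mul_one, mul_neg, abs_neg] <;> exact h4) (by
    have h5 : ∀ i, ∃ t : ℤ, a (row (Cls_R I e) i) * s i = a (row (Cls_R I e) i) + 2 * t := by
      intro i
      rcases hs1 i with h6 | h6
      · exact ⟨0, by rw [h6]; ring⟩
      · exact ⟨-a (row (Cls_R I e) i), by rw [h6]; ring⟩
    choose t ht using h5
    simp only [ht]
    rw [Finset.sum_add_distrib, ← Finset.mul_sum]
    exact hodd.add_even (even_two_mul _))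
  have h4 : ∑ i ∈ S, a (row (Cls_R I e) i) * s i * twistNumber I e i =
      ∑ i ∈ S, a (row (Cls_R I e) i) *
        twist (Cls_R I e) (cutState I e) (row (Cls_R I e) i) :=
    Finset.sum_congr rfl fun i _ => by rw [hs2]; ring
  rw [← h4]
  exact h3

end

private theorem Cls_irrefl (D : GaussDiagram n) (i : Fin n) : ¬ D.Interlaced i i := by
  unfold GaussDiagram.Interlaced GaussDiagram.Inside
  simp

private theorem Cls_int_symm (D : GaussDiagram n) (i j : Fin n) (h : D.Interlaced i j) :
    D.Interlaced j i := by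
  have h1 : D.Cut D.sign i j := Or.inl h
  rw [UNI.cut_iff, D.gmat_symm, ← UNI.cut_iff] at h1
  rcases h1 with h1 | ⟨-, h1⟩
  · exact h1
  · exact absurd rfl h1

/-- **knotoid diagrams**: the twist numbers are not on finitely many hyperplanes -/
theorem knotoidH (hN : St_Near) (hK : St_Kron) : St_KnotoidH := by
  classical
  intro n B D S hB hS hne h
  obtain ⟨i, hi⟩ := hne
  obtain ⟨j, hj⟩ := hS.1 i hi
  have h0 : D.Cut (cutState D.Interlaced D.sign) = Cls_R D.Interlaced D.sign := rfl
  refine knotoidF hN hK n S.card B D (cutState D.Interlaced D.sign) hB ⟨i, j, Or.inl hj⟩ ?_ ?_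
  · rw [h0, Cls_image (Cls_irrefl D) (Cls_int_symm D) hS]
    exact Finset.card_image_le
  · rw [h0]
    refine Cls_free (Cls_irrefl D) (Cls_int_symm D) hS _ _ ?_
    push_cast
    exact h

/-- **knot diagrams**: the twist numbers are not on finitely many hyperplanes -/
theorem knotH (hN : St_Near) (hK : St_Kron) : St_KnotH := by
  classical
  intro n B g e S hB hS hne h
  obtain ⟨i, hi⟩ := hne
  obtain ⟨j, hj⟩ := hS.1 i hi
  have hirr : ∀ i, ¬ GaussJones.Interlaced g i i := by
    intro i h
    rcases h with h | h <;> exact lt_irrefl _ h.1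
  have hsy : ∀ i j, GaussJones.Interlaced g i j → GaussJones.Interlaced g j i :=
    fun i j h => h.symm
  have h0 : GaussJones.Cut g e (cutState (GaussJones.Interlaced g) e) =
      Cls_R (GaussJones.Interlaced g) e := rfl
  refine knotF hN hK n S.card B g e (cutState (GaussJones.Interlaced g) e) hB
    ⟨i, j, Or.inl hj⟩ ?_ ?_
  · rw [h0, Cls_image hirr hsy hS]
    exact Finset.card_image_le
  · rw [h0]
    refine Cls_free hirr hsy hS _ _ ?_
    push_cast
    exact h

end Pool.Agent.FHP
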