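import Pool.Agent.FHP.Cls
import Pool.Agent.EQT.Twin

/-!
# FHP, module Cor: a band of twist vectors, small facts for the final statements
-/

set_option autoImplicit false

open LaurentPolynomial

namespace Pool.Agent.FHP

open Pool.Agent.SPT Pool.Agent.EQT

variable {n : ℕ}

/-- Twist numbers near odd multiples of a large number `M` have no short relation with an odd sum of
the coefficients. -/
theorem band (S : Finset (Fin n)) (c : Fin n → ℤ) (B M : ℕ)
    (hM : 2 ^ (12 * S.card ^ 2 + 1) * B ≤ M)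
    (h : ∀ i ∈ S, ∃ u : ℤ, 864 * (S.card : ℤ) ^ 5 * |c i - (2 * u + 1) * M| ≤ M)
    (a : Fin n → ℤ) (ha : ∀ i ∈ S, |a i| ≤ 432 * (S.card : ℤ) ^ 4) (hodd : Odd (∑ i ∈ S, a i)) :
    2 ^ (12 * S.card ^ 2) * (B : ℤ) ≤ |∑ i ∈ S, a i * c i| := by
  classical
  have h1 : ∀ i : Fin n, ∃ u : ℤ,
      i ∈ S → 864 * (S.card : ℤ) ^ 5 * |c i - (2 * u + 1) * M| ≤ M := by
    intro i
    by_cases hi : i ∈ S
    · obtain ⟨u, hu⟩ := h i hi
      exact ⟨u, fun _ => hu⟩
    · exact ⟨0, fun h => absurd h hi⟩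
  choose u hu using h1
  have h2 : ∑ i ∈ S, a i * c i = (∑ i ∈ S, a i * (2 * u i + 1)) * M +
      ∑ i ∈ S, a i * (c i - (2 * u i + 1) * M) := by
    rw [Finset.sum_mul, ← Finset.sum_add_distrib]
    exact Finset.sum_congr rfl fun i _ => by ring
  have h3 : Odd (∑ i ∈ S, a i * (2 * u i + 1)) := by
    have h4 : ∑ i ∈ S, a i * (2 * u i + 1) = ∑ i ∈ S, a i + 2 * ∑ i ∈ S, a i * u i := by
      rw [Finset.mul_sum, ← Finset.sum_add_distrib]
      exact Finset.sum_congr rfl fun i _ => by ring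
    rw [h4]
    exact hodd.add_even (even_two_mul _)
  have h4 : (M : ℤ) ≤ |(∑ i ∈ S, a i * (2 * u i + 1)) * M| := by
    rw [abs_mul, Nat.abs_cast]
    have h5 : 1 ≤ |∑ i ∈ S, a i * (2 * u i + 1)| := by
      apply Int.one_le_abs
      intro h6
      rw [h6] at h3
      exact absurd h3 (by decide)
    calc (M : ℤ) = 1 * M := (one_mul _).symm
      _ ≤ _ := mul_le_mul_of_nonneg_right h5 (Nat.cast_nonneg _)
  have h5 : 2 * |∑ i ∈ S, a i * (c i - (2 * u i + 1) * M)| ≤ M := by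
    have h6 : |∑ i ∈ S, a i * (c i - (2 * u i + 1) * M)| ≤
        ∑ i ∈ S, 432 * (S.card : ℤ) ^ 4 * |c i - (2 * u i + 1) * M| := by
      refine (Finset.abs_sum_le_sum_abs _ _).trans (Finset.sum_le_sum fun i hi => ?_)
      rw [abs_mul]
      exact mul_le_mul_of_nonneg_right (ha i hi) (abs_nonneg _)
    rcases S.eq_empty_or_nonempty with rfl | hne
    · simp
    have h7 : (0 : ℤ) < S.card := by exact_mod_cast Finset.card_pos.2 hne
    have h8 : (S.card : ℤ) * (2 * |∑ i ∈ S, a i * (c i - (2 * u i + 1) * M)|) ≤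
        (S.card : ℤ) * M := by
      calc (S.card : ℤ) * (2 * |∑ i ∈ S, a i * (c i - (2 * u i + 1) * M)|)
          ≤ (S.card : ℤ) * (2 * ∑ i ∈ S, 432 * (S.card : ℤ) ^ 4 *
            |c i - (2 * u i + 1) * M|) :=
            mul_le_mul_of_nonneg_left (by linarith) h7.le
        _ = ∑ i ∈ S, 864 * (S.card : ℤ) ^ 5 * |c i - (2 * u i + 1) * M| := by
            rw [Finset.mul_sum, Finset.mul_sum]
            exact Finset.sum_congr rfl fun i _ => by ring
        _ ≤ ∑ i ∈ S, (M : ℤ) := Finset.sum_le_sum fun i hi => hu i hi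
        _ = (S.card : ℤ) * M := by rw [Finset.sum_const, nsmul_eq_mul]
    exact le_of_mul_le_mul_left h8 h7
  have h6 : (2 ^ (12 * S.card ^ 2 + 1) * (B : ℤ)) ≤ M := by exact_mod_cast hM
  rw [pow_succ] at h6
  have h7 : |(∑ i ∈ S, a i * (2 * u i + 1)) * (M : ℤ)| -
      |∑ i ∈ S, a i * (c i - (2 * u i + 1) * M)| ≤ |∑ i ∈ S, a i * c i| := by
    rw [h2]
    have := abs_sub_abs_le_abs_sub ((∑ i ∈ S, a i * (2 * u i + 1)) * (M : ℤ))
      (-∑ i ∈ S, a i * (c i - (2 * u i + 1) * M))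
    rw [abs_neg, sub_neg_eq_add] at this
    exact this
  linarith

end Pool.Agent.FHP
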