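import Pool.Agent.FHP.St
import Pool.Agent.SPT.Fin

/-!
# FHP, module Fin: the general form
-/

set_option autoImplicit false
set_option linter.unusedSectionVars false

open Submodule LaurentPolynomial

namespace Pool.Agent.FHP

open Pool.Agent.SPT Pool.Agent.EQT Pool.Agent.Helper16.Knotoid Pool.Agent.UNI

variable {n : ℕ}

/-! ### the numbers -/

private theorem Fin_num1 (k : ℕ) (hk : 1 ≤ k) :
    (1 - (1 / (3 * (k : ℝ))) ^ 2 / 4) ^ (432 * k ^ 4) ≤ 1 / 2 ^ (12 * k ^ 2) := by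
  have hk' : (1 : ℝ) ≤ k := by exact_mod_cast hk
  have h1 : (1 - (1 / (3 * (k : ℝ))) ^ 2 / 4) = 1 - 1 / ((36 * k ^ 2 : ℕ) : ℝ) := by
    push_cast
    field_simp
    ring
  have h2 : 432 * k ^ 4 = (36 * k ^ 2) * (12 * k ^ 2) := by ring
  have h3 : (1 - 1 / ((36 * k ^ 2 : ℕ) : ℝ)) ^ (36 * k ^ 2) ≤ Real.exp (-1) := by
    refine Real.one_sub_div_pow_le_exp_neg ?_
    push_cast
    nlinarith
  have h4 : Real.exp (-1) ≤ 1 / 2 := by
    rw [Real.exp_neg, inv_eq_one_div]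
    refine one_div_le_one_div_of_le (by norm_num) ?_
    have := Real.add_one_le_exp (1 : ℝ)
    linarith
  have h0 : (0 : ℝ) ≤ 1 - 1 / ((36 * k ^ 2 : ℕ) : ℝ) := by
    rw [sub_nonneg, div_le_one (by positivity)]
    push_cast
    nlinarith
  rw [h1, h2, pow_mul]
  calc ((1 - 1 / ((36 * k ^ 2 : ℕ) : ℝ)) ^ (36 * k ^ 2)) ^ (12 * k ^ 2)
      ≤ (1 / 2) ^ (12 * k ^ 2) := pow_le_pow_left₀ (pow_nonneg h0 _) (h3.trans h4) _
    _ = 1 / 2 ^ (12 * k ^ 2) := by rw [one_div_pow]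

private theorem Fin_num2 (k : ℕ) (hk : 1 ≤ k) :
    (2 * ((432 * k ^ 4 : ℕ) : ℝ) + 1) ^ k ≤ 2 ^ (10 * k ^ 2) := by
  obtain ⟨j, rfl⟩ : ∃ j, k = j + 1 := ⟨k - 1, by omega⟩
  have h1 : j + 1 ≤ 2 ^ j := Nat.lt_two_pow_self
  have h2 : 2 * (432 * (j + 1) ^ 4) + 1 ≤ 2 ^ (10 * (j + 1)) := by
    have h3 : (j + 1) ^ 4 ≤ 2 ^ (4 * j) := by
      calc (j + 1) ^ 4 ≤ (2 ^ j) ^ 4 := Nat.pow_le_pow_left h1 4
        _ = 2 ^ (4 * j) := by rw [← pow_mul, mul_comm]
    have h4 : 2 ^ (4 * j) * 1024 ≤ 2 ^ (10 * (j + 1)) := by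
      calc 2 ^ (4 * j) * 1024 = 2 ^ (4 * j + 10) := by rw [pow_add]; norm_num
        _ ≤ 2 ^ (10 * (j + 1)) := Nat.pow_le_pow_right (by norm_num) (by omega)
    have h5 : 1 ≤ 2 ^ (4 * j) := Nat.one_le_two_pow
    omega
  calc (2 * ((432 * (j + 1) ^ 4 : ℕ) : ℝ) + 1) ^ (j + 1)
      ≤ (2 ^ (10 * (j + 1)) : ℝ) ^ (j + 1) := by
        refine pow_le_pow_left₀ (by positivity) ?_ _
        exact_mod_cast h2
    _ = 2 ^ (10 * (j + 1) ^ 2) := by rw [← pow_mul]; ring_nf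

private theorem Fin_num3 (k c B : ℕ) (hk : 1 ≤ k) (hc : c ≤ k) (hB : 1 ≤ B) :
    (1 - (1 / (3 * (k : ℝ))) ^ 2 / 4) ^ (432 * k ^ 4) +
      4 / ((2 ^ (12 * k ^ 2) * (B : ℝ)) * (1 / (2 * 3 ^ (k + 1) * (B : ℝ)))) ^ 2 <
      1 / (2 * ((432 * k ^ 4 : ℕ) : ℝ) + 1) ^ c := by
  have hB' : (1 : ℝ) ≤ B := by exact_mod_cast hB
  have h1 := Fin_num1 k hk
  have h2 := Fin_num2 k hk
  have h3 : (2 * ((432 * k ^ 4 : ℕ) : ℝ) + 1) ^ c ≤ 2 ^ (10 * k ^ 2) := by
    refine le_trans (pow_le_pow_right₀ ?_ hc) h2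
    have : (0 : ℝ) ≤ ((432 * k ^ 4 : ℕ) : ℝ) := Nat.cast_nonneg _
    linarith
  have h4 : (1 : ℝ) / 2 ^ (10 * k ^ 2) ≤ 1 / (2 * ((432 * k ^ 4 : ℕ) : ℝ) + 1) ^ c :=
    one_div_le_one_div_of_le (by positivity) h3
  have hk2 : k ≤ k ^ 2 := by nlinarith
  have h5 : (1 : ℝ) / 2 ^ (12 * k ^ 2) ≤ 1 / 4 * (1 / 2 ^ (10 * k ^ 2)) := by
    have h8 : (4 : ℝ) * 2 ^ (10 * k ^ 2) ≤ 2 ^ (12 * k ^ 2) := by
      calc (4 : ℝ) * 2 ^ (10 * k ^ 2) = 2 ^ (10 * k ^ 2 + 2) := by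
            rw [pow_add]
            ring
        _ ≤ 2 ^ (12 * k ^ 2) := pow_le_pow_right₀ (by norm_num) (by omega)
    rw [div_mul_div_comm, one_mul]
    exact one_div_le_one_div_of_le (by positivity) h8
  have h6 : 4 / ((2 ^ (12 * k ^ 2) * (B : ℝ)) * (1 / (2 * 3 ^ (k + 1) * (B : ℝ)))) ^ 2 ≤
      1 / 2 ^ (12 * k ^ 2) := by
    have h8 : (2 ^ (12 * k ^ 2) * (B : ℝ)) * (1 / (2 * 3 ^ (k + 1) * (B : ℝ))) =
        2 ^ (12 * k ^ 2) / (2 * 3 ^ (k + 1)) := by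
      field_simp
    have h9 : (16 : ℝ) * (3 ^ (k + 1)) ^ 2 ≤ 2 ^ (12 * k ^ 2) := by
      calc (16 : ℝ) * (3 ^ (k + 1)) ^ 2 ≤ 16 * (4 ^ (k + 1)) ^ 2 := by
            have : (3 : ℝ) ^ (k + 1) ≤ 4 ^ (k + 1) :=
              pow_le_pow_left₀ (by norm_num) (by norm_num) _
            have h10 : (0 : ℝ) ≤ 3 ^ (k + 1) := by positivity
            nlinarith
        _ = 2 ^ (4 * k + 8) := by
            have h10 : (4 : ℝ) = 2 ^ 2 := by norm_num
            rw [h10, ← pow_mul, ← pow_mul, show (16 : ℝ) = 2 ^ 4 by norm_num, ← pow_add]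
            congr 1
            ring
        _ ≤ 2 ^ (12 * k ^ 2) := pow_le_pow_right₀ (by norm_num) (by omega)
    rw [h8, div_pow, div_div_eq_mul_div, div_le_div_iff₀ (by positivity) (by positivity), one_mul]
    have h11 : (0 : ℝ) < 2 ^ (12 * k ^ 2) := by positivity
    nlinarith
  have h7 : (0 : ℝ) < 1 / 2 ^ (10 * k ^ 2) := by positivity
  linarith

/-! ### the general form -/

/-- **knotoid diagrams**, general form -/
theorem knotoidF (hN : St_Near) (hK : St_Kron) : St_KnotoidF := by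
  classical
  intro n k B D σ hB ⟨c₀, d₀, hR⟩ hk hfree
  have hB' : (1 : ℝ) ≤ B := by exact_mod_cast hB
  have hrows : rows (D.Cut σ) = Finset.univ.image (D.gmat σ) := by
    unfold rows
    exact Finset.image_congr fun c _ => row_eq D σ c
  have htw : ∀ (v : Fin n → ZMod 2) (inst : DecidablePred fun c => D.gmat σ c = v),
      SPT.signedCount σ (@Finset.filter _ (fun c => D.gmat σ c = v) inst Finset.univ) =
      twist (D.Cut σ) σ v := by
    intro v inst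
    symm
    unfold twist SPT.signedCount
    refine Finset.sum_congr ?_ fun _ _ => rfl
    ext c
    rw [Finset.mem_filter, Finset.mem_filter, row_eq]
  have hne : D.gmat σ c₀ ≠ 0 := by
    intro h
    have h1 := (cut_iff D σ c₀ d₀).1 hR
    rw [h] at h1
    exact zero_ne_one h1
  have hmem : D.gmat σ c₀ ∈ rows (D.Cut σ) := by
    rw [hrows]
    exact Finset.mem_image_of_mem _ (Finset.mem_univ _)
  have hk1 : 1 ≤ k := by
    refine le_trans ?_ hk
    exact Finset.card_pos.2 ⟨_, Finset.mem_erase.2 ⟨hne, hmem⟩⟩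
  have hcardX : (rows (D.Cut σ)).card ≤ k + 1 := by
    have := Finset.pred_card_le_card_erase (s := rows (D.Cut σ)) (a := 0)
    omega
  obtain ⟨φ, h0, h1, h2⟩ := hK {v // v ∈ (rows (D.Cut σ)).erase 0} (432 * k ^ 4)
    (1 / (3 * k)) (1 / (2 * 3 ^ (k + 1) * B)) (2 ^ (12 * k ^ 2) * B)
    (fun v => (twist (D.Cut σ) σ v.1 : ℝ)) (by positivity) (by
      rw [div_le_iff₀ (by positivity)]
      have : (1 : ℝ) ≤ k := by exact_mod_cast hk1
      nlinarith) (by positivity) (by positivity) (by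
      refine Fin_num3 k _ B hk1 ?_ hB
      rw [Fintype.card_coe]
      exact hk) (by
      intro a ha hodd
      obtain ⟨b, hb⟩ : ∃ b : (Fin n → ZMod 2) → ℤ,
          ∀ v : {v // v ∈ (rows (D.Cut σ)).erase 0}, b v.1 = a v :=
        ⟨fun v => if h : v ∈ (rows (D.Cut σ)).erase 0 then a ⟨v, h⟩ else 0,
          fun v => dif_pos v.2⟩
      have h3 := hfree b (fun v hv => by
        rw [hb ⟨v, hv⟩]
        exact_mod_cast ha ⟨v, hv⟩)
      rw [← Finset.sum_coe_sort ((rows (D.Cut σ)).erase 0),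
        ← Finset.sum_coe_sort ((rows (D.Cut σ)).erase 0)] at h3
      simp only [hb] at h3
      have h4 := h3 hodd
      have h5 : (((2 ^ (12 * k ^ 2) * B : ℕ) : ℤ) : ℝ) ≤
          ((|∑ v : {v // v ∈ (rows (D.Cut σ)).erase 0}, a v * twist (D.Cut σ) σ v.1| : ℤ) : ℝ) :=
        Int.cast_le.2 h4
      push_cast at h5
      exact h5)
  have hφ1 : φ < 1 := by
    refine h1.trans_le ?_
    rw [div_le_one (by positivity)]
    have : (1 : ℝ) ≤ 3 ^ (k + 1) := one_le_pow₀ (by norm_num)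
    nlinarith
  have hev := thm_Eval (Fin n) (D.gmat σ) (D.gmat_symm σ) σ φ h0 hφ1
  simp only [htw] at hev
  have hnear := hN (Fin n → ZMod 2) (Finset.univ.image (D.gmat σ)) k (by rwa [← hrows])
    (fun v => Complex.exp (((twist (D.Cut σ) σ v * φ : ℝ) : ℂ) * Complex.I))
    (Complex.norm_exp_ofReal_mul_I _) (fun v hv hv0 => by
      have h3 := h2 ⟨v, Finset.mem_erase.2 ⟨hv0, by rwa [hrows]⟩⟩
      beta_reduce at h3
      rw [mul_comm φ] at h3
      exact h3)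
  have hpos : 1 ≤ Module.finrank (ZMod 2)
      (span (ZMod 2) ((Finset.univ.image (D.gmat σ) : Finset _) : Set (Fin n → ZMod 2))) := by
    rw [Nat.one_le_iff_ne_zero, Ne, Submodule.finrank_eq_zero, span_eq_bot]
    intro h
    exact hne (h _ (by rw [← hrows]; exact_mod_cast hmem))
  have hPP : 1 ≤ ‖PP (Finset.univ.image (D.gmat σ)) ⊥ (fun v => Complex.exp (((
        twist (D.Cut σ) σ v * φ : ℝ) : ℂ) * Complex.I))‖ := by
    have h3 : (2 : ℝ) ^ 1 ≤ 2 ^ Module.finrank (ZMod 2)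
      (span (ZMod 2) ((Finset.univ.image (D.gmat σ) : Finset _) : Set (Fin n → ZMod 2))) :=
      pow_le_pow_right₀ (by norm_num) hpos
    linarith
  have hrank : 1 ≤ (D.gmat σ).rank := rank_pos _ c₀ d₀ (by
    rw [(cut_iff D σ c₀ d₀).1 hR]
    exact one_ne_zero)
  rw [← norm_f D σ φ] at hev
  have hle := norm_ev_le φ D.normalizedBracket
  have hpow : φ ^ (D.gmat σ).rank ≤ φ := by
    calc φ ^ (D.gmat σ).rank ≤ φ ^ 1 := pow_le_pow_of_le_one h0.le (by linarith) hrank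
      _ = φ := pow_one φ
  have h3 : (3 : ℝ) ^ (Finset.univ.image (D.gmat σ)).card * φ ≤ 1 / (2 * B) := by
    have h4 : (3 : ℝ) ^ (Finset.univ.image (D.gmat σ)).card ≤ 3 ^ (k + 1) :=
      pow_le_pow_right₀ (by norm_num) (by rwa [← hrows])
    calc (3 : ℝ) ^ (Finset.univ.image (D.gmat σ)).card * φ
        ≤ 3 ^ (k + 1) * (1 / (2 * 3 ^ (k + 1) * B)) :=
          mul_le_mul h4 h1.le h0.le (by positivity)
      _ = 1 / (2 * B) := by field_simp
  have h4 : (1 : ℝ) / (2 * B) ≤ 1 / 2 := by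
    rw [div_le_div_iff₀ (by positivity) (by norm_num)]
    linarith
  have h5 : (1 : ℝ) / 2 ≤ φ * ‖evθ φ D.normalizedBracket‖ := by
    have h6 : φ ^ (D.gmat σ).rank * ‖evθ φ D.normalizedBracket‖ ≤
        φ * ‖evθ φ D.normalizedBracket‖ := mul_le_mul_of_nonneg_right hpow (norm_nonneg _)
    linarith
  have h6 : φ * (2 * B) < 1 := by
    have h7 : φ < 1 / (2 * B) := by
      refine h1.trans_le ?_
      refine one_div_le_one_div_of_le (by positivity) ?_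
      have : (1 : ℝ) ≤ 3 ^ (k + 1) := one_le_pow₀ (by norm_num)
      nlinarith
    rwa [lt_div_iff₀ (by positivity)] at h7
  have h7 : (B : ℝ) < (coeffSum D.normalizedBracket : ℝ) := by
    by_contra h8
    have h9 : ‖evθ φ D.normalizedBracket‖ ≤ B := hle.trans (not_lt.1 h8)
    have h10 : φ * ‖evθ φ D.normalizedBracket‖ ≤ φ * B := mul_le_mul_of_nonneg_left h9 h0.le
    nlinarith
  exact_mod_cast h7

/-- **knot diagrams**, general form -/
theorem knotF (hN : St_Near) (hK : St_Kron) : St_KnotF := by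
  intro n k B g e σ hB h hk hfree
  have h1 : GaussJones.Cut g e σ = (cutOpen g e).Cut σ := by
    funext i j
    exact propext (cut_closed g e σ i j)
  have hn : 0 < n := by
    obtain ⟨c, _⟩ := h
    exact c.pos
  rw [h1] at h hk hfree
  rw [f_closed hn]
  exact knotoidF hN hK n k B _ σ hB h hk hfree

end Pool.Agent.FHP
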