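import Pool.Agent.FHP.St
import Pool.Agent.SPT.Fin
import Pool.Agent.Helper16.KUnb.Graph
import Pool.Agent.UNI.Knot

/-!
# FHP, module Graph: the rows of the cut matrix and the graph of the cut state (helper32)

The vertices of the graph are the closed curves of the state which cuts all twist regions, the edges
are the crossings.  The rows of a set of classes span all rows if and only if the other classes
contain no cycle of the graph.
-/

set_option autoImplicit false
set_option linter.unusedSectionVars false

open Submodule Module LaurentPolynomial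

namespace Pool.Agent.FHP

open Pool.Agent.SPT Pool.Agent.EQT Pool.Agent.Helper16.Knotoid

variable {n : ℕ}

/-! ### even sets -/

section

variable {V : Type} [Finite V]

open Classical in
/-- the number of the ends of the edges in `Z` at every class is even -/
theorem Graph_even (r : V → V → Prop) (a b : Fin n → V) (Z : Finset (Fin n)) :
    (∀ q : Quot r, Even ((Z.filter fun c => Quot.mk r (a c) = q).card +
      (Z.filter fun c => Quot.mk r (b c) = q).card)) ↔
    ∀ φ ∈ compat r, ∑ c ∈ Z, (φ (a c) + φ (b c)) = 0 := by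
  have : Finite (Quot r) := Finite.of_surjective (Quot.mk r) Quot.mk_surjective
  have := Fintype.ofFinite (Quot r)
  have hsum : ∀ (ψ : Quot r → ZMod 2) (f : Fin n → Quot r), ∑ c ∈ Z, ψ (f c) =
      ∑ q, (((Z.filter fun c => f c = q).card : ℕ) : ZMod 2) * ψ q := by
    intro ψ f
    rw [← Finset.sum_fiberwise_of_maps_to (s := Z) (t := Finset.univ) (g := f)
      (fun _ _ => Finset.mem_univ _)]
    refine Finset.sum_congr rfl fun q _ => ?_
    rw [← nsmul_eq_mul, ← Finset.sum_const]
    refine Finset.sum_congr rfl fun c hc => ?_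
    rw [(Finset.mem_filter.1 hc).2]
  constructor
  · intro h φ hφ
    obtain ⟨ψ, hψ⟩ : ∃ ψ : Quot r → ZMod 2, ∀ v, ψ (Quot.mk r v) = φ v :=
      ⟨Quot.lift φ hφ, fun v => rfl⟩
    have h1 : ∑ c ∈ Z, (φ (a c) + φ (b c)) =
        ∑ c ∈ Z, ψ (Quot.mk r (a c)) + ∑ c ∈ Z, ψ (Quot.mk r (b c)) := by
      rw [← Finset.sum_add_distrib]
      refine Finset.sum_congr rfl fun c _ => ?_
      rw [hψ, hψ]
    rw [h1, hsum ψ fun c => Quot.mk r (a c), hsum ψ fun c => Quot.mk r (b c),
      ← Finset.sum_add_distrib]
    refine Finset.sum_eq_zero fun q _ => ?_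
    rw [← add_mul, ← Nat.cast_add, (ZMod.natCast_eq_zero_iff_even).2 (h q), zero_mul]
  · intro h q
    have h1 := h (fun v => if Quot.mk r v = q then 1 else 0) (by
      rw [mem_compat]
      intro v w hvw
      rw [Quot.sound hvw])
    rw [Finset.sum_add_distrib] at h1
    have h2 : ∀ f : Fin n → V, ∑ c ∈ Z, (if Quot.mk r (f c) = q then (1 : ZMod 2) else 0) =
        (((Z.filter fun c => Quot.mk r (f c) = q).card : ℕ) : ZMod 2) := by
      intro f
      rw [Finset.sum_boole]
    rw [h2, h2, ← Nat.cast_add, ZMod.natCast_eq_zero_iff_even] at h1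
    exact h1

end

/-! ### the kernel and the range of the cut matrix -/

/-- the vectors in the kernel are jumps -/
theorem Graph_ker (D : GaussDiagram n) (σ : Fin n → Bool) (x : Fin n → ZMod 2)
    (hx : (D.gmat σ).mulVec x = 0) : ∃ φ ∈ compat (D.Join σ),
      ∀ c, φ (D.overPass c).castSucc + φ (D.overPass c).succ = x c := by
  refine ⟨arcParam D.overPass D.underPass (0, x), ?_, fun c => ?_⟩
  · rw [GaussDiagram.compat_join, arcCond_eq_map D.pass_inj]
    exact ⟨(0, x), ⟨trivial, hx⟩, rfl⟩
  · rw [arcParam_apply, arcParam_apply]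
    simp only [Fin.val_castSucc, Fin.val_succ]
    rw [arcFun_succ_P D.pass_inj, ← add_assoc, CharTwo.add_self_eq_zero, zero_add]

/-- a vector orthogonal to the kernel of a symmetric matrix is in the range -/
theorem Graph_range (M : Matrix (Fin n) (Fin n) (ZMod 2)) (hM : ∀ i j, M i j = M j i)
    (z : Fin n → ZMod 2) (hz : ∀ x, M.mulVec x = 0 → z ⬝ᵥ x = 0) : ∃ y, M.mulVec y = z := by
  classical
  obtain ⟨f, hf⟩ : ∃ f : (Fin n → ZMod 2) →ₗ[ZMod 2] ZMod 2, ∀ x, f x = z ⬝ᵥ x :=
    ⟨{ toFun := fun x => z ⬝ᵥ x
       map_add' := fun x y => dotProduct_add z x y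
       map_smul' := fun c x => dotProduct_smul c z x }, fun x => rfl⟩
  have h1 : f ∈ (LinearMap.ker M.mulVecLin).dualAnnihilator := by
    rw [Submodule.mem_dualAnnihilator]
    intro x hx
    rw [hf]
    exact hz x hx
  rw [← LinearMap.range_dualMap_eq_dualAnnihilator_ker] at h1
  obtain ⟨ψ, hψ⟩ := h1
  refine ⟨fun c => ψ (Pi.single c 1), ?_⟩
  funext j
  have h2 : ψ (M.mulVec (Pi.single j 1)) = z j := by
    have h3 := LinearMap.congr_fun hψ (Pi.single j 1)
    rw [hf, dotProduct_single, mul_one] at h3
    exact h3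
  have h4 : M.mulVec (Pi.single j 1) = ∑ i, M i j • (Pi.single i (1 : ZMod 2) : Fin n → ZMod 2) := by
    rw [Matrix.mulVec_single_one]
    funext i
    rw [Finset.sum_apply, Finset.sum_eq_single i]
    · simp
    · intro k _ hk
      simp [Ne.symm hk]
    · intro h
      exact absurd (Finset.mem_univ i) h
  rw [h4, map_sum] at h2
  rw [← h2]
  unfold Matrix.mulVec dotProduct
  refine Finset.sum_congr rfl fun i _ => ?_
  rw [map_smul, smul_eq_mul, ← hM j i]

/-- `z` is in the range of the cut matrix if and only if it is even at all curves -/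
theorem Graph_mem (D : GaussDiagram n) (σ : Fin n → Bool) (z : Fin n → ZMod 2) :
    (∃ y, (D.gmat σ).mulVec y = z) ↔ ∀ φ ∈ compat (D.Join σ),
      ∑ c, z c * (φ (D.overPass c).castSucc + φ (D.overPass c).succ) = 0 := by
  constructor
  · rintro ⟨y, rfl⟩ φ hφ
    have h1 : (D.gmat σ).mulVec
        (fun c => φ (D.overPass c).castSucc + φ (D.overPass c).succ) = 0 := D.ker_of_compat σ hφ
    obtain ⟨x, hx⟩ : ∃ x : Fin n → ZMod 2,
        x = fun c => φ (D.overPass c).castSucc + φ (D.overPass c).succ := ⟨_, rfl⟩
    rw [← hx] at h1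
    have h2 : ∑ c, (D.gmat σ).mulVec y c * (φ (D.overPass c).castSucc + φ (D.overPass c).succ) =
        ((D.gmat σ).mulVec y) ⬝ᵥ x := by
      rw [hx]
      rfl
    have hT : (D.gmat σ).transpose = D.gmat σ := by
      ext i j
      exact D.gmat_symm σ j i
    rw [h2, dotProduct_comm, Matrix.dotProduct_mulVec, ← hT, Matrix.vecMul_transpose, h1,
      zero_dotProduct]
  · intro h
    refine Graph_range _ (D.gmat_symm σ) z fun x hx => ?_
    obtain ⟨φ, hφ, h1⟩ := Graph_ker D σ x hx
    have h2 := h φ hφ
    simp only [h1] at h2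
    exact h2

/-! ### rows and cycles -/

/-- The rows of `Y` span all rows if and only if there is no nonempty even set outside of `Y`. -/
theorem Graph_span (D : GaussDiagram n) (σ : Fin n → Bool) (Y : Set (Fin n)) :
    (∀ i, D.gmat σ i ∈ span (ZMod 2) (D.gmat σ '' Y)) ↔
    ∀ y, (∀ i ∈ Y, (D.gmat σ).mulVec y i = 0) → (D.gmat σ).mulVec y = 0 := by
  classical
  constructor
  · intro h y hy
    funext i
    have h1 : span (ZMod 2) (D.gmat σ '' Y) ≤
        LinearMap.ker (Matrix.toLin' (Matrix.of fun (_ : Fin 1) => y)) := by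
      rw [span_le]
      rintro _ ⟨j, hj, rfl⟩
      rw [SetLike.mem_coe, LinearMap.mem_ker, Matrix.toLin'_apply]
      funext k
      have h2 := hy j hj
      show y ⬝ᵥ D.gmat σ j = 0
      rw [dotProduct_comm]
      exact h2
    have h3 := h1 (h i)
    rw [LinearMap.mem_ker, Matrix.toLin'_apply] at h3
    have h4 := congrFun h3 0
    change y ⬝ᵥ D.gmat σ i = 0 at h4
    rw [dotProduct_comm] at h4
    exact h4
  · intro h i
    by_contra hi
    obtain ⟨f, hf1, hf2⟩ := Submodule.exists_dual_map_eq_bot_of_notMem hi inferInstance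
    have h1 : ∀ v : Fin n → ZMod 2, f v = v ⬝ᵥ fun c => f (Pi.single c 1) := by
      intro v
      conv_lhs => rw [← Finset.univ_sum_single v, map_sum]
      unfold dotProduct
      refine Finset.sum_congr rfl fun c _ => ?_
      have h2 : (Pi.single c (v c) : Fin n → ZMod 2) = v c • Pi.single c 1 := by
        rw [← Pi.single_smul', smul_eq_mul, mul_one]
      rw [h2, map_smul, smul_eq_mul]
    have h3 := h (fun c => f (Pi.single c 1)) (fun j hj => by
      have h4 : f (D.gmat σ j) = 0 := by
        have h5 : f (D.gmat σ j) ∈ Submodule.map f (span (ZMod 2) (D.gmat σ '' Y)) :=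
          Submodule.mem_map_of_mem (subset_span ⟨j, hj, rfl⟩)
        rw [hf2] at h5
        exact (Submodule.mem_bot _).1 h5
      rw [h1] at h4
      exact h4)
    apply hf1
    rw [h1]
    exact congrFun h3 i

/-! ### the classes -/

section

variable {I : Fin n → Fin n → Prop} {e : Fin n → Bool}

/-- the relation of the state which cuts the twist regions -/
def Graph_R (I : Fin n → Fin n → Prop) (e : Fin n → Bool) (i j : Fin n) : Prop :=
  I i j ∨ (i = j ∧ cutState I e i ≠ e i)

theorem Graph_cut (I : Fin n → Fin n → Prop) (e : Fin n → Bool) (i : Fin n) :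
    cutState I e i ≠ e i ↔ ∃ j, Twins I i j ∧ I i j := by
  classical
  unfold cutState
  by_cases h : ∃ j, Twins I i j ∧ I i j
  · rw [if_pos h]
    exact ⟨fun _ => h, fun _ => by cases e i <;> decide⟩
  · rw [if_neg h]
    exact ⟨fun h' => absurd rfl h', fun h' => absurd h' h⟩

theorem Graph_symm {i j : Fin n} (h : Twins I i j) : Twins I j i :=
  fun k h1 h2 => (h k h2 h1).symm

theorem Graph_adj (hi : ∀ i, ¬ I i i) (hs : ∀ i j, I i j → I j i) {i j k : Fin n}
    (h1 : Twins I i j) (h2 : I i j) (h3 : Twins I i k) (hk : k ≠ i) : I i k := by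
  by_cases hkj : k = j
  · rw [hkj]
    exact h2
  · have hji : j ≠ i := by
      intro h
      rw [h] at h2
      exact hi i h2
    have h4 := (h3 j hji (Ne.symm hkj)).1 h2
    exact (h1 k hk hkj).2 (hs _ _ h4)

theorem Graph_diag (hi : ∀ i, ¬ I i i) (hs : ∀ i j, I i j → I j i) {i j : Fin n}
    (h : Twins I i j) (hij : j ≠ i) : cutState I e i ≠ e i ↔ I i j := by
  rw [Graph_cut]
  constructor
  · rintro ⟨k, h1, h2⟩
    exact Graph_adj hi hs h1 h2 h hij
  · intro h2
    exact ⟨j, h, h2⟩

theorem Graph_row (hi : ∀ i, ¬ I i i) (hs : ∀ i j, I i j → I j i) (i j : Fin n) :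
    row (Graph_R I e) i = row (Graph_R I e) j ↔ Twins I i j := by
  classical
  have h0 : row (Graph_R I e) i = row (Graph_R I e) j ↔
      ∀ k, (Graph_R I e i k ↔ Graph_R I e j k) := by
    unfold row
    constructor
    · intro h k
      have h1 := congrFun h k
      beta_reduce at h1
      by_cases h2 : Graph_R I e i k <;> by_cases h3 : Graph_R I e j k <;> simp_all
    · intro h
      funext k
      beta_reduce
      rw [if_congr (h k) rfl rfl]
  rw [h0]
  constructor
  · intro h k h1 h2
    have h3 := h k
    unfold Graph_R at h3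
    constructor
    · intro h4
      rcases h3.1 (Or.inl h4) with h5 | h5
      · exact h5
      · exact absurd h5.1.symm h2
    · intro h4
      rcases h3.2 (Or.inl h4) with h5 | h5
      · exact h5
      · exact absurd h5.1.symm h1
  · intro h k
    by_cases hij : i = j
    · rw [hij]
    unfold Graph_R
    by_cases h1 : k = i
    · subst h1
      have h2 : ¬ I k k := hi k
      have h3 := Graph_diag (e := e) hi hs h (Ne.symm hij)
      constructor
      · rintro (h4 | ⟨-, h4⟩)
        · exact absurd h4 h2
        · exact Or.inl (hs _ _ (h3.1 h4))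
      · rintro (h4 | ⟨h4, -⟩)
        · exact Or.inr ⟨rfl, h3.2 (hs _ _ h4)⟩
        · exact absurd h4.symm hij
    · by_cases h2 : k = j
      · subst h2
        have h4 : ¬ I k k := hi k
        have h3 := Graph_diag (e := e) hi hs (Graph_symm h) hij
        constructor
        · rintro (h5 | ⟨h5, -⟩)
          · exact Or.inr ⟨rfl, h3.2 (hs _ _ h5)⟩
          · exact absurd h5 hij
        · rintro (h5 | ⟨-, h5⟩)
          · exact absurd h5 h4
          · exact Or.inl (hs _ _ (h3.1 h5))
      · have h3 := h k h1 h2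
        constructor
        · rintro (h4 | ⟨h4, -⟩)
          · exact Or.inl (h3.1 h4)
          · exact absurd h4.symm h1
        · rintro (h4 | ⟨h4, -⟩)
          · exact Or.inl (h3.2 h4)
          · exact absurd h4.symm h2

theorem Graph_ne (i : Fin n) : row (Graph_R I e) i ≠ 0 ↔ ∃ j, I i j := by
  constructor
  · intro h
    obtain ⟨k, hk⟩ := Function.ne_iff.1 h
    unfold row at hk
    beta_reduce at hk
    have h1 : Graph_R I e i k := by
      by_contra h2
      rw [if_neg h2] at hk
      exact hk rfl
    rcases h1 with h1 | ⟨-, h1⟩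
    · exact ⟨k, h1⟩
    · obtain ⟨j, -, hj⟩ := (Graph_cut I e i).1 h1
      exact ⟨j, hj⟩
  · rintro ⟨j, hj⟩ h
    have h1 := congrFun h j
    unfold row at h1
    beta_reduce at h1
    rw [if_pos (show Graph_R I e i j from Or.inl hj)] at h1
    exact one_ne_zero h1

theorem Graph_twist (hi : ∀ i, ¬ I i i) (hs : ∀ i j, I i j → I j i) (i : Fin n) :
    twist (Graph_R I e) (cutState I e) (row (Graph_R I e) i) = twistNumber I e i ∨
      twist (Graph_R I e) (cutState I e) (row (Graph_R I e) i) = -twistNumber I e i := by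
  classical
  have h1 : twist (Graph_R I e) (cutState I e) (row (Graph_R I e) i) =
      ∑ c with Twins I i c, if cutState I e c then 1 else -1 := by
    unfold twist
    refine Finset.sum_congr ?_ fun _ _ => rfl
    ext c
    rw [Finset.mem_filter, Finset.mem_filter, eq_comm, Graph_row hi hs]
  have h2 : ∀ c, Twins I i c → (cutState I e c ≠ e c ↔ cutState I e i ≠ e i) := by
    intro c hc
    by_cases hci : c = i
    · rw [hci]
    · rw [Graph_diag hi hs hc hci, Graph_diag hi hs (Graph_symm hc) (Ne.symm hci)]
      exact ⟨hs _ _, hs _ _⟩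
  rw [h1]
  unfold twistNumber
  by_cases h3 : cutState I e i ≠ e i
  · right
    rw [← Finset.sum_neg_distrib]
    refine Finset.sum_congr rfl fun c hc => ?_
    have h4 := (h2 c (Finset.mem_filter.1 hc).2).2 h3
    revert h4
    cases cutState I e c <;> cases e c <;> simp
  · left
    refine Finset.sum_congr rfl fun c hc => ?_
    have h4 : cutState I e c = e c := by
      by_contra h5
      exact h3 ((h2 c (Finset.mem_filter.1 hc).2).1 h5)
    rw [h4]

/-- the nonzero rows and the transversal -/
theorem Graph_image (hi : ∀ i, ¬ I i i) (hs : ∀ i j, I i j → I j i) {S : Finset (Fin n)}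
    (hS : Transversal I S) : (rows (Graph_R I e)).erase 0 = S.image (row (Graph_R I e)) := by
  classical
  ext v
  unfold rows
  rw [Finset.mem_erase, Finset.mem_image, Finset.mem_image]
  constructor
  · rintro ⟨h1, i, -, rfl⟩
    obtain ⟨s, hs1, hs2⟩ := hS.2.2 i ((Graph_ne i).1 h1)
    exact ⟨s, hs1, ((Graph_row hi hs i s).2 hs2).symm⟩
  · rintro ⟨i, h1, rfl⟩
    exact ⟨(Graph_ne i).2 (hS.1 i h1), i, Finset.mem_univ _, rfl⟩

theorem Graph_inj (hi : ∀ i, ¬ I i i) (hs : ∀ i j, I i j → I j i) {S : Finset (Fin n)}
    (hS : Transversal I S) : Set.InjOn (row (Graph_R I e)) (S : Set (Fin n)) :=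
  fun i h1 j h2 h => hS.2.1 i h1 j h2 ((Graph_row hi hs i j).1 h)

/-- **The dictionary.** The rows of the classes in `S` which are not in `J` span all rows if and only if
the classes of `J` contain no nonempty even set. -/
theorem Graph_dict (D : GaussDiagram n) (hi : ∀ i, ¬ I i i) (hs : ∀ i j, I i j → I j i)
    (hR : D.Cut (cutState I e) = Graph_R I e) {S : Finset (Fin n)} (hS : Transversal I S)
    {J : Finset (Fin n)} (hJ : J ⊆ S) :
    (∀ i, D.gmat (cutState I e) i ∈ span (ZMod 2) (D.gmat (cutState I e) ''
      ((S \ J : Finset (Fin n)) : Set (Fin n)))) ↔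
    ∀ Z : Finset (Fin n), (∀ c ∈ Z, ∃ i ∈ J, Twins I c i) →
      D.IsEven (cutState I e) Z → Z = ∅ := by
  classical
  obtain ⟨σ, hσ⟩ : ∃ σ, σ = cutState I e := ⟨_, rfl⟩
  rw [← hσ] at hR ⊢
  have hrow : ∀ c, row (Graph_R I e) c = D.gmat σ c := fun c => by
    rw [← hR]
    exact row_eq D σ c
  have htw : ∀ i j, Twins I i j → ∀ y, (D.gmat σ).mulVec y i = (D.gmat σ).mulVec y j := by
    intro i j hij y
    have h1 : D.gmat σ i = D.gmat σ j := by
      rw [← hrow, ← hrow]
      exact (Graph_row hi hs i j).2 hij
    show D.gmat σ i ⬝ᵥ y = D.gmat σ j ⬝ᵥ y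
    rw [h1]
  have heven : ∀ Z : Finset (Fin n), D.IsEven σ Z ↔
      ∃ y, (D.gmat σ).mulVec y = fun c => if c ∈ Z then 1 else 0 := by
    intro Z
    rw [Graph_mem]
    have h1 := Graph_even (D.Join σ) (fun c => (D.overPass c).castSucc)
      (fun c => (D.overPass c).succ) Z
    have h2 : D.IsEven σ Z ↔ ∀ q : Quot (D.Join σ),
        Even ((Z.filter fun c => Quot.mk (D.Join σ) (D.overPass c).castSucc = q).card +
        (Z.filter fun c => Quot.mk (D.Join σ) (D.overPass c).succ = q).card) := by
      unfold GaussDiagram.IsEven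
      refine forall_congr' fun q => ?_
      have h3 : ∀ (f : Fin n → Quot (D.Join σ)) (i1 i2 : DecidablePred fun c => f c = q),
          (@Finset.filter _ (fun c => f c = q) i1 Z).card =
            (@Finset.filter _ (fun c => f c = q) i2 Z).card := by
        intro f i1 i2
        have h4 : i1 = i2 := Subsingleton.elim _ _
        rw [h4]
      rw [h3 (fun c => D.end₁ σ c) _ (fun c => Classical.propDecidable _),
        h3 (fun c => D.end₂ σ c) _ (fun c => Classical.propDecidable _),
        h3 (fun c => Quot.mk (D.Join σ) (D.overPass c).castSucc) _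
          (fun c => Classical.propDecidable _),
        h3 (fun c => Quot.mk (D.Join σ) (D.overPass c).succ) _
          (fun c => Classical.propDecidable _)]
      exact Iff.rfl
    rw [h2]
    have h4 : ∀ φ : Fin (2 * n + 1) → ZMod 2,
        ∑ c, (if c ∈ Z then (1 : ZMod 2) else 0) *
          (φ (D.overPass c).castSucc + φ (D.overPass c).succ) =
        ∑ c ∈ Z, (φ (D.overPass c).castSucc + φ (D.overPass c).succ) := by
      intro φ
      simp only [ite_mul, one_mul, zero_mul]
      rw [← Finset.sum_filter]
      refine Finset.sum_congr ?_ fun _ _ => rfl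
      ext c
      simp
    simp only [h4]
    exact h1
  rw [Graph_span]
  constructor
  · intro h Z hZJ hZ
    obtain ⟨y, hy⟩ := (heven Z).1 hZ
    have h1 := h y (fun i hi' => by
      rw [Finset.mem_coe, Finset.mem_sdiff] at hi'
      rw [hy]
      refine if_neg ?_
      intro hiZ
      obtain ⟨j, hj, hij⟩ := hZJ i hiZ
      have h2 := hS.2.1 i hi'.1 j (hJ hj) hij
      rw [h2] at hi'
      exact hi'.2 hj)
    rw [hy] at h1
    by_contra hne
    obtain ⟨c, hc⟩ := Finset.nonempty_iff_ne_empty.2 hne
    have h2 := congrFun h1 c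
    rw [if_pos hc] at h2
    exact one_ne_zero h2
  · intro h y hy
    obtain ⟨z, hz⟩ : ∃ z, z = (D.gmat σ).mulVec y := ⟨_, rfl⟩
    have h1 : z = fun c => if c ∈ Finset.univ.filter (fun c => z c ≠ 0) then 1 else 0 := by
      funext c
      by_cases hc : z c = 0
      · rw [if_neg (by simp [hc]), hc]
      · rw [if_pos (by simp [hc])]
        have key : ∀ t : ZMod 2, t ≠ 0 → t = 1 := by decide
        exact key _ hc
    have h2 := h (Finset.univ.filter fun c => z c ≠ 0) (fun c hc => by
      have hc0 : z c ≠ 0 := (Finset.mem_filter.1 hc).2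
      have h3 : ∃ j, I c j := by
        rw [← Graph_ne (e := e), hrow]
        intro h4
        apply hc0
        rw [hz]
        show D.gmat σ c ⬝ᵥ y = 0
        rw [h4, zero_dotProduct]
      obtain ⟨s, hs1, hs2⟩ := hS.2.2 c h3
      refine ⟨s, ?_, hs2⟩
      by_contra hsJ
      apply hc0
      rw [hz, htw c s hs2 y]
      exact hy s (Finset.mem_coe.2 (Finset.mem_sdiff.2 ⟨hs1, hsJ⟩))) ((heven _).2 ⟨y, by
        rw [← hz]
        exact h1⟩)
    rw [← hz]
    funext c
    by_contra hc
    have h3 : c ∈ Finset.univ.filter fun c => z c ≠ 0 :=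
      Finset.mem_filter.2 ⟨Finset.mem_univ _, hc⟩
    rw [h2] at h3
    exact absurd h3 (Finset.notMem_empty c)

end

/-! ### knotoid diagrams -/

/-- The graph of a knotoid diagram: the vertices are the components of the state which cuts all twist
regions, the edges are the crossings. The twist classes of the crossings in `J` contain a cycle: there
is a nonempty set `Z` of crossings of these classes with an even number of ends at every vertex. -/
def HasCycleO (D : GaussDiagram n) (J : Finset (Fin n)) : Prop :=
  ∃ Z : Finset (Fin n), Z.Nonempty ∧ (∀ c ∈ Z, ∃ i ∈ J, Twins D.Interlaced c i) ∧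
    D.IsEven (cutState D.Interlaced D.sign) Z

theorem Graph_irrefl (D : GaussDiagram n) (i : Fin n) : ¬ D.Interlaced i i := by
  unfold GaussDiagram.Interlaced GaussDiagram.Inside
  simp

theorem Graph_int_symm (D : GaussDiagram n) (i j : Fin n) (h : D.Interlaced i j) :
    D.Interlaced j i := by
  have h1 : D.Cut D.sign i j := Or.inl h
  rw [UNI.cut_iff, D.gmat_symm, ← UNI.cut_iff] at h1
  rcases h1 with h1 | ⟨-, h1⟩
  · exact h1
  · exact absurd rfl h1

/-- the rows outside `J` span if and only if `J` contains no cycle -/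
theorem knotoid_dict (D : GaussDiagram n) {S : Finset (Fin n)} (hS : Transversal D.Interlaced S)
    {J : Finset (Fin n)} (hJ : J ⊆ S) :
    (∀ i, row (D.Cut (cutState D.Interlaced D.sign)) i ∈ span (ZMod 2)
      (row (D.Cut (cutState D.Interlaced D.sign)) '' ((S \ J : Finset (Fin n)) : Set (Fin n)))) ↔
    ¬ HasCycleO D J := by
  have h1 := Graph_dict D (Graph_irrefl D) (Graph_int_symm D) rfl hS hJ
  have h2 : row (D.Cut (cutState D.Interlaced D.sign)) =
      fun c => D.gmat (cutState D.Interlaced D.sign) c :=
    funext fun c => row_eq D _ c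
  rw [h2]
  refine h1.trans ?_
  unfold HasCycleO
  constructor
  · rintro h ⟨Z, hZ, hZJ, hZe⟩
    exact hZ.ne_empty (h Z hZJ hZe)
  · intro h Z hZJ hZe
    by_contra hne
    exact h ⟨Z, Finset.nonempty_iff_ne_empty.2 hne, hZJ, hZe⟩

/-! ### knot diagrams -/

open Classical in
/-- The state which cuts all twist regions: its smoothing at the crossing `i` respects the
orientation if and only if `i` is not interlaced with another crossing of its class. -/
noncomputable def cutAll (I : Fin n → Fin n → Prop) : Fin n → Bool := fun i =>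
  if ∃ j, Twins I i j ∧ I i j then false else true

open Classical in
/-- The graph of a knot diagram: the vertices are the closed curves of the state which cuts all twist
regions, the edges are the crossings; the crossing `c` joins the curve through the edge which arrives
at its passage `(c, true)` to the curve through the edge which leaves this passage. The twist classes
of the crossings in `J` contain a cycle: there is a nonempty set `Z` of crossings of these classes
with an even number of ends at every vertex. -/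
def HasCycle (g : GaussJones.Code n) (J : Finset (Fin n)) : Prop :=
  ∃ Z : Finset (Fin n), Z.Nonempty ∧ (∀ c ∈ Z, ∃ i ∈ J, Twins (GaussJones.Interlaced g) c i) ∧
    ∀ q : Quot (GaussJones.Joined g (cutAll (GaussJones.Interlaced g))),
      Even ((Z.filter fun c => Quot.mk _ (GaussJones.inEdge g (c, true)) = q).card +
        (Z.filter fun c => Quot.mk _ (GaussJones.outEdge g (c, true)) = q).card)

open Classical in
theorem Graph_closed (hn : 0 < n) (g : GaussJones.Code n) (e s : Fin n → Bool)
    (Z : Finset (Fin n)) : (UNI.cutOpen g e).IsEven s Z ↔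
    ∀ q : Quot (GaussJones.Joined g fun i => s i == e i),
      Even ((Z.filter fun c => Quot.mk _ (GaussJones.inEdge g (c, true)) = q).card +
        (Z.filter fun c => Quot.mk _ (GaussJones.outEdge g (c, true)) = q).card) := by
  have hn2 : 0 < 2 * n := by omega
  have h1 := Graph_even (GaussJones.Joined g fun i => s i == e i)
    (fun c => GaussJones.inEdge g (c, true)) (fun c => GaussJones.outEdge g (c, true)) Z
  have h2 := Graph_even ((UNI.cutOpen g e).Join s)
    (fun c => ((UNI.cutOpen g e).overPass c).castSucc)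
    (fun c => ((UNI.cutOpen g e).overPass c).succ) Z
  have h3 : (UNI.cutOpen g e).IsEven s Z ↔ ∀ q : Quot ((UNI.cutOpen g e).Join s),
      Even ((Z.filter fun c => Quot.mk ((UNI.cutOpen g e).Join s)
        ((UNI.cutOpen g e).overPass c).castSucc = q).card +
      (Z.filter fun c => Quot.mk ((UNI.cutOpen g e).Join s)
        ((UNI.cutOpen g e).overPass c).succ = q).card) := Iff.rfl
  rw [h3]
  refine h2.trans (Iff.trans ?_ h1.symm)
  rw [UNI.compat_closed hn2 g e s]
  constructor
  · intro h φ hφ
    have h4 := h (UNI.pull n hn2 φ) ⟨φ, hφ, rfl⟩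
    refine Eq.trans (Finset.sum_congr rfl fun c _ => ?_) h4
    rw [UNI.pull_castSucc, UNI.pull_succ]
    rfl
  · rintro h _ ⟨φ, hφ, rfl⟩
    refine Eq.trans (Finset.sum_congr rfl fun c _ => ?_) (h φ hφ)
    rw [UNI.pull_castSucc, UNI.pull_succ]
    rfl

/-- the rows outside `J` span if and only if `J` contains no cycle -/
theorem knot_dict (g : GaussJones.Code n) (e : Fin n → Bool) {S : Finset (Fin n)}
    (hS : Transversal (GaussJones.Interlaced g) S) {J : Finset (Fin n)} (hJ : J ⊆ S) :
    (∀ i, row (GaussJones.Cut g e (cutState (GaussJones.Interlaced g) e)) i ∈ span (ZMod 2)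
      (row (GaussJones.Cut g e (cutState (GaussJones.Interlaced g) e)) ''
        ((S \ J : Finset (Fin n)) : Set (Fin n)))) ↔ ¬ HasCycle g J := by
  classical
  rcases Nat.eq_zero_or_pos n with hn | hn
  · subst hn
    constructor
    · rintro - ⟨Z, ⟨c, -⟩, -⟩
      exact c.elim0
    · intro _ i
      exact i.elim0
  have hi : ∀ i, ¬ GaussJones.Interlaced g i i := by
    intro i h
    rcases h with h | h <;> exact lt_irrefl _ h.1
  have hs : ∀ i j, GaussJones.Interlaced g i j → GaussJones.Interlaced g j i :=
    fun i j h => h.symm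
  have h0 : GaussJones.Cut g e (cutState (GaussJones.Interlaced g) e) =
      (UNI.cutOpen g e).Cut (cutState (GaussJones.Interlaced g) e) := by
    funext i j
    exact propext (UNI.cut_closed g e _ i j)
  have h1 := Graph_dict (UNI.cutOpen g e) (e := e) hi hs h0.symm hS hJ
  have h2 : row (GaussJones.Cut g e (cutState (GaussJones.Interlaced g) e)) =
      fun c => (UNI.cutOpen g e).gmat (cutState (GaussJones.Interlaced g) e) c := by
    rw [h0]
    exact funext fun c => row_eq _ _ c
  have h3 : (fun i => cutState (GaussJones.Interlaced g) e i == e i) =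
      cutAll (GaussJones.Interlaced g) := by
    funext i
    unfold cutState cutAll
    by_cases h : ∃ j, Twins (GaussJones.Interlaced g) i j ∧ GaussJones.Interlaced g i j
    · rw [if_pos h, if_pos h]
      cases e i <;> rfl
    · rw [if_neg h, if_neg h]
      cases e i <;> rfl
  rw [h2]
  refine h1.trans ?_
  unfold HasCycle
  rw [← h3]
  constructor
  · rintro h ⟨Z, hZ, hZJ, hZe⟩
    exact hZ.ne_empty (h Z hZJ ((Graph_closed hn g e _ Z).2 hZe))
  · intro h Z hZJ hZe
    by_contra hne
    exact h ⟨Z, Finset.nonempty_iff_ne_empty.2 hne, hZJ, (Graph_closed hn g e _ Z).1 hZe⟩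

end Pool.Agent.FHP
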