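import Pool.Agent.FHP.StL

/-!
# FHP, module KRO: a one-sided theorem of Kronecker
-/

set_option autoImplicit false

open Finset

namespace Pool.Agent.FHP

private theorem KRO_abs (K : ℕ) (u : ℂ) (hu : ‖u‖ = 1) :
    (((‖1 + u‖ ^ 2) ^ K : ℝ) : ℂ) =
      ∑ m ∈ range (2 * K + 1), ((2 * K).choose m : ℂ) * u ^ ((m : ℤ) - K) := by
  have h0 : u ≠ 0 := by
    rintro rfl
    rw [norm_zero] at hu
    exact zero_ne_one hu
  have h1 : ((‖1 + u‖ ^ 2 : ℝ) : ℂ) = u⁻¹ * (u + 1) ^ 2 := by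
    rw [Complex.ofReal_pow, ← Complex.mul_conj', map_add, map_one, ← Complex.inv_eq_conj hu]
    field_simp
    ring
  rw [Complex.ofReal_pow, h1, mul_pow, ← pow_mul, add_pow, Finset.mul_sum]
  refine Finset.sum_congr rfl fun m _ => ?_
  rw [zpow_sub₀ h0, zpow_natCast, zpow_natCast, one_pow, inv_pow]
  ring

private theorem KRO_zsum {κ : Type} (S : Finset κ) (z : ℂ) (hz : z ≠ 0) (f : κ → ℤ) :
    ∏ j ∈ S, z ^ f j = z ^ (∑ j ∈ S, f j) := by
  classical
  induction S using Finset.induction_on with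
  | empty => simp
  | insert a S ha ih => rw [Finset.prod_insert ha, Finset.sum_insert ha, ih, zpow_add₀ hz]

private theorem KRO_avg {N : ℕ} {ζ : ℂ} (hζ : IsPrimitiveRoot ζ N) (e : ℤ) :
    ∑ r ∈ range N, (ζ ^ r) ^ e = if (N : ℤ) ∣ e then (N : ℂ) else 0 := by
  have h1 : ∀ r : ℕ, (ζ ^ r) ^ e = (ζ ^ e) ^ r := by
    intro r
    rw [← zpow_natCast ζ r, ← zpow_natCast (ζ ^ e) r, ← zpow_mul, ← zpow_mul, mul_comm]
  simp only [h1]
  by_cases h : (N : ℤ) ∣ e
  · rw [if_pos h, (hζ.zpow_eq_one_iff_dvd e).2 h]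
    simp
  · rw [if_neg h]
    have h2 : ζ ^ e ≠ 1 := fun h3 => h ((hζ.zpow_eq_one_iff_dvd e).1 h3)
    have h3 := mul_geom_sum (ζ ^ e) N
    have h4 : (ζ ^ e) ^ N = 1 := by
      rw [← zpow_natCast, ← zpow_mul, mul_comm, zpow_mul, zpow_natCast, hζ.pow_eq_one, one_zpow]
    rw [h4, sub_self] at h3
    exact (mul_eq_zero.1 h3).resolve_left (sub_ne_zero.2 h2)

private theorem KRO_expand {κ : Type} [Fintype κ] [DecidableEq κ] (K : ℕ) (s : κ → ℝ) (c : κ → ℤ)
    (hs : ∀ j, s j = 1 ∨ s j = -1) (z : ℂ) (hz : ‖z‖ = 1) :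
    ((∏ j, (‖1 + (s j : ℂ) * z ^ (c j)‖ ^ 2) ^ K : ℝ) : ℂ) =
      ∑ p ∈ Fintype.piFinset (fun _ : κ => range (2 * K + 1)),
        ((∏ j, (((2 * K).choose (p j) : ℝ) * s j ^ ((p j : ℤ) - K)) : ℝ) : ℂ) *
          z ^ (∑ j, c j * ((p j : ℤ) - K)) := by
  have h0 : z ≠ 0 := by
    rintro rfl
    rw [norm_zero] at hz
    exact zero_ne_one hz
  have hn : ∀ j, ‖(s j : ℂ) * z ^ (c j)‖ = 1 := by
    intro j
    rw [norm_mul, norm_zpow, hz, one_zpow, mul_one, Complex.norm_real]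
    rcases hs j with h | h <;> rw [h] <;> simp
  rw [Complex.ofReal_prod, Finset.prod_congr rfl fun j _ => KRO_abs K _ (hn j),
    Finset.prod_univ_sum]
  refine Finset.sum_congr rfl fun p _ => ?_
  rw [← KRO_zsum _ z h0, Complex.ofReal_prod, ← Finset.prod_mul_distrib]
  refine Finset.prod_congr rfl fun j _ => ?_
  rw [mul_zpow, ← zpow_mul]
  push_cast
  ring

private theorem KRO_main {κ : Type} [Fintype κ] (K : ℕ) (s : κ → ℝ) (c : κ → ℤ)
    (hs : ∀ j, s j = 1 ∨ s j = -1)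
    (h : ∀ p : κ → ℕ, (∀ j, p j < 2 * K + 1) → ∑ j, c j * ((p j : ℤ) - K) = 0 →
      ∏ j, s j ^ ((p j : ℤ) - K) = 1) :
    ∃ z : ℂ, ‖z‖ = 1 ∧
      ((2 * K).choose K : ℝ) ^ Fintype.card κ ≤ ∏ j, (‖1 + (s j : ℂ) * z ^ (c j)‖ ^ 2) ^ K := by
  classical
  set N : ℕ := K * (∑ j, (c j).natAbs) + 1 with hNdef
  have hN : N ≠ 0 := Nat.succ_ne_zero _
  set ζ : ℂ := Complex.exp (2 * Real.pi * Complex.I / N) with hζdef
  have hζ : IsPrimitiveRoot ζ N := Complex.isPrimitiveRoot_exp N hN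
  have hζn : ‖ζ‖ = 1 := hζ.norm'_eq_one hN
  have hzn : ∀ r : ℕ, ‖ζ ^ r‖ = 1 := fun r => by rw [norm_pow, hζn, one_pow]
  set G : ℂ → ℝ := fun z => ∏ j, (‖1 + (s j : ℂ) * z ^ (c j)‖ ^ 2) ^ K with hG
  set P := Fintype.piFinset (fun _ : κ => range (2 * K + 1)) with hP
  set a : (κ → ℕ) → ℝ := fun p => ∏ j, (((2 * K).choose (p j) : ℝ) * s j ^ ((p j : ℤ) - K))
    with ha
  set e : (κ → ℕ) → ℤ := fun p => ∑ j, c j * ((p j : ℤ) - K) with he
  have hPm : ∀ p ∈ P, ∀ j, p j < 2 * K + 1 := fun p hp j =>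
    Finset.mem_range.1 (Fintype.mem_piFinset.1 hp j)
  have hediv : ∀ p ∈ P, ((N : ℤ) ∣ e p ↔ e p = 0) := by
    intro p hp
    refine ⟨fun h1 => ?_, fun h1 => by rw [h1]; exact dvd_zero _⟩
    refine Int.eq_zero_of_abs_lt_dvd h1 ?_
    have h2 : |e p| ≤ ∑ j, |c j| * (K : ℤ) := by
      refine (Finset.abs_sum_le_sum_abs _ _).trans (Finset.sum_le_sum fun j _ => ?_)
      rw [abs_mul]
      refine mul_le_mul_of_nonneg_left ?_ (abs_nonneg _)
      have := hPm p hp j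
      rw [abs_le]
      constructor <;> omega
    rw [← Finset.sum_mul] at h2
    have h3 : (N : ℤ) = K * (∑ j, |c j|) + 1 := by
      rw [hNdef]
      push_cast
      rfl
    rw [h3, mul_comm]
    omega
  have hsum : ∑ r ∈ range N, G (ζ ^ r) = ∑ p ∈ P, if e p = 0 then a p * N else 0 := by
    apply Complex.ofReal_injective
    rw [Complex.ofReal_sum, Finset.sum_congr rfl fun r _ => KRO_expand K s c hs _ (hzn r),
      Finset.sum_comm, Complex.ofReal_sum]
    refine Finset.sum_congr rfl fun p hp => ?_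
    rw [← Finset.mul_sum, KRO_avg hζ]
    by_cases h1 : e p = 0
    · rw [if_pos ((hediv p hp).2 h1), if_pos h1]
      show ((a p : ℝ) : ℂ) * (N : ℂ) = ((a p * (N : ℝ) : ℝ) : ℂ)
      rw [Complex.ofReal_mul, Complex.ofReal_natCast]
    · rw [if_neg (fun h2 => h1 ((hediv p hp).1 h2)), if_neg h1, mul_zero, Complex.ofReal_zero]
  have hanon : ∀ p ∈ P, e p = 0 → 0 ≤ a p := by
    intro p hp h1
    rw [ha]
    show 0 ≤ ∏ j, (((2 * K).choose (p j) : ℝ) * s j ^ ((p j : ℤ) - K))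
    rw [Finset.prod_mul_distrib, h p (hPm p hp) h1, mul_one]
    exact Finset.prod_nonneg fun j _ => Nat.cast_nonneg _
  have hbig : ((2 * K).choose K : ℝ) ^ Fintype.card κ * N ≤ ∑ r ∈ range N, G (ζ ^ r) := by
    rw [hsum]
    have hK : (fun _ : κ => K) ∈ P := Fintype.mem_piFinset.2 fun _ => Finset.mem_range.2 (by omega)
    refine le_trans (le_of_eq ?_) (Finset.single_le_sum (f := fun p => if e p = 0 then a p * N else 0)
      (fun p hp => ?_) hK)
    · have h1 : e (fun _ : κ => K) = 0 := by simp [he]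
      show _ = if e (fun _ : κ => K) = 0 then a (fun _ : κ => K) * N else 0
      rw [if_pos h1]
      simp [ha]
    · show 0 ≤ if e p = 0 then a p * N else 0
      split_ifs with h1
      · exact mul_nonneg (hanon p hp h1) (Nat.cast_nonneg _)
      · exact le_rfl
  by_contra hcon
  push Not at hcon
  have h1 : ∑ r ∈ range N, G (ζ ^ r) < ∑ _r ∈ range N, ((2 * K).choose K : ℝ) ^ Fintype.card κ := by
    refine Finset.sum_lt_sum_of_nonempty ⟨0, Finset.mem_range.2 (Nat.pos_of_ne_zero hN)⟩ ?_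
    intro r _
    exact hcon _ (hzn r)
  rw [Finset.sum_const, Finset.card_range, nsmul_eq_mul, mul_comm] at h1
  exact absurd hbig (not_le.2 h1)

private theorem KRO_each {κ : Type} [Fintype κ] (K : ℕ) (s : κ → ℝ) (c : κ → ℤ)
    (hs : ∀ j, s j = 1 ∨ s j = -1)
    (h : ∀ p : κ → ℕ, (∀ j, p j < 2 * K + 1) → ∑ j, c j * ((p j : ℤ) - K) = 0 →
      ∏ j, s j ^ ((p j : ℤ) - K) = 1) :
    ∃ z : ℂ, ‖z‖ = 1 ∧ ∀ i,
      1 ≤ (2 * (K : ℝ) + 1) ^ Fintype.card κ * (‖1 + (s i : ℂ) * z ^ (c i)‖ ^ 2 / 4) ^ K := by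
  classical
  obtain ⟨z, hz, hG⟩ := KRO_main K s c hs h
  refine ⟨z, hz, fun i => ?_⟩
  have hle : ∀ j, ‖1 + (s j : ℂ) * z ^ (c j)‖ ^ 2 / 4 ≤ 1 := by
    intro j
    have h1 : ‖1 + (s j : ℂ) * z ^ (c j)‖ ≤ 2 := by
      refine (norm_add_le _ _).trans ?_
      rw [norm_one, norm_mul, norm_zpow, hz, one_zpow, mul_one, Complex.norm_real]
      rcases hs j with h2 | h2 <;> rw [h2] <;> norm_num
    have h2 : 0 ≤ ‖1 + (s j : ℂ) * z ^ (c j)‖ := norm_nonneg _
    nlinarith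
  have hnn : ∀ j, 0 ≤ ‖1 + (s j : ℂ) * z ^ (c j)‖ ^ 2 / 4 := fun j => by positivity
  have hprod : ∏ j, (‖1 + (s j : ℂ) * z ^ (c j)‖ ^ 2 / 4) ^ K ≤
      (‖1 + (s i : ℂ) * z ^ (c i)‖ ^ 2 / 4) ^ K := by
    rw [← Finset.mul_prod_erase Finset.univ _ (Finset.mem_univ i)]
    refine mul_le_of_le_one_right (pow_nonneg (hnn i) K) ?_
    exact Finset.prod_le_one (fun j _ => pow_nonneg (hnn j) K)
      fun j _ => pow_le_one₀ (hnn j) (hle j)
  have hcb : (4 : ℝ) ^ K ≤ (2 * K + 1) * ((2 * K).choose K : ℝ) := by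
    rcases Nat.eq_zero_or_pos K with rfl | hK
    · norm_num
    · have h3 := Nat.four_pow_le_two_mul_self_mul_centralBinom K hK
      have h4 : (4 : ℝ) ^ K ≤ 2 * K * (Nat.centralBinom K : ℝ) := by exact_mod_cast h3
      have h5 : (0 : ℝ) ≤ (Nat.centralBinom K : ℝ) := Nat.cast_nonneg _
      unfold Nat.centralBinom at h4 h5
      nlinarith
  have hlow : 1 ≤ (2 * (K : ℝ) + 1) ^ Fintype.card κ *
      ∏ j, (‖1 + (s j : ℂ) * z ^ (c j)‖ ^ 2 / 4) ^ K := by
    have h1 : ∏ j, (‖1 + (s j : ℂ) * z ^ (c j)‖ ^ 2 / 4) ^ K =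
        (∏ j, (‖1 + (s j : ℂ) * z ^ (c j)‖ ^ 2) ^ K) / (4 ^ K) ^ Fintype.card κ := by
      simp only [div_pow]
      rw [Finset.prod_div_distrib, Finset.prod_const, Finset.card_univ]
    rw [h1, mul_div_assoc', le_div_iff₀ (by positivity), one_mul]
    calc ((4 : ℝ) ^ K) ^ Fintype.card κ
        ≤ ((2 * K + 1) * ((2 * K).choose K : ℝ)) ^ Fintype.card κ :=
          pow_le_pow_left₀ (by positivity) hcb _
      _ = (2 * (K : ℝ) + 1) ^ Fintype.card κ * ((2 * K).choose K : ℝ) ^ Fintype.card κ := by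
          rw [mul_pow]
      _ ≤ _ := mul_le_mul_of_nonneg_left hG (by positivity)
  exact hlow.trans (mul_le_mul_of_nonneg_left hprod (by positivity))

/-- the statement in full -/
theorem KRO_thm (ι : Type) [Fintype ι] (K : ℕ) (c : ι → ℤ)
    (h : ∀ a : ι → ℤ, (∀ j, |a j| ≤ K) → Odd (∑ j, a j) → (K : ℤ) < |∑ j, a j * c j|) :
    ∃ z : ℂ, ‖z‖ = 1 ∧
      1 ≤ (2 * (K : ℝ) + 1) ^ (Fintype.card ι + 1) * (‖1 + z‖ ^ 2 / 4) ^ K ∧
      ∀ j, 1 ≤ (2 * (K : ℝ) + 1) ^ (Fintype.card ι + 1) * (‖1 - z ^ (c j)‖ ^ 2 / 4) ^ K := by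
  obtain ⟨z, hz, hi⟩ := KRO_each (κ := Option ι) K (fun o => o.elim 1 fun _ => -1)
    (fun o => o.elim 1 c) (by rintro (_ | j) <;> simp) (by
      intro p hp he
      rw [Fintype.sum_option] at he
      rw [Fintype.prod_option]
      simp only [Option.elim_none, Option.elim_some, one_mul, one_zpow] at he ⊢
      rw [show (∏ j, (-1 : ℝ) ^ ((p (some j) : ℤ) - K)) = (-1 : ℝ) ^ (∑ j, ((p (some j) : ℤ) - K))
        from ?_]
      · rcases Int.even_or_odd (∑ j, ((p (some j) : ℤ) - K)) with h1 | h1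
        · exact h1.neg_one_zpow
        · exfalso
          have h2 := h (fun j => (p (some j) : ℤ) - K) (fun j => ?_) h1
          · have h3 : ∑ j, ((p (some j) : ℤ) - K) * c j = -((p none : ℤ) - K) := by
              rw [← eq_neg_of_add_eq_zero_right he]
              exact Finset.sum_congr rfl fun j _ => mul_comm _ _
            have h4 := hp none
            rw [h3, abs_neg] at h2
            have h5 : |(p none : ℤ) - K| ≤ K := by
              rw [abs_le]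
              constructor <;> omega
            omega
          · have h4 := hp (some j)
            rw [abs_le]
            constructor <;> omega
      · classical
        have : ∀ S : Finset ι, ∏ j ∈ S, (-1 : ℝ) ^ ((p (some j) : ℤ) - K) =
            (-1 : ℝ) ^ (∑ j ∈ S, ((p (some j) : ℤ) - K)) := by
          intro S
          induction S using Finset.induction_on with
          | empty => simp
          | insert a S ha ih =>
            rw [Finset.prod_insert ha, Finset.sum_insert ha, ih, zpow_add₀ (by norm_num)]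
        exact this _)
  rw [Fintype.card_option] at hi
  refine ⟨z, hz, ?_, fun j => ?_⟩
  · have := hi none
    simpa using this
  · have := hi (some j)
    simpa [sub_eq_add_neg] using this

/-- **Module KRO** -/
theorem thm_KRO : St_KRO := fun ι _ K c h => KRO_thm ι K c h

end Pool.Agent.FHP
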