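import Mathlib

/-!
# Finite hyperplanes, module Kron: a one-sided theorem of Kronecker type (helper43)

If no relation `∑ a_j c_j` with small integers `a_j` whose sum is odd is small, then there is a small
`φ > 0` such that all `exp (i φ c_j)` are near `-1`.

Proof.  `F(φ) = ∏_v ((1 - cos (φ c_v)) / 2)^L` has the expansion
`∑_p ∏_v (-1)^(p_v + L) C(2L, p_v) / 4^L * cos (φ s_p)`, `s_p = ∑_v (p_v - L) c_v`, and
`∫_0^ε (ε - φ) cos (φ s) dφ = (1 - cos (s ε)) / s^2 ≥ 0`.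
-/

set_option autoImplicit false

open MeasureTheory

namespace Pool.Agent.FHP

/-- the weight integral -/
private noncomputable def KRO_I (ε s : ℝ) : ℝ := ∫ φ in (0 : ℝ)..ε, (ε - φ) * Real.cos (φ * s)

private theorem KRO_I_zero (ε : ℝ) : KRO_I ε 0 = ε ^ 2 / 2 := by
  unfold KRO_I
  have h1 : ∀ φ : ℝ, (ε - φ) * Real.cos (φ * 0) = ε - φ := by
    intro φ
    rw [mul_zero, Real.cos_zero, mul_one]
  simp only [h1]
  rw [intervalIntegral.integral_sub (by simp) (by simp), integral_id]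
  simp only [intervalIntegral.integral_const, smul_eq_mul]
  ring

private theorem KRO_I_ne (ε s : ℝ) (hs : s ≠ 0) :
    KRO_I ε s = (1 - Real.cos (ε * s)) / s ^ 2 := by
  unfold KRO_I
  have h1 : ∀ φ ∈ Set.uIcc 0 ε, HasDerivAt
      (fun φ : ℝ => (ε - φ) * (Real.sin (φ * s) / s) - Real.cos (φ * s) / s ^ 2)
      ((ε - φ) * Real.cos (φ * s)) φ := by
    intro φ _
    have e1 : HasDerivAt (fun φ : ℝ => φ * s) s φ := by
      simpa using (hasDerivAt_id φ).mul_const s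
    have e2 : HasDerivAt (fun φ : ℝ => Real.sin (φ * s) / s) (Real.cos (φ * s) * s / s) φ :=
      ((Real.hasDerivAt_sin _).comp φ e1).div_const s
    have e3 : HasDerivAt (fun φ : ℝ => Real.cos (φ * s) / s ^ 2)
        (-Real.sin (φ * s) * s / s ^ 2) φ :=
      ((Real.hasDerivAt_cos _).comp φ e1).div_const (s ^ 2)
    have e4 : HasDerivAt (fun φ : ℝ => ε - φ) (-1) φ := by
      simpa using (hasDerivAt_id φ).const_sub ε
    have e5 := (e4.mul e2).sub e3
    have e6 : -1 * (Real.sin (φ * s) / s) + (ε - φ) * (Real.cos (φ * s) * s / s) -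
        -Real.sin (φ * s) * s / s ^ 2 = (ε - φ) * Real.cos (φ * s) := by
      field_simp
      ring
    rw [e6] at e5
    exact e5
  rw [intervalIntegral.integral_eq_sub_of_hasDerivAt h1
    (Continuous.intervalIntegrable (by fun_prop) _ _)]
  simp only [sub_self, zero_mul, Real.cos_zero, Real.sin_zero, zero_div, mul_zero]
  field_simp
  ring

private theorem KRO_I_nonneg (ε s : ℝ) : 0 ≤ KRO_I ε s := by
  by_cases hs : s = 0
  · rw [hs, KRO_I_zero]
    positivity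
  · rw [KRO_I_ne ε s hs]
    exact div_nonneg (sub_nonneg.2 (Real.cos_le_one _)) (sq_nonneg _)

private theorem KRO_I_le (ε s K : ℝ) (hK : 0 < K) (hs : K ≤ |s|) : KRO_I ε s ≤ 2 / K ^ 2 := by
  have h0 : s ≠ 0 := by
    rintro rfl
    rw [abs_zero] at hs
    linarith
  rw [KRO_I_ne ε s h0]
  have h1 : 1 - Real.cos (ε * s) ≤ 2 := by linarith [Real.neg_one_le_cos (ε * s)]
  have h2 : K ^ 2 ≤ s ^ 2 := by
    rw [← sq_abs s]
    exact pow_le_pow_left₀ hK.le hs 2
  have h3 : 0 ≤ 1 - Real.cos (ε * s) := sub_nonneg.2 (Real.cos_le_one _)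
  exact div_le_div₀ (by norm_num) h1 (by positivity) h2

/-- the coefficients of `((1 - cos θ) / 2)^L` -/
private noncomputable def KRO_g (L m : ℕ) : ℝ := (-1) ^ (m + L) * ((2 * L).choose m : ℝ) / 4 ^ L

private theorem KRO_exp (L : ℕ) (θ : ℝ) :
    ((((1 - Real.cos θ) / 2) ^ L : ℝ) : ℂ) = ∑ m ∈ Finset.range (2 * L + 1),
      (KRO_g L m : ℂ) * Complex.exp (((((m : ℝ) - L) * θ : ℝ) : ℂ) * Complex.I) := by
  have h1 : Complex.exp ((θ : ℂ) * Complex.I) * Complex.exp (-(θ : ℂ) * Complex.I) = 1 := by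
    rw [← Complex.exp_add]
    have : (θ : ℂ) * Complex.I + -(θ : ℂ) * Complex.I = 0 := by ring
    rw [this, Complex.exp_zero]
  have h2 : Complex.cos (θ : ℂ) = (Complex.exp ((θ : ℂ) * Complex.I) +
      Complex.exp (-(θ : ℂ) * Complex.I)) / 2 := rfl
  have h3 : ((((1 - Real.cos θ) / 2) ^ L : ℝ) : ℂ) =
      (-Complex.exp (-(θ : ℂ) * Complex.I) / 4) ^ L *
        (1 + -Complex.exp ((θ : ℂ) * Complex.I)) ^ (2 * L) := by
    rw [pow_mul, ← mul_pow]
    push_cast
    rw [h2]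
    congr 1
    have h4 : -Complex.exp (-(θ : ℂ) * Complex.I) / 4 *
        (1 + -Complex.exp ((θ : ℂ) * Complex.I)) ^ 2 =
        (-Complex.exp (-(θ : ℂ) * Complex.I) + 2 * (Complex.exp ((θ : ℂ) * Complex.I) *
          Complex.exp (-(θ : ℂ) * Complex.I)) - Complex.exp ((θ : ℂ) * Complex.I) *
          (Complex.exp ((θ : ℂ) * Complex.I) * Complex.exp (-(θ : ℂ) * Complex.I))) / 4 := by
      ring
    rw [h4, h1]
    ring
  rw [h3, add_comm (1 : ℂ), add_pow, Finset.mul_sum]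
  refine Finset.sum_congr rfl fun m _ => ?_
  have h5 : Complex.exp (((((m : ℝ) - L) * θ : ℝ) : ℂ) * Complex.I) =
      Complex.exp ((θ : ℂ) * Complex.I) ^ m * Complex.exp (-(θ : ℂ) * Complex.I) ^ L := by
    rw [← Complex.exp_nat_mul, ← Complex.exp_nat_mul, ← Complex.exp_add]
    congr 1
    push_cast
    ring
  rw [h5, one_pow, mul_one, div_pow, neg_pow, neg_pow (Complex.exp ((θ : ℂ) * Complex.I)) m]
  unfold KRO_g
  push_cast
  rw [pow_add]
  ring

section

variable {ι : Type} [Fintype ι] [DecidableEq ι]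

/-- the frequencies -/
private noncomputable def KRO_s (L : ℕ) (c : ι → ℝ) (p : ι → ℕ) : ℝ := ∑ v, ((p v : ℝ) - L) * c v

private theorem KRO_F (L : ℕ) (c : ι → ℝ) (φ : ℝ) :
    ∏ v, ((1 - Real.cos (φ * c v)) / 2) ^ L =
      ∑ p ∈ Fintype.piFinset (fun _ : ι => Finset.range (2 * L + 1)),
        (∏ v, KRO_g L (p v)) * Real.cos (φ * KRO_s L c p) := by
  have h1 : ((∏ v, ((1 - Real.cos (φ * c v)) / 2) ^ L : ℝ) : ℂ) =
      ∑ p ∈ Fintype.piFinset (fun _ : ι => Finset.range (2 * L + 1)),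
        ((∏ v, KRO_g L (p v) : ℝ) : ℂ) *
          Complex.exp (((φ * KRO_s L c p : ℝ) : ℂ) * Complex.I) := by
    rw [Complex.ofReal_prod, Finset.prod_congr rfl fun v _ => KRO_exp L (φ * c v),
      Finset.prod_univ_sum]
    refine Finset.sum_congr rfl fun p _ => ?_
    rw [Finset.prod_mul_distrib, ← Complex.exp_sum, Complex.ofReal_prod]
    congr 2
    rw [← Finset.sum_mul]
    congr 1
    unfold KRO_s
    rw [Finset.mul_sum]
    push_cast
    refine Finset.sum_congr rfl fun v _ => ?_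
    ring
  have h2 := congrArg Complex.re h1
  rw [Complex.ofReal_re, Complex.re_sum] at h2
  rw [h2]
  refine Finset.sum_congr rfl fun p _ => ?_
  rw [Complex.re_ofReal_mul, Complex.exp_ofReal_mul_I_re]

private theorem KRO_sum_abs (L : ℕ) :
    ∑ p ∈ Fintype.piFinset (fun _ : ι => Finset.range (2 * L + 1)), |∏ v, KRO_g L (p v)| = 1 := by
  have h1 : ∀ p : ι → ℕ, |∏ v, KRO_g L (p v)| = ∏ v, (((2 * L).choose (p v) : ℝ) / 4 ^ L) := by
    intro p
    rw [Finset.abs_prod]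
    refine Finset.prod_congr rfl fun v _ => ?_
    unfold KRO_g
    rw [abs_div, abs_mul, abs_pow, abs_neg, abs_one, one_pow, one_mul, abs_of_nonneg (by positivity),
      abs_of_nonneg (by positivity)]
  simp only [h1]
  rw [← Finset.prod_univ_sum (fun _ : ι => Finset.range (2 * L + 1))
    (fun _ m => (((2 * L).choose m : ℝ) / 4 ^ L))]
  refine Finset.prod_eq_one fun v _ => ?_
  rw [← Finset.sum_div]
  have h2 : (∑ m ∈ Finset.range (2 * L + 1), ((2 * L).choose m : ℝ)) = 4 ^ L := by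
    have h3 := Nat.sum_range_choose (2 * L)
    have h4 : ((∑ m ∈ Finset.range (2 * L + 1), (2 * L).choose m : ℕ) : ℝ) = ((2 ^ (2 * L) : ℕ) : ℝ) :=
      by rw [h3]
    push_cast at h4
    rw [h4, pow_mul]
    norm_num
  rw [h2, div_self (by positivity)]

private theorem KRO_g_L (L : ℕ) : 1 / (2 * (L : ℝ) + 1) ≤ KRO_g L L := by
  unfold KRO_g
  have h1 : (-1 : ℝ) ^ (L + L) = 1 := Even.neg_one_pow ⟨L, rfl⟩
  rw [h1, one_mul]
  have h2 : (4 : ℝ) ^ L ≤ (2 * L + 1) * ((2 * L).choose L : ℝ) := by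
    rcases Nat.eq_zero_or_pos L with rfl | hL
    · norm_num
    · have h3 := Nat.four_pow_le_two_mul_self_mul_centralBinom L hL
      have h4 : (4 : ℝ) ^ L ≤ 2 * L * (Nat.centralBinom L : ℝ) := by exact_mod_cast h3
      have h5 : (0 : ℝ) ≤ (Nat.centralBinom L : ℝ) := Nat.cast_nonneg _
      unfold Nat.centralBinom at h4 h5
      nlinarith
  rw [div_le_div_iff₀ (by positivity) (by positivity), one_mul, mul_comm]
  exact h2

/-- the weighted integral is large -/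
private theorem KRO_low (L : ℕ) (ε K : ℝ) (c : ι → ℝ) (hK : 0 < K)
    (hrel : ∀ a : ι → ℤ, (∀ j, |a j| ≤ L) → Odd (∑ j, a j) → K ≤ |∑ j, (a j : ℝ) * c j|) :
    (1 / (2 * (L : ℝ) + 1)) ^ Fintype.card ι * (ε ^ 2 / 2) - 2 / K ^ 2 ≤
      ∑ p ∈ Fintype.piFinset (fun _ : ι => Finset.range (2 * L + 1)),
        (∏ v, KRO_g L (p v)) * KRO_I ε (KRO_s L c p) := by
  have key : ∀ p ∈ Fintype.piFinset (fun _ : ι => Finset.range (2 * L + 1)),
      (if p = fun _ => L then (1 / (2 * (L : ℝ) + 1)) ^ Fintype.card ι * (ε ^ 2 / 2) else 0) -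
        |∏ v, KRO_g L (p v)| * (2 / K ^ 2) ≤ (∏ v, KRO_g L (p v)) * KRO_I ε (KRO_s L c p) := by
    intro p hp
    have hI := KRO_I_nonneg ε (KRO_s L c p)
    by_cases h0 : p = fun _ => L
    · rw [if_pos h0, h0]
      have h1 : KRO_s L c (fun _ => L) = 0 := by
        unfold KRO_s
        simp
      rw [h1, KRO_I_zero, Finset.prod_const, Finset.card_univ]
      have h2 : (1 / (2 * (L : ℝ) + 1)) ^ Fintype.card ι ≤ KRO_g L L ^ Fintype.card ι :=
        pow_le_pow_left₀ (by positivity) (KRO_g_L L) _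
      have h3 : 0 ≤ |KRO_g L L ^ Fintype.card ι| * (2 / K ^ 2) := by positivity
      have h4 := mul_le_mul_of_nonneg_right h2 (by positivity : (0 : ℝ) ≤ ε ^ 2 / 2)
      linarith
    · rw [if_neg h0, zero_sub]
      have h1 : (∏ v, KRO_g L (p v)) =
          (-1) ^ (∑ v, (p v + L)) * ∏ v, (((2 * L).choose (p v) : ℝ) / 4 ^ L) := by
        rw [← Finset.prod_pow_eq_pow_sum, ← Finset.prod_mul_distrib]
        refine Finset.prod_congr rfl fun v _ => ?_
        unfold KRO_g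
        ring
      have h2 : 0 ≤ ∏ v, (((2 * L).choose (p v) : ℝ) / 4 ^ L) :=
        Finset.prod_nonneg fun v _ => by positivity
      rcases Nat.even_or_odd (∑ v, (p v + L)) with he | ho
      · rw [h1, he.neg_one_pow, one_mul]
        have h3 : 0 ≤ |∏ v, (((2 * L).choose (p v) : ℝ) / 4 ^ L)| * (2 / K ^ 2) := by positivity
        have h4 := mul_nonneg h2 hI
        linarith
      · rw [h1, ho.neg_one_pow, abs_mul, abs_neg, abs_one, one_mul, abs_of_nonneg h2, neg_mul,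
          neg_mul, one_mul, neg_le_neg_iff]
        refine mul_le_mul_of_nonneg_left ?_ h2
        refine KRO_I_le ε _ K hK ?_
        have h3 := hrel (fun v => (p v : ℤ) - L) (fun v => ?_) ?_
        · unfold KRO_s
          push_cast at h3
          exact h3
        · have h4 : p v < 2 * L + 1 := Finset.mem_range.1 (Fintype.mem_piFinset.1 hp v)
          rw [abs_le]
          constructor <;> omega
        · have h5 : (∑ v, ((p v : ℤ) - L)) = ((∑ v, (p v + L) : ℕ) : ℤ) -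
              2 * (Fintype.card ι * L) := by
            push_cast
            rw [Finset.sum_sub_distrib, Finset.sum_add_distrib]
            simp only [Finset.sum_const, Finset.card_univ, nsmul_eq_mul]
            ring
          rw [h5]
          have h6 : Odd ((∑ v, (p v + L) : ℕ) : ℤ) := by exact_mod_cast ho
          exact h6.sub_even ⟨Fintype.card ι * L, by ring⟩
  have h1 := Finset.sum_le_sum key
  rw [Finset.sum_sub_distrib, ← Finset.sum_mul, KRO_sum_abs, one_mul, Finset.sum_ite_eq'] at h1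
  rw [if_pos (Fintype.mem_piFinset.2 fun _ => Finset.mem_range.2 (by omega))] at h1
  exact h1

private theorem KRO_int (L : ℕ) (ε : ℝ) (c : ι → ℝ) :
    ∫ φ in (0 : ℝ)..ε, (ε - φ) * ∏ v, ((1 - Real.cos (φ * c v)) / 2) ^ L =
      ∑ p ∈ Fintype.piFinset (fun _ : ι => Finset.range (2 * L + 1)),
        (∏ v, KRO_g L (p v)) * KRO_I ε (KRO_s L c p) := by
  have h1 : ∀ φ : ℝ, (ε - φ) * ∏ v, ((1 - Real.cos (φ * c v)) / 2) ^ L =
      ∑ p ∈ Fintype.piFinset (fun _ : ι => Finset.range (2 * L + 1)),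
        (∏ v, KRO_g L (p v)) * ((ε - φ) * Real.cos (φ * KRO_s L c p)) := by
    intro φ
    rw [KRO_F, Finset.mul_sum]
    refine Finset.sum_congr rfl fun p _ => ?_
    ring
  simp only [h1]
  rw [intervalIntegral.integral_finsetSum fun p _ =>
    Continuous.intervalIntegrable (by fun_prop) _ _]
  refine Finset.sum_congr rfl fun p _ => ?_
  rw [intervalIntegral.integral_const_mul]
  rfl

/-- A one-sided theorem of Kronecker type: if no integer relation with coefficients at most `L` in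
absolute value and with odd sum of the coefficients is smaller than `K`, then for some small
`φ > 0` all the numbers `exp (i φ c_v)` are near `-1`. -/
theorem kron (L : ℕ) (η ε K : ℝ) (c : ι → ℝ) (hη : 0 ≤ η) (hε : 0 < ε) (hK : 0 < K)
    (hL : (1 - η ^ 2 / 4) ^ L + 4 / (K * ε) ^ 2 < (1 / (2 * (L : ℝ) + 1)) ^ Fintype.card ι)
    (hrel : ∀ a : ι → ℤ, (∀ j, |a j| ≤ L) → Odd (∑ j, a j) → K ≤ |∑ j, (a j : ℝ) * c j|) :
    ∃ φ : ℝ, 0 < φ ∧ φ < ε ∧ ∀ v, ‖Complex.exp (((φ * c v : ℝ) : ℂ) * Complex.I) + 1‖ ≤ η := by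
  by_contra hcon
  push Not at hcon
  have h1 : ∀ φ ∈ Set.Ioo 0 ε, (ε - φ) * ∏ v, ((1 - Real.cos (φ * c v)) / 2) ^ L ≤
      (ε - φ) * (1 - η ^ 2 / 4) ^ L := by
    intro φ hφ
    refine mul_le_mul_of_nonneg_left ?_ (sub_nonneg.2 hφ.2.le)
    obtain ⟨v, hv⟩ := hcon φ hφ.1 hφ.2
    rw [Finset.prod_pow]
    have hn : ∀ w, 0 ≤ (1 - Real.cos (φ * c w)) / 2 := fun w =>
      div_nonneg (sub_nonneg.2 (Real.cos_le_one _)) (by norm_num)
    have hl : ∀ w, (1 - Real.cos (φ * c w)) / 2 ≤ 1 := fun w => by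
      linarith [Real.neg_one_le_cos (φ * c w)]
    refine pow_le_pow_left₀ (Finset.prod_nonneg fun w _ => hn w) ?_ L
    have h2 : ∏ w, (1 - Real.cos (φ * c w)) / 2 ≤ (1 - Real.cos (φ * c v)) / 2 := by
      rw [← Finset.mul_prod_erase Finset.univ _ (Finset.mem_univ v)]
      refine mul_le_of_le_one_right (hn v) ?_
      exact Finset.prod_le_one (fun w _ => hn w) fun w _ => hl w
    refine h2.trans ?_
    have h3 : ‖Complex.exp (((φ * c v : ℝ) : ℂ) * Complex.I) + 1‖ ^ 2 =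
        2 + 2 * Real.cos (φ * c v) := by
      rw [← Complex.normSq_eq_norm_sq, Complex.normSq_apply, Complex.add_re, Complex.add_im,
        Complex.exp_ofReal_mul_I_re, Complex.exp_ofReal_mul_I_im, Complex.one_re, Complex.one_im]
      nlinarith [Real.sin_sq_add_cos_sq (φ * c v)]
    have h4 : η ^ 2 ≤ 2 + 2 * Real.cos (φ * c v) := by
      rw [← h3]
      exact pow_le_pow_left₀ hη hv.le 2
    linarith
  have h2 := intervalIntegral.integral_mono_on_of_le_Ioo (μ := volume)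
    (f := fun φ : ℝ => (ε - φ) * ∏ v, ((1 - Real.cos (φ * c v)) / 2) ^ L)
    (g := fun φ : ℝ => (ε - φ) * (1 - η ^ 2 / 4) ^ L) hε.le
    (Continuous.intervalIntegrable (by fun_prop) _ _)
    (Continuous.intervalIntegrable (by fun_prop) _ _) h1
  rw [KRO_int, intervalIntegral.integral_mul_const] at h2
  have h3 : ∫ φ in (0 : ℝ)..ε, (ε - φ) = ε ^ 2 / 2 := by
    have := KRO_I_zero ε
    unfold KRO_I at this
    simpa using this
  rw [h3] at h2
  have h4 := (KRO_low L ε K c hK hrel).trans h2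
  have h5 : 4 / (K * ε) ^ 2 * (ε ^ 2 / 2) = 2 / K ^ 2 := by
    field_simp
    ring
  have h6 : 0 < ε ^ 2 / 2 := by positivity
  have h7 := mul_lt_mul_of_pos_right hL h6
  rw [add_mul, h5] at h7
  linarith

/-- the hypothesis on the constants can be fulfilled -/
theorem kron_const (k : ℕ) (η ε : ℝ) (hη : 0 < η) (hη2 : η ≤ 2) (hε : 0 < ε) :
    ∃ (L : ℕ) (K : ℝ), (L : ℝ) ≤ K ∧ 0 < K ∧
      (1 - η ^ 2 / 4) ^ L + 4 / (K * ε) ^ 2 < (1 / (2 * (L : ℝ) + 1)) ^ k := by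
  have hr0 : 0 ≤ 1 - η ^ 2 / 4 := by nlinarith
  have hr1 : 1 - η ^ 2 / 4 < 1 := by nlinarith
  have h1 := tendsto_pow_const_mul_const_pow_of_lt_one k hr0 hr1
  have h2 : ∀ᶠ n : ℕ in Filter.atTop, (n : ℝ) ^ k * (1 - η ^ 2 / 4) ^ n < 1 / (2 * 3 ^ k) :=
    h1.eventually (gt_mem_nhds (by positivity))
  obtain ⟨L, hL, hL1⟩ := (h2.and (Filter.eventually_ge_atTop 1)).exists
  have hLr : (1 : ℝ) ≤ L := by exact_mod_cast hL1
  have h3 : (1 - η ^ 2 / 4) ^ L < 1 / 2 * (1 / (2 * (L : ℝ) + 1)) ^ k := by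
    have h4 : (2 * (L : ℝ) + 1) ^ k ≤ 3 ^ k * (L : ℝ) ^ k := by
      rw [← mul_pow]
      exact pow_le_pow_left₀ (by positivity) (by linarith) k
    have h5 : (2 * (L : ℝ) + 1) ^ k * (1 - η ^ 2 / 4) ^ L < 1 / 2 := by
      calc (2 * (L : ℝ) + 1) ^ k * (1 - η ^ 2 / 4) ^ L
          ≤ 3 ^ k * (L : ℝ) ^ k * (1 - η ^ 2 / 4) ^ L :=
            mul_le_mul_of_nonneg_right h4 (pow_nonneg hr0 L)
        _ = 3 ^ k * ((L : ℝ) ^ k * (1 - η ^ 2 / 4) ^ L) := by ring
        _ < 3 ^ k * (1 / (2 * 3 ^ k)) := mul_lt_mul_of_pos_left hL (by positivity)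
        _ = 1 / 2 := by field_simp
    rw [one_div_pow, ← div_eq_mul_one_div, lt_div_iff₀ (by positivity), mul_comm]
    exact h5
  have h6 : 0 < (1 / (2 * (L : ℝ) + 1)) ^ k := by positivity
  set q : ℝ := (1 / (2 * (L : ℝ) + 1)) ^ k with hq
  refine ⟨L, (L : ℝ) + (8 / q + 1) / ε, ?_, by positivity, ?_⟩
  · have : 0 ≤ (8 / q + 1) / ε := by positivity
    linarith
  · have h7 : 8 / q + 1 ≤ ((L : ℝ) + (8 / q + 1) / ε) * ε := by
      rw [add_mul, div_mul_cancel₀ _ hε.ne']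
      have : 0 ≤ (L : ℝ) * ε := by positivity
      linarith
    have h8 : 0 < 8 / q := by positivity
    have h9 : 8 / q + 1 ≤ (((L : ℝ) + (8 / q + 1) / ε) * ε) ^ 2 := by nlinarith
    have h10 : 4 / (((L : ℝ) + (8 / q + 1) / ε) * ε) ^ 2 < 1 / 2 * q := by
      have h11 : 0 < (((L : ℝ) + (8 / q + 1) / ε) * ε) ^ 2 := by linarith
      rw [div_lt_iff₀ h11]
      have h12 : 1 / 2 * q * (8 / q + 1) = 4 + 1 / 2 * q := by
        field_simp
        ring
      have h13 : 1 / 2 * q * (8 / q + 1) ≤ 1 / 2 * q *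
          (((L : ℝ) + (8 / q + 1) / ε) * ε) ^ 2 :=
        mul_le_mul_of_nonneg_left h9 (by positivity)
      linarith
    linarith

/-- explicit constants for `η = 1 / (3 k)`: `L = 324 k^4`, `K = 4 (648 k^4 + 1)^k / ε` -/
theorem kron_explicit (k : ℕ) (hk : 1 ≤ k) (ε : ℝ) (hε : 0 < ε) :
    (1 - (1 / (3 * (k : ℝ))) ^ 2 / 4) ^ (324 * k ^ 4) +
      4 / (4 * (648 * (k : ℝ) ^ 4 + 1) ^ k / ε * ε) ^ 2 <
      (1 / (2 * ((324 * k ^ 4 : ℕ) : ℝ) + 1)) ^ k := by
  have hkr : (1 : ℝ) ≤ k := by exact_mod_cast hk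
  have hk0 : (0 : ℝ) < k := by linarith
  set B : ℝ := 648 * (k : ℝ) ^ 4 + 1 with hB
  have hB1 : 1 ≤ B := by
    rw [hB]
    have : (0 : ℝ) ≤ 648 * (k : ℝ) ^ 4 := by positivity
    linarith
  have h1 : 2 * ((324 * k ^ 4 : ℕ) : ℝ) + 1 = B := by
    rw [hB]
    push_cast
    ring
  have hb : (1 / B) ^ k = 1 / B ^ k := one_div_pow B k
  rw [h1, div_mul_cancel₀ _ hε.ne', hb]
  -- the first term
  have h2 : (1 - (1 / (3 * (k : ℝ))) ^ 2 / 4) ^ (324 * k ^ 4) ≤ Real.exp (-(9 * (k : ℝ) ^ 2)) := by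
    have e1 : 1 - (1 / (3 * (k : ℝ))) ^ 2 / 4 ≤ Real.exp (-(1 / (36 * (k : ℝ) ^ 2))) := by
      have e2 := Real.add_one_le_exp (-(1 / (36 * (k : ℝ) ^ 2)))
      have e3 : (1 / (3 * (k : ℝ))) ^ 2 / 4 = 1 / (36 * (k : ℝ) ^ 2) := by
        field_simp
        ring
      rw [e3]
      linarith
    have e4 : 0 ≤ 1 - (1 / (3 * (k : ℝ))) ^ 2 / 4 := by
      have e5 : 1 / (3 * (k : ℝ)) ≤ 1 := by
        rw [div_le_one (by positivity)]
        linarith
      have e6 : 0 ≤ 1 / (3 * (k : ℝ)) := by positivity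
      nlinarith
    refine (pow_le_pow_left₀ e4 e1 _).trans ?_
    rw [← Real.exp_nat_mul]
    refine Real.exp_le_exp.2 (le_of_eq ?_)
    push_cast
    field_simp
    ring
  have h3 : 2 * B ≤ Real.exp (9 * (k : ℝ)) := by
    have e1 : (8000 : ℝ) ≤ Real.exp 9 := by
      have e2 := Real.exp_one_gt_d9
      have e3 : Real.exp 9 = Real.exp 1 ^ 9 := by
        rw [← Real.exp_nat_mul]
        norm_num
      rw [e3]
      have e4 : (2.718 : ℝ) ^ 9 ≤ Real.exp 1 ^ 9 :=
        pow_le_pow_left₀ (by norm_num) (by linarith) 9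
      have e5 : (8000 : ℝ) ≤ 2.718 ^ 9 := by norm_num
      linarith
    have e6 : Real.exp (9 * (k : ℝ)) = Real.exp 9 ^ k := by
      rw [← Real.exp_nat_mul]
      ring_nf
    have e7 : (8000 : ℝ) ^ k ≤ Real.exp 9 ^ k := pow_le_pow_left₀ (by norm_num) e1 k
    have e8 : (k : ℝ) ^ 4 ≤ 16 ^ (k - 1) := by
      have e9 : k ≤ 2 ^ (k - 1) := by
        have := Nat.lt_two_pow_self (n := k - 1)
        omega
      have e10 : (k : ℝ) ≤ 2 ^ (k - 1) := by exact_mod_cast e9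
      have e11 := pow_le_pow_left₀ hk0.le e10 4
      have e12 : ((2 : ℝ) ^ (k - 1)) ^ 4 = 16 ^ (k - 1) := by
        rw [← pow_mul, mul_comm, pow_mul]
        norm_num
      rw [e12] at e11
      exact e11
    have e13 : (16 : ℝ) ^ (k - 1) * 1298 ≤ 8000 ^ k := by
      obtain ⟨j, rfl⟩ := Nat.exists_eq_add_of_le' hk
      rw [Nat.add_sub_cancel, pow_succ]
      have e14 : (16 : ℝ) ^ j ≤ 8000 ^ j := pow_le_pow_left₀ (by norm_num) (by norm_num) j
      have e15 : (0 : ℝ) < 8000 ^ j := by positivity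
      nlinarith
    have e16 : (1 : ℝ) ≤ (k : ℝ) ^ 4 := one_le_pow₀ hkr
    rw [hB, e6]
    linarith
  have h4 : 2 * B ^ k ≤ Real.exp (9 * (k : ℝ) ^ 2) := by
    have e1 : (2 * B) ^ k ≤ Real.exp (9 * (k : ℝ)) ^ k := pow_le_pow_left₀ (by positivity) h3 k
    have e2 : Real.exp (9 * (k : ℝ)) ^ k = Real.exp (9 * (k : ℝ) ^ 2) := by
      rw [← Real.exp_nat_mul]
      ring_nf
    rw [e2, mul_pow] at e1
    have e3 : (2 : ℝ) ≤ 2 ^ k := by
      have := pow_le_pow_right₀ (by norm_num : (1 : ℝ) ≤ 2) hk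
      linarith
    have e4 : 2 * B ^ k ≤ 2 ^ k * B ^ k := mul_le_mul_of_nonneg_right e3 (by positivity)
    linarith
  have hBk : 1 ≤ B ^ k := one_le_pow₀ hB1
  have h5 : Real.exp (-(9 * (k : ℝ) ^ 2)) ≤ 1 / 2 * (1 / B ^ k) := by
    rw [Real.exp_neg, ← one_div]
    have e1 : 1 / Real.exp (9 * (k : ℝ) ^ 2) ≤ 1 / (2 * B ^ k) :=
      one_div_le_one_div_of_le (by positivity) h4
    have e2 : 1 / (2 * B ^ k) = 1 / 2 * (1 / B ^ k) := by
      field_simp
    linarith
  have h6 : 4 / (4 * B ^ k) ^ 2 ≤ 1 / 4 * (1 / B ^ k) := by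
    have e1 : 4 / (4 * B ^ k) ^ 2 = 1 / 4 * (1 / B ^ k) * (1 / B ^ k) := by
      field_simp
    rw [e1]
    refine mul_le_of_le_one_right (by positivity) ?_
    rw [div_le_one (by positivity)]
    exact hBk
  have h7 : 0 < 1 / B ^ k := by positivity
  linarith

end

end Pool.Agent.FHP
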