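import Pool.Agent.FHP.StL

/-!
# FHP, module LOW: the values of the top polynomial at the points with coordinates `1` and `-1`
-/

set_option autoImplicit false
set_option linter.unusedSectionVars false
set_option linter.unusedVariables false

namespace Pool.Agent.FHP

open Submodule Module Pool.Agent.EQT

attribute [local instance] Classical.propDecidable Fintype.ofFinite

section

variable {V : Type} [AddCommGroup V] [Module F2 V] [Finite V]

private theorem LOW_mem (e v : V) : v ∈ ln e ↔ v = 0 ∨ v = e := by
  rw [Submodule.mem_span_singleton]
  constructor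
  · rintro ⟨a, rfl⟩
    fin_cases a
    · exact Or.inl (zero_smul _ _)
    · exact Or.inr (one_smul _ _)
  · rintro (rfl | rfl)
    · exact ⟨0, zero_smul _ _⟩
    · exact ⟨1, one_smul _ _⟩

private theorem LOW_rank {e : V} (he : e ≠ 0) : finrank F2 (V ⧸ ln e) + 1 = finrank F2 V := by
  have h1 := Submodule.finrank_quotient_add_finrank (ln e)
  have h2 : finrank F2 (ln e) = 1 := finrank_span_singleton he
  omega

private theorem LOW_Wneg (m : Submodule F2 V → ℝ) (x : V → ℝ) :
    W (fun U => -m U) x = -W m x := by
  unfold W
  rw [← Finset.sum_neg_distrib]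
  exact Finset.sum_congr rfl fun U _ => neg_mul _ _

private theorem LOW_ccneg (m : Submodule F2 V → ℝ) (U : Submodule F2 V) :
    cc (fun U => -m U) U = -cc m U := by
  unfold cc
  rw [← Finset.sum_neg_distrib]

private theorem LOW_prod {α : Type} (s : Finset α) (x : α → ℝ) (h : ∀ v, x v = 1 ∨ x v = -1) :
    ∏ v ∈ s, x v = 1 ∨ ∏ v ∈ s, x v = -1 := by
  induction s using Finset.induction_on with
  | empty => exact Or.inl Finset.prod_empty
  | insert a s ha ih =>
    rw [Finset.prod_insert ha]
    rcases h a with h1 | h1 <;> rcases ih with h2 | h2 <;> rw [h1, h2] <;> norm_num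

private theorem LOW_push {x : V → ℝ} (h : Signs x) (e : V) : Signs (push (ln e) x) := by
  refine ⟨if_pos rfl, fun w => ?_⟩
  unfold push
  split_ifs with hw
  · exact Or.inl rfl
  · exact LOW_prod _ _ h.2

private theorem LOW_top (hQ : St_QUO) {m : Submodule F2 V → ℝ} (hm : TopOnly m) {e : V}
    (he : e ≠ 0) : TopOnly (fun U => -quo 1 m (ln e) U) := by
  intro U
  rw [LOW_ccneg, (hQ V ℝ 1 m (ln e)).2 U, finrank_span_singleton he, hm]
  have h1 : U.comap (ln e).mkQ = ⊤ ↔ U = ⊤ := by
    constructor
    · intro h
      apply Submodule.comap_injective_of_surjective (Submodule.mkQ_surjective (ln e))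
      rw [h, Submodule.comap_top]
    · rintro rfl
      exact Submodule.comap_top _
  by_cases hU : U = ⊤
  · rw [if_pos (h1.mpr hU), if_pos hU]
    norm_num
  · rw [if_neg fun h => hU (h1.mp h), if_neg hU]
    norm_num

/-- deletion and contraction with signs -/
private theorem LOW_dc (hDC : St_DC) (m : Submodule F2 V → ℝ) {x : V → ℝ} (hx : Signs x) {e : V}
    (hxe : x e = -1) (he : e ≠ 0) :
    (-1) ^ finrank F2 V * W m x = (-1) ^ finrank F2 V * W m (Function.update x e 1) +
      2 * ((-1) ^ finrank F2 (V ⧸ ln e) * W (fun U => -quo 1 m (ln e) U) (push (ln e) x)) := by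
  have h1 := hDC V 1 m e x one_ne_zero he hx.1
  rw [h1, hxe, LOW_Wneg, ← LOW_rank he, pow_succ]
  ring

private theorem LOW_ne {x : V → ℝ} (hx : Signs x) {e : V} (hxe : x e = -1) : e ≠ 0 := by
  rintro rfl
  rw [hx.1] at hxe
  norm_num at hxe

private theorem LOW_upd {x : V → ℝ} (hx : Signs x) {e : V} (he : e ≠ 0) :
    Signs (Function.update x e 1) := by
  refine ⟨?_, fun v => ?_⟩
  · rw [Function.update_of_ne (Ne.symm he)]
    exact hx.1
  · by_cases hv : v = e
    · rw [hv, Function.update_self]
      exact Or.inl rfl
    · rw [Function.update_of_ne hv]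
      exact hx.2 v

private theorem LOW_set (x : V → ℝ) (e : V) :
    {v | Function.update x e 1 v = -1} = {v | x v = -1} \ {e} := by
  ext v
  simp only [Set.mem_ofPred_eq, Set.mem_sdiff, Set.mem_singleton_iff]
  by_cases hv : v = e
  · rw [hv, Function.update_self]
    norm_num
  · rw [Function.update_of_ne hv]
    exact ⟨fun h => ⟨h, hv⟩, fun h => h.1⟩

private theorem LOW_card {x : V → ℝ} {e : V} (hxe : x e = -1) :
    {v | Function.update x e 1 v = -1}.ncard < {v | x v = -1}.ncard := by
  rw [LOW_set]
  exact Set.ncard_sdiff_singleton_lt_of_mem hxe (Set.toFinite _)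

private theorem LOW_one {m : Submodule F2 V → ℝ} (hm : TopOnly m) {x : V → ℝ} (hx : ∀ v, x v = 1) :
    W m x = if (⊥ : Submodule F2 V) = ⊤ then 1 else 0 := by
  rw [← hm ⊥]
  unfold W cc
  rw [Finset.filter_true_of_mem fun U _ => bot_le]
  apply Finset.sum_congr rfl
  intro U _
  rw [Finset.prod_congr rfl fun v _ => hx v, Finset.prod_const_one, mul_one]

end

private theorem LOW_pos (hQ : St_QUO) (hDC : St_DC) (r : ℕ) : ∀ (k : ℕ) (V : Type)
    [AddCommGroup V] [Module F2 V] [Finite V] (m : Submodule F2 V → ℝ), TopOnly m →
    finrank F2 V = r → ∀ x : V → ℝ, Signs x → {v | x v = -1}.ncard = k →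
    0 ≤ (-1) ^ finrank F2 V * W m x := by
  induction r using Nat.strong_induction_on with
  | _ r ihr =>
    intro k
    induction k using Nat.strong_induction_on with
    | _ k ihk =>
      intro V _ _ _ m hm hr x hx hk
      by_cases h : ∃ e, x e = -1
      · obtain ⟨e, hxe⟩ := h
        have he := LOW_ne hx hxe
        rw [LOW_dc hDC m hx hxe he]
        have h1 := ihk _ (hk ▸ LOW_card hxe) V m hm hr _ (LOW_upd hx he) rfl
        have h2 := ihr (finrank F2 (V ⧸ ln e)) (by have := LOW_rank he; omega) _ (V ⧸ ln e) _
          (LOW_top hQ hm he) rfl _ (LOW_push hx e) rfl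
        linarith
      · push Not at h
        have h1 : ∀ v, x v = 1 := fun v => (hx.2 v).resolve_right (h v)
        rw [LOW_one hm h1]
        split_ifs with hb
        · have h2 : finrank F2 V = 0 := by
            rw [← finrank_top F2 V, ← hb, finrank_bot]
          rw [h2]
          norm_num
        · simp

private theorem LOW_big (hQ : St_QUO) (hDC : St_DC) (r : ℕ) : ∀ (k : ℕ) (V : Type)
    [AddCommGroup V] [Module F2 V] [Finite V] (m : Submodule F2 V → ℝ), TopOnly m →
    finrank F2 V = r → ∀ x : V → ℝ, Signs x → {v | x v = -1}.ncard = k →
    span F2 {v | x v = -1} = ⊤ →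
    2 ^ finrank F2 V ≤ (-1) ^ finrank F2 V * W m x := by
  induction r using Nat.strong_induction_on with
  | _ r ihr =>
    intro k
    induction k using Nat.strong_induction_on with
    | _ k ihk =>
      intro V _ _ _ m hm hr x hx hk hs
      by_cases h : ∃ e, x e = -1
      · by_cases hrem : ∃ e, x e = -1 ∧ span F2 ({v | x v = -1} \ {e}) = ⊤
        · obtain ⟨e, hxe, hs'⟩ := hrem
          have he := LOW_ne hx hxe
          rw [LOW_dc hDC m hx hxe he]
          have h1 := ihk _ (hk ▸ LOW_card hxe) V m hm hr _ (LOW_upd hx he) rfl
            (by rw [LOW_set]; exact hs')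
          have h2 := LOW_pos hQ hDC (finrank F2 (V ⧸ ln e)) _ (V ⧸ ln e) _
            (LOW_top hQ hm he) rfl _ (LOW_push hx e) rfl
          linarith
        · obtain ⟨e, hxe⟩ := h
          push Not at hrem
          have he := LOW_ne hx hxe
          rw [LOW_dc hDC m hx hxe he]
          have h1 := LOW_pos hQ hDC (finrank F2 V) _ V m hm rfl _ (LOW_upd hx he) rfl
          have hsp : span F2 {w | push (ln e) x w = -1} = ⊤ := by
            have h3 : ∀ v : V, x v = -1 → (ln e).mkQ v ∈ span F2 {w | push (ln e) x w = -1} := by
              intro p hp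
              by_cases hpe : p = e
              · rw [hpe]
                have : (ln e).mkQ e = 0 := by
                  rw [Submodule.mkQ_apply, Submodule.Quotient.mk_eq_zero]
                  exact mem_span_singleton_self e
                rw [this]
                exact zero_mem _
              · apply subset_span
                have hp0 := LOW_ne hx hp
                have hpln : p ∉ ln e := by
                  rw [LOW_mem]
                  exact fun h => h.elim hp0 hpe
                have hw : (ln e).mkQ p ≠ 0 := by
                  rw [Submodule.mkQ_apply, Ne, Submodule.Quotient.mk_eq_zero]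
                  exact hpln
                have hpe1 : x (p + e) = 1 := by
                  refine (hx.2 _).resolve_right fun hq => ?_
                  apply hrem (p + e) hq
                  have hpm : p ∈ span F2 ({v | x v = -1} \ {p + e}) :=
                    subset_span ⟨hp, fun h => he (by
                      have h' : p = p + e := h
                      exact (left_eq_add.mp h'))⟩
                  have hem : e ∈ span F2 ({v | x v = -1} \ {p + e}) :=
                    subset_span ⟨hxe, fun h => hp0 (by
                      have h' : e = p + e := h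
                      exact (right_eq_add.mp h'))⟩
                  rw [eq_top_iff, ← hs, span_le]
                  intro v hv
                  by_cases hvq : v = p + e
                  · rw [hvq]
                    exact add_mem hpm hem
                  · exact subset_span ⟨hv, hvq⟩
                change push (ln e) x ((ln e).mkQ p) = -1
                unfold push
                rw [if_neg hw]
                have hset : (Finset.univ.filter fun v => (ln e).mkQ v = (ln e).mkQ p) =
                    {p, p + e} := by
                  ext v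
                  rw [Finset.mem_filter, Finset.mem_insert, Finset.mem_singleton,
                    Submodule.mkQ_apply, Submodule.mkQ_apply, Submodule.Quotient.eq, LOW_mem,
                    sub_eq_zero, sub_eq_iff_eq_add']
                  exact ⟨fun h => h.2, fun h => ⟨Finset.mem_univ _, h⟩⟩
                rw [hset, Finset.prod_pair fun h => he (left_eq_add.mp h), hp, hpe1]
                norm_num
            rw [eq_top_iff]
            rintro w -
            obtain ⟨v, rfl⟩ := Submodule.mkQ_surjective (ln e) w
            have h4 : span F2 {v | x v = -1} ≤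
                (span F2 {w | push (ln e) x w = -1}).comap (ln e).mkQ := by
              rw [span_le]
              exact fun v hv => h3 v hv
            exact h4 (hs ▸ mem_top)
          have h2 := ihr (finrank F2 (V ⧸ ln e)) (by have := LOW_rank he; omega) _ (V ⧸ ln e) _
            (LOW_top hQ hm he) rfl _ (LOW_push hx e) rfl hsp
          have h5 : (2 : ℝ) ^ finrank F2 V = 2 * 2 ^ finrank F2 (V ⧸ ln e) := by
            rw [← LOW_rank he, pow_succ]
            ring
          rw [h5]
          linarith
      · push Not at h
        have h1 : ∀ v, x v = 1 := fun v => (hx.2 v).resolve_right (h v)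
        have hb : (⊥ : Submodule F2 V) = ⊤ := by
          rw [← hs]
          have : {v | x v = -1} = (∅ : Set V) := by
            ext v
            simp [h v]
          rw [this, span_empty]
        rw [LOW_one hm h1, if_pos hb]
        have h2 : finrank F2 V = 0 := by
          rw [← finrank_top F2 V, ← hb, finrank_bot]
        rw [h2]
        norm_num

theorem thm_LOW (hQUO : EQT.St_QUO) (hDC : EQT.St_DC) : St_LOW := by
  intro V _ _ _ m hm
  refine ⟨fun x hx => LOW_pos hQUO hDC _ _ V m hm rfl x hx rfl, fun x e hx he => ?_,
    fun x hx hs => LOW_big hQUO hDC _ _ V m hm rfl x hx rfl hs⟩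
  rcases hx.2 e with h1 | h1
  · have : Function.update x e 1 = x := by rw [← h1, Function.update_eq_self]
    rw [this]
  · rw [LOW_dc hDC m hx h1 he]
    have h2 := LOW_pos hQUO hDC _ _ (V ⧸ ln e) _ (LOW_top hQUO hm he) rfl _ (LOW_push hx e) rfl
    linarith

end Pool.Agent.FHP
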