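import Mathlib

/-!
# FHP, module LinC: regular principal matrices modulo 2 (helper32)
-/

set_option autoImplicit false
set_option linter.unusedSectionVars false

open Matrix

namespace Pool.Agent.FHP

variable {ι : Type} [Fintype ι] [DecidableEq ι]

/-- the rows of the crossings outside `C` replaced by unit vectors -/
def LinC_N (M : Matrix ι ι (ZMod 2)) (U : Finset ι) : Matrix ι ι (ZMod 2) :=
  Matrix.of fun x => if x ∈ U then Pi.single x 1 else M x

theorem LinC_N_pos (M : Matrix ι ι (ZMod 2)) (U : Finset ι) (x : ι) (h : x ∈ U) :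
    LinC_N M U x = Pi.single x 1 := by
  have h1 : LinC_N M U x = if x ∈ U then Pi.single x 1 else M x := rfl
  rw [h1, if_pos h]

theorem LinC_N_neg (M : Matrix ι ι (ZMod 2)) (U : Finset ι) (x : ι) (h : x ∉ U) :
    LinC_N M U x = M x := by
  have h1 : LinC_N M U x = if x ∈ U then Pi.single x 1 else M x := rfl
  rw [h1, if_neg h]

theorem LinC_1 (x : ι) : (1 : Matrix ι ι (ZMod 2)) x = Pi.single x 1 :=
  funext fun _ => Matrix.one_eq_pi_single

/-- the matrix with `1` added to the diagonal at the elements of `T` -/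
def LinC_A (M : Matrix ι ι (ZMod 2)) (T : Finset ι) : Matrix ι ι (ZMod 2) :=
  M + Matrix.diagonal fun x => if x ∈ T then 1 else 0

theorem LinC_two (a : ZMod 2) : a + a = 0 := CharTwo.add_self_eq_zero a

theorem LinC_step (M : Matrix ι ι (ZMod 2)) (x : ι) (T : Finset ι) (hx : x ∉ T) :
    (LinC_A M T).det + (LinC_A M (insert x T)).det =
      (LinC_A (M.updateRow x (Pi.single x 1)) T).det := by
  have h1 : LinC_A M (insert x T) =
      (LinC_A M T).updateRow x ((LinC_A M T) x + Pi.single x 1) := by
    ext i j
    unfold LinC_A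
    by_cases hi : i = x
    · subst hi
      by_cases hj : j = i
      · subst hj
        simp [hx]
      · simp [hj, Matrix.diagonal_apply_ne _ (Ne.symm hj)]
    · rw [Matrix.updateRow_ne hi]
      by_cases hj : j = i
      · subst hj
        simp [hi]
      · simp [Matrix.diagonal_apply_ne _ (Ne.symm hj)]
  have h2 : LinC_A (M.updateRow x (Pi.single x 1)) T =
      (LinC_A M T).updateRow x (Pi.single x 1) := by
    ext i j
    unfold LinC_A
    by_cases hi : i = x
    · subst hi
      by_cases hj : j = i
      · subst hj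
        simp [hx]
      · simp [Matrix.diagonal_apply_ne _ (Ne.symm hj)]
    · rw [Matrix.updateRow_ne hi, Matrix.add_apply, Matrix.add_apply, Matrix.updateRow_ne hi]
  rw [h1, h2, Matrix.det_updateRow_add, Matrix.updateRow_eq_self, ← add_assoc, LinC_two, zero_add]

/-- sum over the subsets of `U` -/
theorem LinC_sum (U : Finset ι) : ∀ M : Matrix ι ι (ZMod 2),
    ∑ T ∈ U.powerset, (LinC_A M T).det = (LinC_N M U).det := by
  induction U using Finset.induction_on with
  | empty =>
    intro M
    rw [Finset.powerset_empty, Finset.sum_singleton]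
    congr 1
    ext i j
    unfold LinC_A LinC_N
    simp
  | insert x U hx ih =>
    intro M
    rw [Finset.sum_powerset_insert hx, ← Finset.sum_add_distrib]
    have h1 : ∀ T ∈ U.powerset, (LinC_A M T).det + (LinC_A M (insert x T)).det =
        (LinC_A (M.updateRow x (Pi.single x 1)) T).det := fun T hT =>
      LinC_step M x T fun h => hx (Finset.mem_powerset.1 hT h)
    rw [Finset.sum_congr rfl h1, ih]
    congr 1
    funext i
    by_cases hi : i = x
    · subst hi
      rw [LinC_N_neg _ _ _ hx, LinC_N_pos _ _ _ (Finset.mem_insert_self i U)]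
      exact Matrix.updateRow_self
    · by_cases hiU : i ∈ U
      · rw [LinC_N_pos _ _ _ hiU, LinC_N_pos _ _ _ (Finset.mem_insert_of_mem hiU)]
      · rw [LinC_N_neg _ _ _ hiU, LinC_N_neg _ _ _ (fun h => (Finset.mem_insert.1 h).elim hi hiU)]
        exact Matrix.updateRow_ne hi

theorem LinC_row (b : ι → ZMod 2) (c : ι) : ((1 : Matrix ι ι (ZMod 2)).updateRow c b).det = b c := by
  rw [← Matrix.cramer_transpose_apply, Matrix.transpose_one, Matrix.cramer_one]
  rfl

/-- one crossing -/
theorem LinC_one (M : Matrix ι ι (ZMod 2)) (c : ι) :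
    ∑ W with c ∈ W, (LinC_A M Wᶜ).det = M c c := by
  have h1 : ∑ W with c ∈ W, (LinC_A M Wᶜ).det =
      ∑ T ∈ (Finset.univ.erase c).powerset, (LinC_A M T).det := by
    refine Finset.sum_nbij' (fun W => Wᶜ) (fun T => Tᶜ) ?_ ?_ ?_ ?_ ?_
    · intro W hW
      rw [Finset.mem_filter] at hW
      rw [Finset.mem_powerset]
      intro x hx
      rw [Finset.mem_compl] at hx
      rw [Finset.mem_erase]
      exact ⟨fun h => hx (h ▸ hW.2), Finset.mem_univ _⟩
    · intro T hT
      rw [Finset.mem_powerset] at hT
      rw [Finset.mem_filter, Finset.mem_compl]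
      exact ⟨Finset.mem_univ _, fun h => (Finset.mem_erase.1 (hT h)).1 rfl⟩
    · intro W _
      exact compl_compl W
    · intro T _
      exact compl_compl T
    · intro W _
      rfl
  rw [h1, LinC_sum]
  have h2 : LinC_N M (Finset.univ.erase c) = (1 : Matrix ι ι (ZMod 2)).updateRow c (M c) := by
    funext i
    by_cases hi : i = c
    · subst hi
      rw [LinC_N_neg _ _ _ (fun h => (Finset.mem_erase.1 h).1 rfl)]
      exact Matrix.updateRow_self.symm
    · rw [LinC_N_pos _ _ _ (Finset.mem_erase.2 ⟨hi, Finset.mem_univ _⟩)]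
      exact (LinC_1 i).symm.trans (Matrix.updateRow_ne hi).symm
  rw [h2, LinC_row]

/-- two crossings -/
theorem LinC_pair (M : Matrix ι ι (ZMod 2)) (c c' : ι) (hcc : c ≠ c') :
    ∑ W with c ∈ W ∧ c' ∈ W, (LinC_A M Wᶜ).det = M c c * M c' c' + M c c' * M c' c := by
  have h1 : ∑ W with c ∈ W ∧ c' ∈ W, (LinC_A M Wᶜ).det =
      ∑ T ∈ ((Finset.univ.erase c).erase c').powerset, (LinC_A M T).det := by
    refine Finset.sum_nbij' (fun W => Wᶜ) (fun T => Tᶜ) ?_ ?_ ?_ ?_ ?_
    · intro W hW
      rw [Finset.mem_filter] at hW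
      rw [Finset.mem_powerset]
      intro x hx
      rw [Finset.mem_compl] at hx
      rw [Finset.mem_erase, Finset.mem_erase]
      exact ⟨fun h => hx (h ▸ hW.2.2), fun h => hx (h ▸ hW.2.1), Finset.mem_univ _⟩
    · intro T hT
      rw [Finset.mem_powerset] at hT
      rw [Finset.mem_filter, Finset.mem_compl, Finset.mem_compl]
      refine ⟨Finset.mem_univ _, fun h => ?_, fun h => (Finset.mem_erase.1 (hT h)).1 rfl⟩
      exact (Finset.mem_erase.1 (Finset.mem_erase.1 (hT h)).2).1 rfl
    · intro W _
      exact compl_compl W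
    · intro T _
      exact compl_compl T
    · intro W _
      rfl
  rw [h1, LinC_sum]
  obtain ⟨A, hA⟩ : ∃ A, A = (1 : Matrix ι ι (ZMod 2)).updateRow c (M c) := ⟨_, rfl⟩
  have h2 : LinC_N M ((Finset.univ.erase c).erase c') = A.updateRow c' (M c') := by
    rw [hA]
    funext i
    by_cases hi : i = c'
    · subst hi
      rw [LinC_N_neg _ _ _ (fun h => (Finset.mem_erase.1 h).1 rfl)]
      exact Matrix.updateRow_self.symm
    · refine Eq.trans ?_ (Matrix.updateRow_ne hi).symm
      by_cases hi2 : i = c
      · subst hi2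
        rw [LinC_N_neg _ _ _ (fun h => (Finset.mem_erase.1 (Finset.mem_erase.1 h).2).1 rfl)]
        exact Matrix.updateRow_self.symm
      · rw [LinC_N_pos _ _ _ (Finset.mem_erase.2 ⟨hi, Finset.mem_erase.2 ⟨hi2, Finset.mem_univ _⟩⟩)]
        exact (LinC_1 i).symm.trans (Matrix.updateRow_ne hi2).symm
  rw [h2]
  have hAne : ∀ i, i ≠ c → A i = Pi.single i 1 := by
    intro i hi
    rw [hA]
    exact (Matrix.updateRow_ne hi).trans (LinC_1 i)
  have hAc : A c = M c := by
    rw [hA]
    exact Matrix.updateRow_self
  -- expand the row `c'`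
  have h3 : (A.updateRow c' (M c')).det =
      ∑ j, M c' j * (A.updateRow c' (Pi.single j 1)).det := by
    have h4 : M c' = ∑ j, M c' j • (Pi.single j (1 : ZMod 2) : ι → ZMod 2) := by
      funext i
      rw [Finset.sum_apply, Finset.sum_eq_single i]
      · simp
      · intro b _ hb
        simp [Ne.symm hb]
      · intro h
        exact absurd (Finset.mem_univ i) h
    conv_lhs => rw [h4]
    rw [← Matrix.cramer_transpose_apply, map_sum, Finset.sum_apply]
    refine Finset.sum_congr rfl fun j _ => ?_
    rw [map_smul, Pi.smul_apply, smul_eq_mul, Matrix.cramer_transpose_apply]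
  rw [h3, Finset.sum_eq_add c' c (Ne.symm hcc)]
  · have h5 : A.updateRow c' (Pi.single c' 1) = A := by
      rw [← hAne c' (Ne.symm hcc), Matrix.updateRow_eq_self]
    have h6 : (A.updateRow c' (Pi.single c 1)).det = M c c' := by
      have h7 : A.updateRow c' (Pi.single c 1) =
          ((1 : Matrix ι ι (ZMod 2)).updateRow c' (M c)).submatrix (Equiv.swap c c') id := by
        funext i
        by_cases hi : i = c'
        · subst hi
          rw [Matrix.updateRow_self]
          funext j
          rw [Matrix.submatrix_apply, Equiv.swap_apply_right, id, Matrix.updateRow_ne hcc]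
          exact congrFun (LinC_1 c).symm j
        · rw [Matrix.updateRow_ne hi]
          by_cases hi2 : i = c
          · subst hi2
            rw [hAc]
            funext j
            rw [Matrix.submatrix_apply, Equiv.swap_apply_left, id, Matrix.updateRow_self]
          · rw [hAne i hi2]
            funext j
            rw [Matrix.submatrix_apply, Equiv.swap_apply_of_ne_of_ne hi2 hi, id,
              Matrix.updateRow_ne hi]
            exact congrFun (LinC_1 i).symm j
      rw [h7, Matrix.det_permute, LinC_row, Equiv.Perm.sign_swap hcc]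
      have h8 : ((((-1 : ℤˣ) : ℤˣ) : ℤ) : ZMod 2) = 1 := by decide
      rw [h8, one_mul]
    rw [h5, h6, hA, LinC_row]
    ring
  · intro j _ hj
    have h5 : (A.updateRow c' (Pi.single j 1)).det = 0 := by
      refine Matrix.det_zero_of_row_eq (i := c') (j := j) (Ne.symm hj.1) ?_
      rw [Matrix.updateRow_self, Matrix.updateRow_ne hj.1, hAne j hj.2]
    rw [h5, mul_zero]
  · intro h
    exact absurd (Finset.mem_univ _) h
  · intro h
    exact absurd (Finset.mem_univ _) h

end Pool.Agent.FHP
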