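import Mathlib

/-!
# FHP, module LinD: totally isotropic subspaces (helper32)
-/

set_option autoImplicit false

open Module Submodule Matrix

namespace Pool.Agent.FHP

variable {ι : Type} [Fintype ι] [DecidableEq ι]

/-- the span of `Sh` has at least half the rank of `M` as dimension -/
theorem LinD_rank (M : Matrix ι ι (ZMod 2)) (Sh : Set (ι → ZMod 2))
    (h : ∀ w w' : ι → ZMod 2, (∀ d ∈ Sh, w ⬝ᵥ d = 0) → (∀ d ∈ Sh, w' ⬝ᵥ d = 0) →
      w ⬝ᵥ M.mulVec w' = 0) :
    M.rank ≤ 2 * finrank (ZMod 2) (span (ZMod 2) Sh) := by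
  classical
  -- the orthogonal complement of `Sh`
  obtain ⟨B, hB⟩ : ∃ B : (ι → ZMod 2) →ₗ[ZMod 2] (ι → ZMod 2) →ₗ[ZMod 2] ZMod 2,
      ∀ v w, B v w = v ⬝ᵥ w :=
    ⟨LinearMap.mk₂ (ZMod 2) (fun v w => v ⬝ᵥ w) (fun a b c => add_dotProduct a b c)
      (fun a b c => smul_dotProduct a b c) (fun a b c => dotProduct_add a b c)
      (fun a b c => dotProduct_smul a b c), fun v w => rfl⟩
  have hinj : Function.Injective B := by
    rw [← LinearMap.ker_eq_bot, LinearMap.ker_eq_bot']
    intro v hv
    funext i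
    have h1 := LinearMap.congr_fun hv (Pi.single i 1)
    rw [hB, dotProduct_single, mul_one, LinearMap.zero_apply] at h1
    exact h1
  obtain ⟨W, hW⟩ : ∃ W, W = span (ZMod 2) Sh := ⟨_, rfl⟩
  obtain ⟨D, hD⟩ : ∃ D : Submodule (ZMod 2) (ι → ZMod 2), ∀ w, w ∈ D ↔ ∀ d ∈ Sh, w ⬝ᵥ d = 0 :=
    ⟨{ carrier := {w | ∀ d ∈ Sh, w ⬝ᵥ d = 0}
       add_mem' := fun {a b} ha hb d hd => by rw [add_dotProduct, ha d hd, hb d hd, add_zero]
       zero_mem' := fun d _ => zero_dotProduct d
       smul_mem' := fun c a ha d hd => by rw [smul_dotProduct, ha d hd, smul_zero] },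
      fun w => Iff.rfl⟩
  have hDW : ∀ w ∈ D, ∀ d ∈ W, w ⬝ᵥ d = 0 := by
    intro w hw d hd
    have h1 : W ≤ LinearMap.ker (B w) := by
      rw [hW, span_le]
      intro x hx
      rw [SetLike.mem_coe, LinearMap.mem_ker, hB]
      exact (hD w).1 hw x hx
    have h2 := h1 hd
    rw [LinearMap.mem_ker, hB] at h2
    exact h2
  -- dimension of `D`
  have hdim : finrank (ZMod 2) W + finrank (ZMod 2) D = Fintype.card ι := by
    have h1 : D = (W.dualAnnihilator).comap B := by
      ext w
      rw [Submodule.mem_comap, Submodule.mem_dualAnnihilator]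
      constructor
      · intro hw d hd
        rw [hB]
        exact hDW w hw d hd
      · intro hw
        rw [hD]
        intro d hd
        rw [← hB]
        exact hw d (by rw [hW]; exact subset_span hd)
    have hfr : finrank (ZMod 2) (ι → ZMod 2) = finrank (ZMod 2) (Module.Dual (ZMod 2) (ι → ZMod 2)) :=
      (Subspace.dual_finrank_eq).symm
    have hsurj : Function.Surjective B :=
      (LinearMap.injective_iff_surjective_of_finrank_eq_finrank hfr).1 hinj
    have h2 : finrank (ZMod 2) D = finrank (ZMod 2) W.dualAnnihilator := by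
      rw [h1]
      let E : (ι → ZMod 2) ≃ₗ[ZMod 2] Module.Dual (ZMod 2) (ι → ZMod 2) :=
        LinearEquiv.ofBijective B ⟨hinj, hsurj⟩
      have h3 : (W.dualAnnihilator).comap B = (W.dualAnnihilator).map E.symm.toLinearMap := by
        rw [Submodule.map_equiv_eq_comap_symm]
        rfl
      rw [h3]
      exact LinearEquiv.finrank_map_eq E.symm _
    rw [h2, Subspace.finrank_add_finrank_dualAnnihilator_eq, finrank_fintype_fun_eq_card]
  -- the image of `D`
  have hmap : D.map M.mulVecLin ≤ W := by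
    have h1 : ∀ v, (∀ w ∈ D, w ⬝ᵥ v = 0) → v ∈ W := by
      intro v hv
      by_contra hvW
      obtain ⟨f, hf1, hf2⟩ := Submodule.exists_dual_map_eq_bot_of_notMem hvW inferInstance
      have h2 : ∀ x : ι → ZMod 2, f x = (fun c => f (Pi.single c 1)) ⬝ᵥ x := by
        intro x
        conv_lhs => rw [← Finset.univ_sum_single x, map_sum]
        unfold dotProduct
        refine Finset.sum_congr rfl fun c _ => ?_
        have h3 : (Pi.single c (x c) : ι → ZMod 2) = x c • Pi.single c 1 := by
          rw [← Pi.single_smul', smul_eq_mul, mul_one]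
        rw [h3, map_smul, smul_eq_mul, mul_comm]
      apply hf1
      rw [h2]
      refine hv _ ((hD _).2 fun d hd => ?_)
      rw [← h2]
      have h4 : f d ∈ Submodule.map f W :=
        Submodule.mem_map_of_mem (by rw [hW]; exact subset_span hd)
      rw [hf2] at h4
      exact (Submodule.mem_bot _).1 h4
    rw [Submodule.map_le_iff_le_comap]
    intro w' hw'
    rw [Submodule.mem_comap, Matrix.mulVecLin_apply]
    exact h1 _ fun w hw => h w w' ((hD w).1 hw) ((hD w').1 hw')
  -- the rank
  have hrank : M.rank ≤ finrank (ZMod 2) (D.map M.mulVecLin) + finrank (ZMod 2) W := by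
    obtain ⟨C, hC⟩ := Submodule.exists_isCompl D
    have h1 : finrank (ZMod 2) C = finrank (ZMod 2) W := by
      have h2 := Submodule.finrank_add_eq_of_isCompl hC
      rw [finrank_fintype_fun_eq_card] at h2
      omega
    have h3 : LinearMap.range M.mulVecLin = D.map M.mulVecLin ⊔ C.map M.mulVecLin := by
      rw [← Submodule.map_sup, hC.sup_eq_top, Submodule.map_top]
    have h4 : M.rank = finrank (ZMod 2) (LinearMap.range M.mulVecLin) := rfl
    rw [h4, h3, ← h1]
    refine (Submodule.finrank_add_le_finrank_add_finrank _ _).trans ?_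
    exact Nat.add_le_add_left (Submodule.finrank_map_le _ _) _
  have h5 := Submodule.finrank_mono hmap
  rw [← hW]
  omega

/-- **Module LinD** -/
theorem LinD_main (M : Matrix ι ι (ZMod 2)) (Sh : Set (ι → ZMod 2))
    (h : ∀ w w' : ι → ZMod 2, (∀ d ∈ Sh, w ⬝ᵥ d = 0) → (∀ d ∈ Sh, w' ⬝ᵥ d = 0) →
      w ⬝ᵥ M.mulVec w' = 0) (m : ℕ) (hm : 2 * m ≤ M.rank + 1) :
    ∃ d : Fin m → ι → ZMod 2, (∀ i, d i ∈ Sh) ∧ LinearIndependent (ZMod 2) d := by
  classical
  have h1 := LinD_rank M Sh h
  obtain ⟨b, hb1, hb2, hb3⟩ := exists_linearIndependent (ZMod 2) Sh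
  have hfin : b.Finite := hb3.setFinite
  have := hfin.fintype
  have h2 : finrank (ZMod 2) (span (ZMod 2) Sh) = Fintype.card b := by
    rw [← hb2]
    exact finrank_span_set_eq_card hb3 |>.trans (by rw [Set.toFinset_card])
  have h3 : m ≤ Fintype.card b := by omega
  obtain ⟨e⟩ : Nonempty (Fin m ↪ b) := by
    rw [← Fintype.card_fin m] at h3
    exact Function.Embedding.nonempty_of_card_le h3
  exact ⟨fun i => (e i : ι → ZMod 2), fun i => hb1 (e i).2, hb3.comp e e.injective⟩

end Pool.Agent.FHP
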