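import Pool.Agent.FHP.Graph

/-!
# FHP, module LinK: the rank of the cut matrix is more than a third of the number of classes
(helper32)
-/

set_option autoImplicit false
set_option linter.unusedSectionVars false

open Submodule Module

namespace Pool.Agent.FHP

open Pool.Agent.SPT Pool.Agent.EQT Pool.Agent.Helper16.Knotoid

variable {n : ℕ}

theorem LinK_abs {V : Type} [Finite V] [Nonempty V] (r₀ : V → V → Prop) (a b : Fin n → V)
    (M : Matrix (Fin n) (Fin n) (ZMod 2)) (hsym : ∀ i j, M i j = M j i)
    (h1 : ∀ φ ∈ compat r₀, M.mulVec (fun c => φ (a c) + φ (b c)) = 0)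
    (h2 : ∀ x, M.mulVec x = 0 → ∃ φ ∈ compat r₀, ∀ c, φ (a c) + φ (b c) = x c)
    (h3 : ∀ φ ∈ compat r₀, (∀ c, φ (a c) + φ (b c) = 0) → ∀ v w, φ v = φ w)
    (S : Finset (Fin n)) (hne : ∀ i ∈ S, M i ≠ 0)
    (hinj : ∀ i ∈ S, ∀ j ∈ S, M i = M j → i = j) (hS : 2 ≤ S.card) :
    S.card + 3 ≤ 3 * M.rank := by
  classical
  obtain ⟨r', hr'⟩ : ∃ r' : V → V → Prop, r' = fun v w => r₀ v w ∨ ∃ c, c ∉ S ∧ v = a c ∧ w = b c :=
    ⟨_, rfl⟩
  have hc' : ∀ φ, φ ∈ compat r' ↔ φ ∈ compat r₀ ∧ ∀ c, c ∉ S → φ (a c) = φ (b c) := by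
    intro φ
    rw [mem_compat, mem_compat, hr']
    constructor
    · intro h
      exact ⟨fun v w hvw => h v w (Or.inl hvw), fun c hc => h _ _ (Or.inr ⟨c, hc, rfl, rfl⟩)⟩
    · rintro ⟨h4, h5⟩ v w (hvw | ⟨c, hc, rfl, rfl⟩)
      · exact h4 v w hvw
      · exact h5 c hc
  -- the dimensions
  have hdim : S.card + 1 ≤ M.rank + Nat.card (Quot r') := by
    obtain ⟨E, hE⟩ : ∃ E : (S → ZMod 2) →ₗ[ZMod 2] (Fin n → ZMod 2),
        ∀ y c, E y c = if h : c ∈ S then y ⟨c, h⟩ else 0 := by
      refine ⟨{ toFun := fun y c => if h : c ∈ S then y ⟨c, h⟩ else 0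
                map_add' := fun x y => ?_
                map_smul' := fun t x => ?_ }, fun y c => rfl⟩
      · funext c
        by_cases h : c ∈ S <;> simp [h]
      · funext c
        by_cases h : c ∈ S <;> simp [h]
    obtain ⟨N, hN⟩ : ∃ N, N = M.mulVecLin ∘ₗ E := ⟨_, rfl⟩
    obtain ⟨G, hG⟩ : ∃ G : compat r' →ₗ[ZMod 2] (S → ZMod 2),
        ∀ φ c, G φ c = φ.1 (a c.1) + φ.1 (b c.1) := by
      refine ⟨{ toFun := fun φ c => φ.1 (a c.1) + φ.1 (b c.1)
                map_add' := fun x y => ?_
                map_smul' := fun t x => ?_ }, fun y c => rfl⟩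
      · funext c
        simp only [Submodule.coe_add, Pi.add_apply]
        ring
      · funext c
        simp only [Submodule.coe_smul, Pi.smul_apply, smul_eq_mul, RingHom.id_apply]
        ring
    have h4 : LinearMap.ker N ≤ LinearMap.range G := by
      intro y hy
      rw [LinearMap.mem_ker, hN, LinearMap.comp_apply, Matrix.mulVecLin_apply] at hy
      obtain ⟨φ, hφ, hφy⟩ := h2 _ hy
      have h5 : φ ∈ compat r' := by
        rw [hc']
        refine ⟨hφ, fun c hc => ?_⟩
        have h6 := hφy c
        rw [hE, dif_neg hc] at h6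
        exact CharTwo.add_eq_zero.1 h6
      refine ⟨⟨φ, h5⟩, ?_⟩
      funext c
      rw [hG, hφy, hE, dif_pos c.2]
    have h5 : finrank (ZMod 2) (LinearMap.range N) ≤ M.rank := by
      refine Submodule.finrank_mono ?_
      rw [hN]
      exact LinearMap.range_comp_le_range E M.mulVecLin
    have h6 := LinearMap.finrank_range_add_finrank_ker N
    rw [finrank_fintype_fun_eq_card, Fintype.card_coe] at h6
    have h7 := LinearMap.finrank_range_add_finrank_ker G
    rw [finrank_compat] at h7
    have h8 := Submodule.finrank_mono h4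
    have h9 : 1 ≤ finrank (ZMod 2) (LinearMap.ker G) := by
      rw [Submodule.one_le_finrank_iff]
      intro h0
      have h10 : (fun _ : V => (1 : ZMod 2)) ∈ compat r' := by
        rw [mem_compat]
        intro _ _ _
        rfl
      have h11 : (⟨fun _ : V => (1 : ZMod 2), h10⟩ : compat r') ∈ LinearMap.ker G := by
        rw [LinearMap.mem_ker]
        funext c
        rw [hG]
        exact CharTwo.add_self_eq_zero _
      rw [h0, Submodule.mem_bot] at h11
      have h12 := congrFun (congrArg Subtype.val h11) (Classical.arbitrary V)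
      exact one_ne_zero h12
    omega
  -- the degrees
  have : Finite (Quot r') := Finite.of_surjective (Quot.mk r') Quot.mk_surjective
  have := Fintype.ofFinite (Quot r')
  rw [Nat.card_eq_fintype_card] at hdim
  rcases Nat.lt_or_ge 1 (Fintype.card (Quot r')) with hQ | hQ
  · obtain ⟨Z, hZ⟩ : ∃ Z : Quot r' → Finset (Fin n), Z = fun q => S.filter fun c =>
        ¬ (Quot.mk r' (a c) = q ↔ Quot.mk r' (b c) = q) := ⟨_, rfl⟩
    have hdeg : ∀ q, 3 ≤ (Z q).card := by
      intro q
      obtain ⟨q', hq'⟩ : ∃ q', q' ≠ q := by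
        by_contra h
        push Not at h
        have := Fintype.card_le_one_iff.2 fun x y => (h x).trans (h y).symm
        omega
      obtain ⟨φ, hφ⟩ : ∃ φ : V → ZMod 2, ∀ v, φ v = if Quot.mk r' v = q then 1 else 0 :=
        ⟨fun v => if Quot.mk r' v = q then 1 else 0, fun v => rfl⟩
      have hφc : φ ∈ compat r' := by
        rw [mem_compat]
        intro v w hvw
        rw [hφ, hφ, Quot.sound hvw]
      have h4 := (hc' φ).1 hφc
      have h5 : ∀ c, φ (a c) + φ (b c) = if c ∈ Z q then 1 else 0 := by
        intro c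
        by_cases hcS : c ∈ S
        · have h6 : c ∈ Z q ↔ ¬ (Quot.mk r' (a c) = q ↔ Quot.mk r' (b c) = q) := by
            rw [hZ, Finset.mem_filter]
            exact ⟨fun h => h.2, fun h => ⟨hcS, h⟩⟩
          rw [hφ, hφ]
          by_cases h7 : Quot.mk r' (a c) = q <;> by_cases h8 : Quot.mk r' (b c) = q
          · rw [if_pos h7, if_pos h8, if_neg (fun h => (h6.1 h) ⟨fun _ => h8, fun _ => h7⟩)]
            decide
          · rw [if_pos h7, if_neg h8, if_pos (h6.2 fun h => h8 (h.1 h7)), add_zero]
          · rw [if_neg h7, if_pos h8, if_pos (h6.2 fun h => h7 (h.2 h8)), zero_add]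
          · rw [if_neg h7, if_neg h8, if_neg (fun h => (h6.1 h) ⟨fun h' => absurd h' h7,
              fun h' => absurd h' h8⟩), add_zero]
        · rw [h4.2 c hcS, if_neg]
          · exact CharTwo.add_self_eq_zero _
          · intro h
            rw [hZ] at h
            exact hcS (Finset.mem_filter.1 h).1
      have hsum : ∀ i, ∑ c ∈ Z q, M c i = 0 := by
        intro i
        have h6 := congrFun (h1 φ h4.1) i
        have h7 : M.mulVec (fun c => φ (a c) + φ (b c)) i = ∑ c ∈ Z q, M c i := by
          have h9 : M.mulVec (fun c => φ (a c) + φ (b c)) i =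
              ∑ c, M i c * (φ (a c) + φ (b c)) := rfl
          rw [h9, ← Finset.sum_filter_add_sum_filter_not Finset.univ (fun c => c ∈ Z q)]
          have h8 : ∑ c with c ∉ Z q, M i c * (φ (a c) + φ (b c)) = 0 :=
            Finset.sum_eq_zero fun c hc => by
              rw [h5, if_neg (Finset.mem_filter.1 hc).2, mul_zero]
          rw [h8, add_zero, Finset.filter_mem_eq_inter, Finset.univ_inter]
          refine Finset.sum_congr rfl fun c hc => ?_
          rw [h5, if_pos hc, mul_one, hsym]
        rw [← h7, h6]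
        rfl
      have hZS : ∀ c ∈ Z q, c ∈ S := by
        intro c hc
        rw [hZ] at hc
        exact (Finset.mem_filter.1 hc).1
      by_contra hlt
      have hcard : (Z q).card = 0 ∨ (Z q).card = 1 ∨ (Z q).card = 2 := by omega
      rcases hcard with h0 | h0 | h0
      · rw [Finset.card_eq_zero] at h0
        obtain ⟨v, hv⟩ := Quot.mk_surjective q
        obtain ⟨w, hw⟩ := Quot.mk_surjective q'
        have h6 := h3 φ h4.1 (fun c => by rw [h5, h0, if_neg (Finset.notMem_empty c)]) v w
        rw [hφ, hφ, if_pos hv, if_neg (fun h => hq' (hw.symm.trans h))] at h6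
        exact one_ne_zero h6
      · obtain ⟨c, hc⟩ := Finset.card_eq_one.1 h0
        refine hne c (hZS c (by rw [hc]; exact Finset.mem_singleton_self c)) ?_
        funext i
        have h6 := hsum i
        rw [hc, Finset.sum_singleton] at h6
        exact h6
      · obtain ⟨c, c', hcc, hc⟩ := Finset.card_eq_two.1 h0
        refine hcc (hinj c (hZS c ?_) c' (hZS c' ?_) ?_)
        · rw [hc]
          exact Finset.mem_insert_self _ _
        · rw [hc]
          exact Finset.mem_insert_of_mem (Finset.mem_singleton_self _)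
        · funext i
          have h6 := hsum i
          rw [hc, Finset.sum_pair hcc] at h6
          exact CharTwo.add_eq_zero.1 h6
    have hcount : ∑ q, (Z q).card ≤ 2 * S.card := by
      have h4 : ∀ q, (Z q).card = ∑ c ∈ S,
          if ¬ (Quot.mk r' (a c) = q ↔ Quot.mk r' (b c) = q) then 1 else 0 := by
        intro q
        rw [hZ, Finset.card_filter]
      rw [Finset.sum_congr rfl fun q _ => h4 q, Finset.sum_comm]
      calc ∑ c ∈ S, ∑ q, (if ¬ (Quot.mk r' (a c) = q ↔ Quot.mk r' (b c) = q) then 1 else 0)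
          ≤ ∑ c ∈ S, 2 := by
            refine Finset.sum_le_sum fun c _ => ?_
            rw [← Finset.card_filter]
            refine (Finset.card_le_card (t := {Quot.mk r' (a c), Quot.mk r' (b c)}) ?_).trans
              Finset.card_le_two
            intro q hq
            rw [Finset.mem_filter] at hq
            rw [Finset.mem_insert, Finset.mem_singleton]
            by_contra hno
            push Not at hno
            exact hq.2 ⟨fun h => absurd h.symm hno.1, fun h => absurd h.symm hno.2⟩
        _ = 2 * S.card := by rw [Finset.sum_const, smul_eq_mul, mul_comm]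
    have h3Q : 3 * Fintype.card (Quot r') ≤ 2 * S.card := by
      refine le_trans ?_ hcount
      calc 3 * Fintype.card (Quot r') = ∑ _q : Quot r', 3 := by
            rw [Finset.sum_const, Finset.card_univ, smul_eq_mul, mul_comm]
        _ ≤ ∑ q, (Z q).card := Finset.sum_le_sum fun q _ => hdeg q
    omega
  · omega

/-! ### diagrams -/

/-- the compatible colourings without jumps are constant -/
theorem LinK_const (D : GaussDiagram n) (σ : Fin n → Bool) (φ : Fin (2 * n + 1) → ZMod 2)
    (hφ : φ ∈ compat (D.Join σ))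
    (h : ∀ c, φ (D.overPass c).castSucc + φ (D.overPass c).succ = 0) (v w : Fin (2 * n + 1)) :
    φ v = φ w := by
  rw [GaussDiagram.compat_join, arcCond_eq_map D.pass_inj] at hφ
  obtain ⟨⟨t, x⟩, -, rfl⟩ := hφ
  have hx : x = 0 := by
    funext c
    have h1 := h c
    rw [arcParam_apply, arcParam_apply] at h1
    simp only [Fin.val_castSucc, Fin.val_succ] at h1
    rw [arcFun_succ_P D.pass_inj, ← add_assoc, CharTwo.add_self_eq_zero, zero_add] at h1
    exact h1
  have h2 : ∀ k : Fin (2 * n + 1), arcParam D.overPass D.underPass (t, x) k = t := by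
    intro k
    rw [arcParam_apply, hx]
    simp [arcFun]
  rw [h2, h2]

section

variable {I : Fin n → Fin n → Prop} {e : Fin n → Bool}

/-- **Module LinK**: the rank is at least `k / 3 + 1` -/
theorem LinK_gen (D : GaussDiagram n) (hi : ∀ i, ¬ I i i) (hs : ∀ i j, I i j → I j i)
    (hR : D.Cut (cutState I e) = Graph_R I e) {S : Finset (Fin n)} (hS : Transversal I S)
    (h2 : 2 ≤ S.card) :
    S.card + 3 ≤ 3 * finrank (ZMod 2) (span (ZMod 2) (rows (Graph_R I e) : Set (Fin n → ZMod 2))) := by
  classical
  obtain ⟨σ, hσ⟩ : ∃ σ, σ = cutState I e := ⟨_, rfl⟩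
  rw [← hσ] at hR
  have hrow : ∀ c, row (Graph_R I e) c = D.gmat σ c := fun c => by
    rw [← hR]
    exact row_eq D σ c
  have h3 : S.card + 3 ≤ 3 * (D.gmat σ).rank := by
    refine LinK_abs (D.Join σ) (fun c => (D.overPass c).castSucc) (fun c => (D.overPass c).succ)
      (D.gmat σ) (D.gmat_symm σ) (fun φ hφ => D.ker_of_compat σ hφ) (Graph_ker D σ)
      (fun φ hφ h => LinK_const D σ φ hφ h) S (fun i hiS => ?_) (fun i hiS j hjS hij => ?_) h2
    · rw [← hrow, Graph_ne]
      exact hS.1 i hiS
    · refine Graph_inj (e := e) hi hs hS hiS hjS ?_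
      rw [hrow, hrow]
      exact hij
  have h4 : (D.gmat σ).rank =
      finrank (ZMod 2) (span (ZMod 2) (rows (Graph_R I e) : Set (Fin n → ZMod 2))) := by
    have h5 : (rows (Graph_R I e) : Set (Fin n → ZMod 2)) = Set.range (D.gmat σ).row := by
      unfold rows
      rw [Finset.coe_image, Finset.coe_univ, Set.image_univ, funext hrow]
      rfl
    rw [Matrix.rank_eq_finrank_span_row, h5]
  rw [← h4]
  exact h3

end

/-- knotoid diagrams -/
theorem LinK_knotoid (D : GaussDiagram n) {S : Finset (Fin n)} (hS : Transversal D.Interlaced S)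
    (h2 : 2 ≤ S.card) : S.card + 3 ≤ 3 * finrank (ZMod 2)
      (span (ZMod 2) (rows (Graph_R D.Interlaced D.sign) : Set (Fin n → ZMod 2))) :=
  LinK_gen D (Graph_irrefl D) (Graph_int_symm D) rfl hS h2

/-- knot diagrams -/
theorem LinK_knot (g : GaussJones.Code n) (e : Fin n → Bool) {S : Finset (Fin n)}
    (hS : Transversal (GaussJones.Interlaced g) S) (h2 : 2 ≤ S.card) :
    S.card + 3 ≤ 3 * finrank (ZMod 2)
      (span (ZMod 2) (rows (Graph_R (GaussJones.Interlaced g) e) : Set (Fin n → ZMod 2))) := by
  have hi : ∀ i, ¬ GaussJones.Interlaced g i i := by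
    intro i h
    rcases h with h | h <;> exact lt_irrefl _ h.1
  have hs : ∀ i j, GaussJones.Interlaced g i j → GaussJones.Interlaced g j i :=
    fun i j h => h.symm
  have h0 : (UNI.cutOpen g e).Cut (cutState (GaussJones.Interlaced g) e) =
      Graph_R (GaussJones.Interlaced g) e := by
    have h1 : GaussJones.Cut g e (cutState (GaussJones.Interlaced g) e) =
        Graph_R (GaussJones.Interlaced g) e := rfl
    rw [← h1]
    funext i j
    exact (propext (UNI.cut_closed g e _ i j)).symm
  exact LinK_gen (UNI.cutOpen g e) hi hs h0 hS h2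

end Pool.Agent.FHP
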