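import Pool.Agent.FHP.LinK

/-!
# FHP, module LinR: the rank of the cut matrix is the cycle rank of the graph (helper32)
-/

set_option autoImplicit false
set_option linter.unusedSectionVars false

open Submodule Module

namespace Pool.Agent.FHP

open Pool.Agent.SPT Pool.Agent.EQT Pool.Agent.Helper16.Knotoid

variable {n : ℕ}

theorem LinR_gen (D : GaussDiagram n) (σ : Fin n → Bool) :
    D.comps σ + finrank (ZMod 2) (span (ZMod 2) (rows (D.Cut σ) : Set (Fin n → ZMod 2))) =
      n + 1 := by
  classical
  have h4 : (D.gmat σ).rank =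
      finrank (ZMod 2) (span (ZMod 2) (rows (D.Cut σ) : Set (Fin n → ZMod 2))) := by
    have h5 : (rows (D.Cut σ) : Set (Fin n → ZMod 2)) = Set.range (D.gmat σ).row := by
      unfold rows
      rw [Finset.coe_image, Finset.coe_univ, Set.image_univ, funext (row_eq D σ)]
      rfl
    rw [Matrix.rank_eq_finrank_span_row, h5]
  rw [← h4, D.comps_add_rank, add_comm]

/-- knotoid diagrams: the cycle rank -/
theorem LinR_knotoid (D : GaussDiagram n) :
    D.comps (cutState D.Interlaced D.sign) + finrank (ZMod 2) (span (ZMod 2)
      (rows (Graph_R D.Interlaced D.sign) : Set (Fin n → ZMod 2))) = n + 1 :=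
  LinR_gen D (cutState D.Interlaced D.sign)

theorem LinR_cutAll (I : Fin n → Fin n → Prop) (e : Fin n → Bool) :
    (fun i => cutState I e i == e i) = cutAll I := by
  funext i
  unfold cutState cutAll
  by_cases h : ∃ j, Twins I i j ∧ I i j
  · rw [if_pos h, if_pos h]
    cases e i <;> rfl
  · rw [if_neg h, if_neg h]
    cases e i <;> rfl

/-- knot diagrams: the cycle rank -/
theorem LinR_knot (hn : 0 < n) (g : GaussJones.Code n) (e : Fin n → Bool) :
    GaussJones.loops g (cutAll (GaussJones.Interlaced g)) + finrank (ZMod 2) (span (ZMod 2)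
      (rows (Graph_R (GaussJones.Interlaced g) e) : Set (Fin n → ZMod 2))) = n + 1 := by
  have h0 : (UNI.cutOpen g e).Cut (cutState (GaussJones.Interlaced g) e) =
      Graph_R (GaussJones.Interlaced g) e := by
    have h1 : GaussJones.Cut g e (cutState (GaussJones.Interlaced g) e) =
        Graph_R (GaussJones.Interlaced g) e := rfl
    rw [← h1]
    funext i j
    exact (propext (UNI.cut_closed g e _ i j)).symm
  rw [← LinR_cutAll _ e, UNI.loops_closed hn, ← h0]
  exact LinR_gen _ _

end Pool.Agent.FHP
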