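import Pool.Agent.FHP.RelSt
import Pool.Agent.FHP.LinR
import Pool.Agent.FHP.LinD

/-!
# FHP, module LinM: isotropy and the number of independent short vectors (helper32)
-/

set_option autoImplicit false
set_option linter.unusedSectionVars false

open Submodule Module

namespace Pool.Agent.FHP

open Pool.Agent.SPT Pool.Agent.EQT Pool.Agent.Helper16.Knotoid

variable {n : ℕ}

section

variable {I : Fin n → Fin n → Prop} {e : Fin n → Bool}

/-- the entries of the cut matrix are symmetric -/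
theorem LinM_symm (hs : ∀ i j, I i j → I j i) (i j : Fin n) :
    row (Graph_R I e) i j = row (Graph_R I e) j i := by
  classical
  unfold row
  refine if_congr ?_ rfl rfl
  unfold Graph_R
  constructor
  · rintro (h | ⟨h1, h2⟩)
    · exact Or.inl (hs _ _ h)
    · exact Or.inr ⟨h1.symm, h1 ▸ h2⟩
  · rintro (h | ⟨h1, h2⟩)
    · exact Or.inl (hs _ _ h)
    · exact Or.inr ⟨h1.symm, h1 ▸ h2⟩

/-- the rank of the cut matrix is the rank of its restriction to the classes -/
theorem LinM_rank (hi : ∀ i, ¬ I i i) (hs : ∀ i j, I i j → I j i) {S : Finset (Fin n)}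
    (hS : Transversal I S) :
    finrank (ZMod 2) (span (ZMod 2) (rows (Graph_R I e) : Set (Fin n → ZMod 2))) ≤
      (Matrix.of fun (i j : S) => row (Graph_R I e) i.1 j.1).rank := by
  classical
  obtain ⟨M, hM⟩ : ∃ M : Matrix (Fin n) (Fin n) (ZMod 2), ∀ i j, M i j = row (Graph_R I e) i j :=
    ⟨Matrix.of fun i j => row (Graph_R I e) i j, fun i j => rfl⟩
  obtain ⟨A, hA⟩ : ∃ A : Matrix S S (ZMod 2), A = Matrix.of fun (i j : S) =>
      row (Graph_R I e) i.1 j.1 := ⟨_, rfl⟩
  obtain ⟨P, hP⟩ : ∃ P : Matrix S (Fin n) (ZMod 2), ∀ s c, P s c =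
      if row (Graph_R I e) c = row (Graph_R I e) s.1 then 1 else 0 :=
    ⟨Matrix.of fun s c => if row (Graph_R I e) c = row (Graph_R I e) s.1 then 1 else 0,
      fun _ _ => rfl⟩
  have hrank : finrank (ZMod 2) (span (ZMod 2) (rows (Graph_R I e) : Set (Fin n → ZMod 2))) =
      M.rank := by
    have h5 : (rows (Graph_R I e) : Set (Fin n → ZMod 2)) = Set.range M.row := by
      unfold rows
      rw [Finset.coe_image, Finset.coe_univ, Set.image_univ]
      congr 1
      funext i
      funext j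
      exact (hM i j).symm
    rw [Matrix.rank_eq_finrank_span_row, h5]
  have hMP : M = P.transpose * A * P := by
    ext c c'
    rw [Matrix.mul_apply]
    have h1 : ∀ s' : S, (P.transpose * A) c s' = ∑ s : S, P s c * A s s' := fun s' => by
      rw [Matrix.mul_apply]
      rfl
    -- the representative of `c`
    have hrep : ∀ c, row (Graph_R I e) c ≠ 0 → ∃ s : S, row (Graph_R I e) c =
        row (Graph_R I e) s.1 := by
      intro c hc
      obtain ⟨s, hs1, hs2⟩ := hS.2.2 c ((Graph_ne c).1 hc)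
      exact ⟨⟨s, hs1⟩, (Graph_row hi hs c s).2 hs2⟩
    have hone : ∀ (c : Fin n) (f : S → ZMod 2) (s : S),
        row (Graph_R I e) c = row (Graph_R I e) s.1 → ∑ t : S, P t c * f t = f s := by
      intro c f s hcs
      rw [Finset.sum_eq_single s]
      · rw [hP, if_pos hcs, one_mul]
      · intro t _ hts
        rw [hP, if_neg, zero_mul]
        intro h
        exact hts (Subtype.ext (Graph_inj (e := e) hi hs hS t.2 s.2 (h.symm.trans hcs)))
      · intro h
        exact absurd (Finset.mem_univ _) h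
    have hnon : ∀ (c : Fin n) (f : S → ZMod 2), row (Graph_R I e) c = 0 →
        ∑ t : S, P t c * f t = 0 := by
      intro c f hc
      refine Finset.sum_eq_zero fun t _ => ?_
      rw [hP, if_neg, zero_mul]
      intro h
      exact (Graph_ne (e := e) t.1).2 (hS.1 t.1 t.2) (h.symm.trans hc)
    have h2 : ∀ s', (P.transpose * A) c s' * P s' c' = P s' c' * (P.transpose * A) c s' :=
      fun s' => mul_comm _ _
    rw [Finset.sum_congr rfl fun s' _ => h2 s']
    by_cases hc' : row (Graph_R I e) c' = 0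
    · rw [hnon c' _ hc', hM, LinM_symm hs, hc']
      rfl
    · obtain ⟨s', hs'⟩ := hrep c' hc'
      rw [hone c' _ s' hs', h1]
      have h3 : M c c' = row (Graph_R I e) c s'.1 := by
        rw [hM, LinM_symm hs, hs', LinM_symm hs]
      rw [h3]
      by_cases hc : row (Graph_R I e) c = 0
      · rw [hnon c _ hc, hc]
        rfl
      · obtain ⟨s, hs2⟩ := hrep c hc
        rw [hone c _ s hs2, hs2, hA]
        rfl
  rw [hrank, hMP, ← hA]
  exact (Matrix.rank_mul_le_left _ _).trans (Matrix.rank_mul_le_right _ _)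

/-- **Module LinM**: an isotropic space of weights gives many independent short vectors -/
theorem LinM_main (hi : ∀ i, ¬ I i i) (hs : ∀ i j, I i j → I j i) {S : Finset (Fin n)}
    (hS : Transversal I S) (N : ℕ)
    (hiso : ∀ w w' : Fin n → ZMod 2,
      (∀ d, Short I e S N d → ∑ i ∈ S, w i * ((d i : ℤ) : ZMod 2) = 0) →
      (∀ d, Short I e S N d → ∑ i ∈ S, w' i * ((d i : ℤ) : ZMod 2) = 0) →
      ∑ i ∈ S, ∑ j ∈ S, w i * (row (Graph_R I e) i j * w' j) = 0) (m : ℕ)
    (hm : 2 * m ≤ finrank (ZMod 2) (span (ZMod 2)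
      (rows (Graph_R I e) : Set (Fin n → ZMod 2))) + 1) :
    ∃ d : Fin m → Fin n → ℤ, (∀ i, Short I e S N (d i)) ∧
      LinearIndependent (ZMod 2) (fun i v => ((d i v : ℤ) : ZMod 2)) := by
  classical
  have hr := LinM_rank (e := e) hi hs hS
  obtain ⟨x, hx, hLI⟩ := LinD_main (Matrix.of fun (i j : S) => row (Graph_R I e) i.1 j.1)
    {x | ∃ d, Short I e S N d ∧ ∀ i : S, x i = ((d i.1 : ℤ) : ZMod 2)} (fun w w' hw hw' => by
      obtain ⟨u, hu⟩ : ∃ u : Fin n → ZMod 2, ∀ i : S, u i.1 = w i :=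
        ⟨fun i => if h : i ∈ S then w ⟨i, h⟩ else 0, fun i => dif_pos i.2⟩
      obtain ⟨u', hu'⟩ : ∃ u : Fin n → ZMod 2, ∀ i : S, u i.1 = w' i :=
        ⟨fun i => if h : i ∈ S then w' ⟨i, h⟩ else 0, fun i => dif_pos i.2⟩
      have h1 := hiso u u' (fun d hd => by
        rw [← Finset.sum_coe_sort]
        refine Eq.trans (Finset.sum_congr rfl fun i _ => ?_)
          (hw (fun i => ((d i.1 : ℤ) : ZMod 2)) ⟨d, hd, fun i => rfl⟩)
        rw [hu]) (fun d hd => by
        rw [← Finset.sum_coe_sort]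
        refine Eq.trans (Finset.sum_congr rfl fun i _ => ?_)
          (hw' (fun i => ((d i.1 : ℤ) : ZMod 2)) ⟨d, hd, fun i => rfl⟩)
        rw [hu'])
      rw [← h1, ← Finset.sum_coe_sort]
      unfold Matrix.mulVec dotProduct
      refine Finset.sum_congr rfl fun i _ => ?_
      rw [← Finset.sum_coe_sort S fun j => u i.1 * (row (Graph_R I e) i.1 j * u' j),
        Finset.mul_sum]
      refine Finset.sum_congr rfl fun j _ => ?_
      rw [hu, hu']
      rfl) m (by omega)
  choose d hd hdx using hx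
  refine ⟨d, hd, ?_⟩
  obtain ⟨ρ, hρ⟩ : ∃ ρ : (Fin n → ZMod 2) →ₗ[ZMod 2] (S → ZMod 2), ∀ v i, ρ v i = v i.1 :=
    ⟨LinearMap.funLeft (ZMod 2) (ZMod 2) fun i : S => i.1, fun v i => rfl⟩
  refine LinearIndependent.of_comp ρ ?_
  have h2 : ⇑ρ ∘ (fun i v => ((d i v : ℤ) : ZMod 2)) = x := by
    funext i
    funext j
    rw [Function.comp_apply, hρ, hdx]
  rw [h2]
  exact hLI

end

end Pool.Agent.FHP
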