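import Pool.Agent.FHP.St
import Pool.Agent.SPT.Ne

/-!
# FHP, module Near: the polynomial of the spanning sets near `-1`
-/

set_option autoImplicit false
set_option linter.unusedSectionVars false

open Submodule Module

namespace Pool.Agent.FHP

open Pool.Agent.SPT

section

variable {V : Type} [AddCommGroup V] [Module (ZMod 2) V] [DecidableEq V]

open Classical in
/-- the value at `-1` on `P`, `1` elsewhere -/
private noncomputable def Near_S (P : Finset V) (K T : Submodule (ZMod 2) V) : ℝ :=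
  ∑ W ∈ P.powerset, if K ⊔ span (ZMod 2) (W : Set V) = T then (-2) ^ W.card else 0

private theorem Near_insert (P : Finset V) (K T : Submodule (ZMod 2) V) (e : V) (he : e ∉ P) :
    Near_S (insert e P) K T = Near_S P K T - 2 * Near_S P (K ⊔ span (ZMod 2) {e}) T := by
  classical
  unfold Near_S
  rw [Finset.sum_powerset_insert he, sub_eq_add_neg, ← neg_mul, Finset.mul_sum]
  refine congrArg₂ (· + ·) rfl (Finset.sum_congr rfl fun W hW => ?_)
  have heW : e ∉ W := fun h => he (Finset.mem_powerset.1 hW h)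
  rw [ss_insert, Finset.card_insert_of_notMem heW, pow_succ, mul_ite, mul_zero, mul_comm]

private theorem Near_pair (P : Finset V) (K T : Submodule (ZMod 2) V) (v w : V) (hvw : v ≠ w)
    (hv : v ∉ P) (hw : w ∉ P) (h : v + w ∈ K) :
    Near_S (insert v (insert w P)) K T = Near_S P K T := by
  have hv' : v ∉ insert w P := by
    rw [Finset.mem_insert, not_or]
    exact ⟨hvw, hv⟩
  have h1 : K ⊔ span (ZMod 2) {w} = K ⊔ span (ZMod 2) {v} := (ss_par K v w h).symm
  have h2 : K ⊔ span (ZMod 2) {v} ⊔ span (ZMod 2) {w} = K ⊔ span (ZMod 2) {v} := by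
    apply ss_loop
    rw [mem_ss]
    right
    rwa [add_comm]
  rw [Near_insert _ _ _ _ hv', Near_insert _ _ _ _ hw, Near_insert _ _ _ _ hw, h1, h2]
  ring

private theorem Near_empty (K T : Submodule (ZMod 2) V) :
    Near_S ∅ K T = if K = T then 1 else 0 := by
  classical
  unfold Near_S
  rw [Finset.powerset_empty, Finset.sum_singleton, Finset.coe_empty, span_empty, sup_bot_eq,
    Finset.card_empty, pow_zero]

private theorem Near_rank (K T : Submodule (ZMod 2) V) [FiniteDimensional (ZMod 2) T] (hK : K ≤ T)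
    (e : V) (he : e ∉ K) (heT : e ∈ T) :
    K ⊔ span (ZMod 2) {e} ≤ T ∧ finrank (ZMod 2) K + 1 = finrank (ZMod 2) ↥(K ⊔ span (ZMod 2) {e}) := by
  have h1 : K ⊔ span (ZMod 2) {e} ≤ T := sup_le hK (by rwa [span_singleton_le_iff_mem])
  have hf : FiniteDimensional (ZMod 2) ↥(K ⊔ span (ZMod 2) {e}) :=
    Submodule.finiteDimensional_of_le h1
  have hfK : FiniteDimensional (ZMod 2) K := Submodule.finiteDimensional_of_le hK
  refine ⟨h1, le_antisymm ?_ ?_⟩
  · have h2 : K < K ⊔ span (ZMod 2) {e} := by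
      refine lt_of_le_of_ne le_sup_left ?_
      intro h3
      apply he
      rw [h3]
      exact mem_sup_right (mem_span_singleton_self e)
    exact Submodule.finrank_lt_finrank_of_lt h2
  · refine (Submodule.finrank_add_le_finrank_add_finrank K (span (ZMod 2) {e})).trans ?_
    have h2 : finrank (ZMod 2) (span (ZMod 2) ({e} : Set V)) ≤ 1 := by
      refine (finrank_span_le_card (R := ZMod 2) ({e} : Set V)).trans ?_
      simp
    omega

private theorem Near_pos (T : Submodule (ZMod 2) V) [FiniteDimensional (ZMod 2) T] (m : ℕ) :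
    ∀ (P : Finset V), P.card ≤ m → ∀ (K : Submodule (ZMod 2) V) (r : ℕ), K ≤ T →
      finrank (ZMod 2) K + r = finrank (ZMod 2) T → (∀ v ∈ P, v ∉ K ∧ v ∈ T) →
      0 ≤ (-1) ^ r * Near_S P K T := by
  classical
  induction m with
  | zero =>
    intro P hP K r hK hr _
    rw [Finset.card_eq_zero.1 (Nat.le_zero.1 hP), Near_empty]
    by_cases h : K = T
    · rw [if_pos h]
      rw [h] at hr
      have : r = 0 := by omega
      rw [this]
      norm_num
    · rw [if_neg h, mul_zero]
  | succ m ih =>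
    intro P hP K r hK hr hPK
    by_cases hpair : ∃ v ∈ P, ∃ w ∈ P, v ≠ w ∧ v + w ∈ K
    · obtain ⟨v, hv, w, hw, hvw, h⟩ := hpair
      have h1 : P = insert v (insert w ((P.erase v).erase w)) := by
        rw [Finset.insert_erase (Finset.mem_erase.2 ⟨hvw.symm, hw⟩), Finset.insert_erase hv]
      have h2 : v ∉ (P.erase v).erase w := fun h3 =>
        Finset.notMem_erase v P (Finset.mem_of_mem_erase h3)
      have h3 : w ∉ (P.erase v).erase w := Finset.notMem_erase w _
      rw [h1, Near_pair _ _ _ _ _ hvw h2 h3 h]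
      refine ih _ ?_ K r hK hr fun u hu => hPK u
        (Finset.mem_of_mem_erase (Finset.mem_of_mem_erase hu))
      have h4 : ((P.erase v).erase w).card ≤ (P.erase v).card := Finset.card_erase_le
      have h5 := Finset.card_erase_of_mem hv
      omega
    · push Not at hpair
      rcases P.eq_empty_or_nonempty with rfl | ⟨e, he⟩
      · rw [Near_empty]
        by_cases h : K = T
        · rw [if_pos h]
          rw [h] at hr
          have : r = 0 := by omega
          rw [this]
          norm_num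
        · rw [if_neg h, mul_zero]
      · obtain ⟨h1, h2⟩ := Near_rank K T hK e (hPK e he).1 (hPK e he).2
        have hcard := Finset.card_erase_of_mem he
        have hle : finrank (ZMod 2) ↥(K ⊔ span (ZMod 2) {e}) ≤ finrank (ZMod 2) T :=
          Submodule.finrank_mono h1
        obtain ⟨s, rfl⟩ : ∃ s, r = s + 1 := ⟨r - 1, by omega⟩
        have h3 := ih (P.erase e) (by omega) K (s + 1) hK hr fun u hu =>
          hPK u (Finset.mem_of_mem_erase hu)
        have h4 := ih (P.erase e) (by omega) (K ⊔ span (ZMod 2) {e}) s h1 (by omega)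
          fun u hu => ⟨fun h5 => by
            rcases (mem_ss K e u).1 h5 with h6 | h6
            · exact (hPK u (Finset.mem_of_mem_erase hu)).1 h6
            · exact hpair u (Finset.mem_of_mem_erase hu) e he (Finset.ne_of_mem_erase hu) h6,
            (hPK u (Finset.mem_of_mem_erase hu)).2⟩
        rw [← Finset.insert_erase he, Near_insert _ _ _ _ (Finset.notMem_erase e P)]
        rw [pow_succ] at h3 ⊢
        linarith

private theorem Near_mono (T : Submodule (ZMod 2) V) [FiniteDimensional (ZMod 2) T]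
    (P : Finset V) (e : V) (he : e ∉ P) (h0 : (0 : V) ∉ insert e P) (hT : ∀ v ∈ insert e P, v ∈ T) :
    (-1) ^ finrank (ZMod 2) T * Near_S P ⊥ T ≤
      (-1) ^ finrank (ZMod 2) T * Near_S (insert e P) ⊥ T := by
  classical
  have he0 : e ∉ (⊥ : Submodule (ZMod 2) V) := by
    rw [mem_bot]
    rintro rfl
    exact h0 (Finset.mem_insert_self _ _)
  obtain ⟨h1, h2⟩ := Near_rank ⊥ T bot_le e he0 (hT e (Finset.mem_insert_self _ _))
  rw [finrank_bot] at h2
  have hle : finrank (ZMod 2) ↥(⊥ ⊔ span (ZMod 2) {e}) ≤ finrank (ZMod 2) T :=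
    Submodule.finrank_mono h1
  obtain ⟨s, hs⟩ : ∃ s, finrank (ZMod 2) T = s + 1 := ⟨finrank (ZMod 2) T - 1, by omega⟩
  have h4 := Near_pos T P.card P le_rfl (⊥ ⊔ span (ZMod 2) {e}) s h1 (by omega)
    fun u hu => ⟨fun h5 => by
      rcases (mem_ss ⊥ e u).1 h5 with h6 | h6
      · rw [mem_bot] at h6
        rw [h6] at hu
        exact h0 (Finset.mem_insert_of_mem hu)
      · rw [mem_bot] at h6
        have h7 : u = e := by
          have h8 : u = (u + e) + e := by rw [add_assoc, aself, add_zero]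
          rw [h8, h6, zero_add]
        rw [h7] at hu
        exact he hu,
      hT u (Finset.mem_insert_of_mem hu)⟩
  rw [Near_insert _ _ _ _ he, hs, pow_succ]
  linarith

private theorem Near_sub (f : Finset V → ℝ) (X : Finset V)
    (hf : ∀ (P : Finset V) (e : V), e ∉ P → insert e P ⊆ X → f P ≤ f (insert e P)) (m : ℕ) :
    ∀ C : Finset V, C ⊆ X → (X \ C).card = m → f C ≤ f X := by
  induction m with
  | zero =>
    intro C hC h
    rw [Finset.card_eq_zero, Finset.sdiff_eq_empty_iff_subset] at h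
    rw [Finset.Subset.antisymm hC h]
  | succ m ih =>
    intro C hC h
    have h1 : (X \ C).Nonempty := by
      rw [← Finset.card_pos]
      omega
    obtain ⟨e, he⟩ := h1
    rw [Finset.mem_sdiff] at he
    have h2 : insert e C ⊆ X := Finset.insert_subset he.1 hC
    refine (hf C e he.2 h2).trans (ih (insert e C) h2 ?_)
    have h3 : X \ insert e C = (X \ C).erase e := by
      ext u
      simp only [Finset.mem_sdiff, Finset.mem_insert, Finset.mem_erase, not_or]
      tauto
    rw [h3, Finset.card_erase_of_mem (Finset.mem_sdiff.2 he), h]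
    rfl

/-- the values at the sign vectors -/
private theorem Near_signs (X : Finset V) (h0 : (0 : V) ∉ X) (T : Submodule (ZMod 2) V)
    (hT : span (ZMod 2) (X : Set V) = T) :
    (2 : ℝ) ^ finrank (ZMod 2) T ≤ |Near_S X ⊥ T| ∧
      ∀ C ⊆ X, |Near_S C ⊥ T| ≤ |Near_S X ⊥ T| := by
  classical
  have hfd : FiniteDimensional (ZMod 2) T := by
    rw [← hT]
    exact FiniteDimensional.span_finset _ X
  have hXT : ∀ v ∈ X, v ∈ T := fun v hv => by
    rw [← hT]
    exact subset_span hv
  have habs : ∀ C ⊆ X, |Near_S C ⊥ T| = (-1) ^ finrank (ZMod 2) T * Near_S C ⊥ T := by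
    intro C hC
    have h1 := Near_pos T C.card C le_rfl ⊥ (finrank (ZMod 2) T) bot_le (by
      rw [finrank_bot, zero_add]) fun v hv => ⟨fun h => by
        rw [mem_bot] at h
        rw [h] at hv
        exact h0 (hC hv), hXT v (hC hv)⟩
    rw [← abs_of_nonneg h1, abs_mul, abs_pow, abs_neg, abs_one, one_pow, one_mul]
  have hmono : ∀ C ⊆ X, |Near_S C ⊥ T| ≤ |Near_S X ⊥ T| := by
    intro C hC
    rw [habs C hC, habs X subset_rfl]
    exact Near_sub (fun C => (-1) ^ finrank (ZMod 2) T * Near_S C ⊥ T) X (fun P e he hP =>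
      Near_mono T P e he (fun h => h0 (hP h)) fun v hv => hXT v (hP hv)) _ C hC rfl
  refine ⟨?_, hmono⟩
  obtain ⟨b, hbX, hbs, hbi⟩ := exists_linearIndependent (ZMod 2) (X : Set V)
  have hbf : b.Finite := (Finset.finite_toSet X).subset hbX
  obtain ⟨C, rfl⟩ : ∃ C : Finset V, (C : Set V) = b := ⟨hbf.toFinset, hbf.coe_toFinset⟩
  have hCX : C ⊆ X := Finset.coe_subset.1 hbX
  refine le_trans ?_ (hmono C hCX)
  have hcard : C.card = finrank (ZMod 2) T := by
    rw [← hT, ← hbs, finrank_span_finset_eq_card hbi]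
  have h1 : Near_S C ⊥ T = (-2) ^ C.card := by
    unfold Near_S
    rw [Finset.sum_eq_single C]
    · rw [if_pos (by rw [bot_sup_eq, hbs, hT])]
    · intro W hW hWC
      rw [if_neg]
      intro h2
      rw [bot_sup_eq] at h2
      apply hWC
      refine Finset.eq_of_subset_of_card_le (Finset.mem_powerset.1 hW) ?_
      rw [hcard, ← h2]
      exact finrank_span_finset_le_card W
    · intro h
      exact absurd (Finset.mem_powerset_self C) h
  rw [h1, abs_pow, abs_neg, hcard]
  norm_num

/-! ### multiaffine functions -/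

private theorem Near_aff1 (L : (V → ℂ) → ℂ)
    (hL : ∀ y v, L y = L (Function.update y v (-1)) +
      (y v + 1) / 2 * (L (Function.update y v 1) - L (Function.update y v (-1))))
    (M : ℝ) (hM : ∀ y : V → ℂ, (∀ v, y v = 1 ∨ y v = -1) → ‖L y‖ ≤ M) (x : V → ℂ)
    (Y : Finset V) : ∀ (y : V → ℂ), (∀ v ∈ Y, y v = x v) → (∀ v, v ∉ Y → y v = 1 ∨ y v = -1) →
      ‖L y‖ ≤ M * ∏ v ∈ Y, (1 + ‖x v + 1‖) := by
  classical
  induction Y using Finset.induction_on with
  | empty =>
    intro y _ hy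
    rw [Finset.prod_empty, mul_one]
    exact hM y fun v => hy v (Finset.notMem_empty v)
  | insert v Y hv ih =>
    intro y hy1 hy2
    have key : ∀ s : ℂ, (s = 1 ∨ s = -1) →
        ‖L (Function.update y v s)‖ ≤ M * ∏ v ∈ Y, (1 + ‖x v + 1‖) := by
      intro s hs
      refine ih _ (fun u hu => ?_) (fun u hu => ?_)
      · rw [Function.update_of_ne (by rintro rfl; exact hv hu)]
        exact hy1 u (Finset.mem_insert_of_mem hu)
      · by_cases huv : u = v
        · rw [huv, Function.update_self]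
          exact hs
        · rw [Function.update_of_ne huv]
          exact hy2 u (by
            rw [Finset.mem_insert, not_or]
            exact ⟨huv, hu⟩)
    have h1 := key 1 (Or.inl rfl)
    have h2 := key (-1) (Or.inr rfl)
    rw [Finset.prod_insert hv, hL y v, hy1 v (Finset.mem_insert_self v Y)]
    set A := M * ∏ v ∈ Y, (1 + ‖x v + 1‖) with hA
    have h3 : ‖(x v + 1) / 2 * (L (Function.update y v 1) - L (Function.update y v (-1)))‖ ≤
        ‖x v + 1‖ * A := by
      rw [norm_mul, norm_div, Complex.norm_ofNat]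
      have h4 := norm_sub_le (L (Function.update y v 1)) (L (Function.update y v (-1)))
      have h5 : ‖L (Function.update y v 1) - L (Function.update y v (-1))‖ ≤ 2 * A := by linarith
      calc ‖x v + 1‖ / 2 * ‖L (Function.update y v 1) - L (Function.update y v (-1))‖
          ≤ ‖x v + 1‖ / 2 * (2 * A) := mul_le_mul_of_nonneg_left h5 (by positivity)
        _ = ‖x v + 1‖ * A := by ring
    refine (norm_add_le _ _).trans ?_
    have h6 : M * ((1 + ‖x v + 1‖) * ∏ v ∈ Y, (1 + ‖x v + 1‖)) = A + ‖x v + 1‖ * A := by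
      rw [hA]
      ring
    rw [h6]
    linarith

private theorem Near_aff2 (L : (V → ℂ) → ℂ)
    (hL : ∀ y v, L y = L (Function.update y v (-1)) +
      (y v + 1) / 2 * (L (Function.update y v 1) - L (Function.update y v (-1))))
    (M : ℝ) (hM : ∀ y : V → ℂ, (∀ v, y v = 1 ∨ y v = -1) → ‖L y‖ ≤ M) (x : V → ℂ)
    (Y : Finset V) :
    ‖L (fun v => if v ∈ Y then x v else -1) - L (fun _ => -1)‖ ≤
      M * (∏ v ∈ Y, (1 + ‖x v + 1‖) - 1) := by
  classical
  induction Y using Finset.induction_on with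
  | empty =>
    simp
  | insert v Y hv ih =>
    have h0 : Function.update (fun u => if u ∈ insert v Y then x u else (-1 : ℂ)) v (-1) =
        fun u => if u ∈ Y then x u else -1 := by
      funext u
      by_cases huv : u = v
      · rw [huv, Function.update_self, if_neg hv]
      · rw [Function.update_of_ne huv]
        have h1 : u ∈ insert v Y ↔ u ∈ Y := by
          rw [Finset.mem_insert]
          tauto
        rw [if_congr h1 rfl rfl]
    have key : ∀ s : ℂ, (s = 1 ∨ s = -1) →
        ‖L (Function.update (fun u => if u ∈ insert v Y then x u else (-1 : ℂ)) v s)‖ ≤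
          M * ∏ v ∈ Y, (1 + ‖x v + 1‖) := by
      intro s hs
      refine Near_aff1 L hL M hM x Y _ (fun u hu => ?_) (fun u hu => ?_)
      · rw [Function.update_of_ne (by rintro rfl; exact hv hu),
          if_pos (Finset.mem_insert_of_mem hu)]
      · by_cases huv : u = v
        · rw [huv, Function.update_self]
          exact hs
        · rw [Function.update_of_ne huv, if_neg]
          · exact Or.inr rfl
          · rw [Finset.mem_insert, not_or]
            exact ⟨huv, hu⟩
    have h1 := key 1 (Or.inl rfl)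
    have h2 := key (-1) (Or.inr rfl)
    rw [hL (fun u => if u ∈ insert v Y then x u else (-1 : ℂ)) v]
    simp only [Finset.mem_insert_self, if_true]
    rw [h0] at h2 ⊢
    rw [Finset.prod_insert hv]
    set A := M * ∏ v ∈ Y, (1 + ‖x v + 1‖) with hA
    set L1 := L (Function.update (fun u => if u ∈ insert v Y then x u else (-1 : ℂ)) v 1)
    set L2 := L (fun u => if u ∈ Y then x u else -1)
    have h3 : ‖(x v + 1) / 2 * (L1 - L2)‖ ≤ ‖x v + 1‖ * A := by
      rw [norm_mul, norm_div, Complex.norm_ofNat]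
      have h4 := norm_sub_le L1 L2
      have h5 : ‖L1 - L2‖ ≤ 2 * A := by linarith
      calc ‖x v + 1‖ / 2 * ‖L1 - L2‖
          ≤ ‖x v + 1‖ / 2 * (2 * A) := mul_le_mul_of_nonneg_left h5 (by positivity)
        _ = ‖x v + 1‖ * A := by ring
    have h6 : M * ((1 + ‖x v + 1‖) * ∏ v ∈ Y, (1 + ‖x v + 1‖) - 1) =
        M * (∏ v ∈ Y, (1 + ‖x v + 1‖) - 1) + ‖x v + 1‖ * A := by
      rw [hA]
      ring
    have h7 : L2 + (x v + 1) / 2 * (L1 - L2) - L (fun _ => -1) =
        (L2 - L (fun _ => -1)) + (x v + 1) / 2 * (L1 - L2) := by ring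
    rw [h6, h7]
    refine (norm_add_le _ _).trans ?_
    linarith

/-! ### the polynomial of the spanning sets -/

private theorem Near_multi (X : Finset V) (y : V → ℂ) (v : V) :
    PP X ⊥ y = PP X ⊥ (Function.update y v (-1)) +
      (y v + 1) / 2 * (PP X ⊥ (Function.update y v 1) - PP X ⊥ (Function.update y v (-1))) := by
  classical
  unfold PP
  rw [← Finset.sum_sub_distrib, Finset.mul_sum, ← Finset.sum_add_distrib]
  refine Finset.sum_congr rfl fun W _ => ?_
  by_cases h : Spans ⊥ X W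
  · rw [if_pos h, if_pos h, if_pos h]
    by_cases hv : v ∈ W
    · have key : ∀ s : ℂ, ∏ u ∈ W, (Function.update y v s u - 1) =
          (s - 1) * ∏ u ∈ W.erase v, (y u - 1) := by
        intro s
        rw [← Finset.mul_prod_erase W _ hv, Function.update_self]
        congr 1
        refine Finset.prod_congr rfl fun u hu => ?_
        rw [Function.update_of_ne (Finset.ne_of_mem_erase hu)]
      rw [key, key, ← Finset.mul_prod_erase W _ hv]
      ring
    · have key : ∀ s : ℂ, ∏ u ∈ W, (Function.update y v s u - 1) = ∏ u ∈ W, (y u - 1) := by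
        intro s
        refine Finset.prod_congr rfl fun u hu => ?_
        rw [Function.update_of_ne (by rintro rfl; exact hv hu)]
      rw [key, key]
      ring
  · rw [if_neg h, if_neg h, if_neg h]
    ring

private theorem Near_val (X : Finset V) (y : V → ℂ) (hy : ∀ v, y v = 1 ∨ y v = -1) :
    PP X ⊥ y = ((Near_S (X.filter fun v => y v = -1) ⊥ (span (ZMod 2) (X : Set V)) : ℝ) : ℂ) := by
  classical
  unfold PP Near_S
  rw [Complex.ofReal_sum]
  have h1 : (X.filter fun v => y v = -1).powerset ⊆ X.powerset :=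
    Finset.powerset_mono.2 (Finset.filter_subset _ _)
  rw [← Finset.sum_subset h1]
  · refine Finset.sum_congr rfl fun W hW => ?_
    have h2 : ∏ v ∈ W, (y v - 1) = (-2) ^ W.card := by
      rw [← Finset.prod_const]
      refine Finset.prod_congr rfl fun v hv => ?_
      rw [(Finset.mem_filter.1 (Finset.mem_powerset.1 hW hv)).2]
      norm_num
    unfold Spans
    rw [bot_sup_eq, bot_sup_eq]
    by_cases h3 : span (ZMod 2) (W : Set V) = span (ZMod 2) (X : Set V)
    · rw [if_pos h3, if_pos h3, h2]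
      push_cast
      rfl
    · rw [if_neg h3, if_neg h3]
      rfl
  · intro W hW hW2
    have h3 : ∃ v ∈ W, y v = 1 := by
      by_contra h4
      push Not at h4
      apply hW2
      rw [Finset.mem_powerset]
      intro v hv
      rw [Finset.mem_filter]
      exact ⟨Finset.mem_powerset.1 hW hv, (hy v).resolve_left (h4 v hv)⟩
    obtain ⟨v, hv, h4⟩ := h3
    rw [Finset.prod_eq_zero hv (by rw [h4, sub_self]), ite_self]

private theorem Near_exp (k : ℕ) : (1 + 1 / (3 * (k : ℝ))) ^ k ≤ 3 / 2 := by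
  rcases Nat.eq_zero_or_pos k with rfl | hk
  · norm_num
  have hk' : (0 : ℝ) < k := by exact_mod_cast hk
  have h1 : 1 + 1 / (3 * (k : ℝ)) ≤ Real.exp (1 / (3 * (k : ℝ))) := by
    rw [add_comm]
    exact Real.add_one_le_exp _
  have h2 : (1 + 1 / (3 * (k : ℝ))) ^ k ≤ Real.exp (1 / 3) := by
    calc (1 + 1 / (3 * (k : ℝ))) ^ k ≤ Real.exp (1 / (3 * (k : ℝ))) ^ k :=
          pow_le_pow_left₀ (by positivity) h1 k
      _ = Real.exp (1 / 3) := by
          rw [← Real.exp_nat_mul]
          congr 1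
          field_simp
  refine h2.trans ?_
  refine le_of_pow_le_pow_left₀ (n := 3) (by norm_num) (by norm_num) ?_
  rw [← Real.exp_nat_mul]
  have h3 : ((3 : ℕ) : ℝ) * (1 / 3) = 1 := by norm_num
  rw [h3]
  have := Real.exp_one_lt_d9
  norm_num at this ⊢
  linarith

private theorem Near_main (X : Finset V) (h0 : (0 : V) ∉ X) (k : ℕ) (hk : X.card ≤ k) (x : V → ℂ)
    (hx : ∀ v ∈ X, ‖x v + 1‖ ≤ 1 / (3 * k)) :
    (2 : ℝ) ^ finrank (ZMod 2) (span (ZMod 2) (X : Set V)) ≤ 2 * ‖PP X ⊥ x‖ := by
  classical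
  obtain ⟨h1, h2⟩ := Near_signs X h0 _ rfl
  set M := |Near_S X ⊥ (span (ZMod 2) (X : Set V))| with hMdef
  have hM0 : 0 ≤ M := abs_nonneg _
  have hM : ∀ y : V → ℂ, (∀ v, y v = 1 ∨ y v = -1) → ‖PP X ⊥ y‖ ≤ M := by
    intro y hy
    rw [Near_val X y hy, Complex.norm_real, Real.norm_eq_abs]
    exact h2 _ (Finset.filter_subset _ _)
  have h3 := Near_aff2 (PP X ⊥) (Near_multi X) M hM x X
  have h4 : PP X ⊥ (fun v => if v ∈ X then x v else -1) = PP X ⊥ x := by
    unfold PP
    refine Finset.sum_congr rfl fun W hW => ?_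
    have h5 : ∏ v ∈ W, ((if v ∈ X then x v else -1) - 1) = ∏ v ∈ W, (x v - 1) :=
      Finset.prod_congr rfl fun v hv => by rw [if_pos (Finset.mem_powerset.1 hW hv)]
    rw [h5]
  have h5 : ‖PP X ⊥ (fun _ => -1)‖ = M := by
    rw [Near_val X _ fun _ => Or.inr rfl, Complex.norm_real, Real.norm_eq_abs, hMdef]
    simp only [Finset.filter_true]
  have h6 : ∏ v ∈ X, (1 + ‖x v + 1‖) ≤ 3 / 2 := by
    calc ∏ v ∈ X, (1 + ‖x v + 1‖) ≤ ∏ v ∈ X, (1 + 1 / (3 * (k : ℝ))) :=
          Finset.prod_le_prod (fun v _ => by positivity) fun v hv => by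
            have := hx v hv
            linarith
      _ = (1 + 1 / (3 * (k : ℝ))) ^ X.card := Finset.prod_const _
      _ ≤ (1 + 1 / (3 * (k : ℝ))) ^ k := by
          refine pow_le_pow_right₀ ?_ hk
          have : (0 : ℝ) ≤ 1 / (3 * (k : ℝ)) := by positivity
          linarith
      _ ≤ 3 / 2 := Near_exp k
  rw [h4] at h3
  have h7 : M * (∏ v ∈ X, (1 + ‖x v + 1‖) - 1) ≤ M * (1 / 2) :=
    mul_le_mul_of_nonneg_left (by linarith) hM0
  have h8 : ‖PP X ⊥ (fun _ => -1)‖ - ‖PP X ⊥ x‖ ≤ ‖PP X ⊥ x - PP X ⊥ (fun _ => -1)‖ := by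
    rw [norm_sub_rev]
    exact norm_sub_norm_le _ _
  rw [h5] at h8
  linarith

/-! ### near any spanning sign vector -/

private theorem Near_aff3 (L : (V → ℂ) → ℂ)
    (hL : ∀ y v, L y = L (Function.update y v (-1)) +
      (y v + 1) / 2 * (L (Function.update y v 1) - L (Function.update y v (-1))))
    (M : ℝ) (hM : ∀ y : V → ℂ, (∀ v, y v = 1 ∨ y v = -1) → ‖L y‖ ≤ M) (x s : V → ℂ)
    (hs : ∀ v, s v = 1 ∨ s v = -1) (Y : Finset V) :
    ‖L (fun v => if v ∈ Y then x v else s v) - L s‖ ≤
      M * (∏ v ∈ Y, (1 + ‖x v - s v‖) - 1) := by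
  classical
  -- change of variables: `y ↦ -s * y`
  have hss : ∀ v, s v * s v = 1 := by
    intro v
    rcases hs v with h | h <;> rw [h] <;> norm_num
  have hsn : ∀ v, ‖s v‖ = 1 := by
    intro v
    rcases hs v with h | h <;> rw [h] <;> norm_num
  have hL' : ∀ (y : V → ℂ) (v : V), L (fun u => -s u * y u) =
      L (fun u => -s u * Function.update y v (-1) u) +
      (y v + 1) / 2 * (L (fun u => -s u * Function.update y v 1 u) -
        L (fun u => -s u * Function.update y v (-1) u)) := by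
    intro y v
    have h1 : ∀ t : ℂ, (fun u => -s u * Function.update y v t u) =
        Function.update (fun u => -s u * y u) v (-s v * t) := by
      intro t
      funext u
      by_cases huv : u = v
      · rw [huv, Function.update_self, Function.update_self]
      · rw [Function.update_of_ne huv, Function.update_of_ne huv]
    rw [h1, h1, hL (fun u => -s u * y u) v]
    rcases hs v with h | h
    · simp only [h]
      ring_nf
    · simp only [h]
      ring_nf
  have h2 := Near_aff2 (fun y => L (fun u => -s u * y u)) hL' M (fun y hy => hM _ fun v => by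
    rcases hs v with h | h <;> rcases hy v with h' | h' <;> simp [h, h'])
    (fun v => -s v * x v) Y
  have h3 : (fun u => -s u * (if u ∈ Y then -s u * x u else -1)) =
      fun v => if v ∈ Y then x v else s v := by
    funext u
    by_cases hu : u ∈ Y
    · rw [if_pos hu, if_pos hu]
      calc -s u * (-s u * x u) = (s u * s u) * x u := by ring
        _ = x u := by rw [hss, one_mul]
    · rw [if_neg hu, if_neg hu]
      ring
  have h4 : (fun u => -s u * (-1 : ℂ)) = s := by
    funext u
    ring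
  have h5 : ∀ v, ‖-s v * x v + 1‖ = ‖x v - s v‖ := by
    intro v
    have h6 : -s v * x v + 1 = -s v * (x v - s v) := by
      calc -s v * x v + 1 = -s v * x v + s v * s v := by rw [hss]
        _ = -s v * (x v - s v) := by ring
    rw [h6, norm_mul, norm_neg, hsn, one_mul]
  simp only [h3, h4, h5] at h2
  exact h2

private theorem Near_three (X : Finset V) (T : Submodule (ZMod 2) V) :
    |Near_S X ⊥ T| ≤ 3 ^ X.card := by
  classical
  unfold Near_S
  refine (Finset.abs_sum_le_sum_abs _ _).trans ?_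
  have h1 : ∑ W ∈ X.powerset, (2 : ℝ) ^ W.card * 1 ^ (X.card - W.card) = 3 ^ X.card := by
    rw [Finset.sum_pow_mul_eq_add_pow]
    norm_num
  rw [← h1]
  refine Finset.sum_le_sum fun W _ => ?_
  rw [one_pow, mul_one]
  split_ifs
  · rw [abs_pow, abs_neg]
    norm_num
  · rw [abs_zero]
    positivity

private theorem Near_bern (k : ℕ) (hk : 1 ≤ k) :
    3 ^ k * ((1 + 1 / (2 * (k : ℝ) * 3 ^ k)) ^ k - 1) ≤ 1 := by
  have hk' : (1 : ℝ) ≤ k := by exact_mod_cast hk
  obtain ⟨η, hη⟩ : ∃ η : ℝ, η = 1 / (2 * (k : ℝ) * 3 ^ k) := ⟨_, rfl⟩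
  have h3 : (3 : ℝ) ≤ 3 ^ k := by
    calc (3 : ℝ) = 3 ^ 1 := by norm_num
      _ ≤ 3 ^ k := pow_le_pow_right₀ (by norm_num) hk
  have hη0 : 0 < η := by
    rw [hη]
    positivity
  have h4 : (k : ℝ) * η * (2 * 3 ^ k) = 1 := by
    rw [hη]
    field_simp
  have h5 : η ≤ 1 := by
    have h6 : η ≤ k * η := by nlinarith
    nlinarith
  have h6 : 1 + (k : ℝ) * (-η) ≤ (1 + -η) ^ k := one_add_mul_le_pow (by linarith) k
  have h7 : (1 + η) ^ k * (1 + -η) ^ k ≤ 1 := by
    rw [← mul_pow]
    refine pow_le_one₀ ?_ ?_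
    · nlinarith
    · nlinarith
  have h8 : 0 < (1 + η) ^ k := by positivity
  have h9 : (1 + η) ^ k * (1 - k * η) ≤ 1 := by
    refine le_trans ?_ h7
    refine mul_le_mul_of_nonneg_left ?_ h8.le
    linarith
  have h10 : (k : ℝ) * η ≤ 1 / 6 := by nlinarith
  rw [← hη]
  -- (1+η)^k ≤ 1 / (1 - t) ≤ 1 + 2 t
  have h11 : (1 + η) ^ k ≤ 1 + 2 * (k * η) := by
    have h12 : 0 < 1 - (k : ℝ) * η := by linarith
    have h13 : (1 + η) ^ k * (1 - k * η) ≤ (1 + 2 * (k * η)) * (1 - k * η) := by
      refine h9.trans ?_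
      have : 0 ≤ (k : ℝ) * η := by positivity
      nlinarith
    exact le_of_mul_le_mul_right h13 h12
  have h14 : (0 : ℝ) < 3 ^ k := by positivity
  calc 3 ^ k * ((1 + η) ^ k - 1) ≤ 3 ^ k * (2 * (k * η)) :=
        mul_le_mul_of_nonneg_left (by linarith) h14.le
    _ = (k : ℝ) * η * (2 * 3 ^ k) := by ring
    _ = 1 := h4

private theorem Near_mainY (X : Finset V) (h0 : (0 : V) ∉ X) (k : ℕ) (hk : X.card ≤ k)
    (Y : Finset V) (hYX : Y ⊆ X)
    (hY : span (ZMod 2) (Y : Set V) = span (ZMod 2) (X : Set V)) (x : V → ℂ)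
    (hx1 : ∀ v ∈ Y, ‖x v + 1‖ ≤ 1 / (2 * k * 3 ^ k))
    (hx2 : ∀ v ∈ X, v ∉ Y → ‖x v - 1‖ ≤ 1 / (2 * k * 3 ^ k)) :
    (2 : ℝ) ^ finrank (ZMod 2) (span (ZMod 2) (X : Set V)) ≤ 2 * ‖PP X ⊥ x‖ := by
  classical
  obtain ⟨-, h2⟩ := Near_signs X h0 _ rfl
  obtain ⟨h1, -⟩ := Near_signs Y (fun h => h0 (hYX h)) _ hY
  have hM : ∀ y : V → ℂ, (∀ v, y v = 1 ∨ y v = -1) → ‖PP X ⊥ y‖ ≤ 3 ^ X.card := by
    intro y hy
    rw [Near_val X y hy, Complex.norm_real, Real.norm_eq_abs]
    exact (h2 _ (Finset.filter_subset _ _)).trans (Near_three _ _)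
  obtain ⟨s, hs⟩ : ∃ s : V → ℂ, s = fun v => if v ∈ Y then -1 else 1 := ⟨_, rfl⟩
  have hs1 : ∀ v, s v = 1 ∨ s v = -1 := by
    intro v
    rw [hs]
    by_cases hv : v ∈ Y
    · right
      simp only [if_pos hv]
    · left
      simp only [if_neg hv]
  have h3 := Near_aff3 (PP X ⊥) (Near_multi X) (3 ^ X.card) hM x s hs1 X
  have h4 : PP X ⊥ (fun v => if v ∈ X then x v else s v) = PP X ⊥ x := by
    unfold PP
    refine Finset.sum_congr rfl fun W hW => ?_
    have h5 : ∏ v ∈ W, ((if v ∈ X then x v else s v) - 1) = ∏ v ∈ W, (x v - 1) :=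
      Finset.prod_congr rfl fun v hv => by rw [if_pos (Finset.mem_powerset.1 hW hv)]
    rw [h5]
  have h5 : ‖PP X ⊥ s‖ = |Near_S Y ⊥ (span (ZMod 2) (X : Set V))| := by
    rw [Near_val X s hs1, Complex.norm_real, Real.norm_eq_abs]
    have h6 : (X.filter fun v => s v = -1) = Y := by
      ext v
      rw [Finset.mem_filter, hs]
      constructor
      · rintro ⟨_, h⟩
        by_contra hv
        simp only [if_neg hv] at h
        norm_num at h
      · intro hv
        exact ⟨hYX hv, by simp only [if_pos hv]⟩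
    rw [h6]
  rcases X.eq_empty_or_nonempty with rfl | hne
  · rw [Finset.prod_empty, sub_self, mul_zero, h4] at h3
    have h6 : ‖PP ∅ ⊥ s‖ - ‖PP ∅ ⊥ x‖ ≤ ‖PP ∅ ⊥ x - PP ∅ ⊥ s‖ := by
      rw [norm_sub_rev]
      exact norm_sub_norm_le _ _
    rw [h5] at h6
    have h7 : (0 : ℝ) ≤ ‖PP ∅ ⊥ x‖ := norm_nonneg _
    linarith
  · have hk1 : 1 ≤ k := (Nat.succ_le_of_lt (Finset.card_pos.2 hne)).trans hk
    have hk' : (1 : ℝ) ≤ k := by exact_mod_cast hk1
    have h6 : ∏ v ∈ X, (1 + ‖x v - s v‖) ≤ (1 + 1 / (2 * (k : ℝ) * 3 ^ k)) ^ k := by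
      calc ∏ v ∈ X, (1 + ‖x v - s v‖) ≤ ∏ v ∈ X, (1 + 1 / (2 * (k : ℝ) * 3 ^ k)) := by
            refine Finset.prod_le_prod (fun v _ => by positivity) fun v hv => ?_
            by_cases hvY : v ∈ Y
            · have h7 := hx1 v hvY
              have h8 : s v = -1 := by rw [hs]; simp only [if_pos hvY]
              rw [h8, sub_neg_eq_add]
              linarith
            · have h7 := hx2 v hv hvY
              have h8 : s v = 1 := by rw [hs]; simp only [if_neg hvY]
              rw [h8]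
              linarith
        _ = (1 + 1 / (2 * (k : ℝ) * 3 ^ k)) ^ X.card := Finset.prod_const _
        _ ≤ (1 + 1 / (2 * (k : ℝ) * 3 ^ k)) ^ k := by
            refine pow_le_pow_right₀ ?_ hk
            have : (0 : ℝ) ≤ 1 / (2 * (k : ℝ) * 3 ^ k) := by positivity
            linarith
    have h7 : 3 ^ X.card * (∏ v ∈ X, (1 + ‖x v - s v‖) - 1) ≤ 1 := by
      have h9 : (0 : ℝ) ≤ (1 + 1 / (2 * (k : ℝ) * 3 ^ k)) ^ k - 1 := by
        have : (1 : ℝ) ≤ (1 + 1 / (2 * (k : ℝ) * 3 ^ k)) ^ k := by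
          refine one_le_pow₀ ?_
          have : (0 : ℝ) ≤ 1 / (2 * (k : ℝ) * 3 ^ k) := by positivity
          linarith
        linarith
      calc 3 ^ X.card * (∏ v ∈ X, (1 + ‖x v - s v‖) - 1)
          ≤ 3 ^ X.card * ((1 + 1 / (2 * (k : ℝ) * 3 ^ k)) ^ k - 1) :=
            mul_le_mul_of_nonneg_left (by linarith) (by positivity)
        _ ≤ 3 ^ k * ((1 + 1 / (2 * (k : ℝ) * 3 ^ k)) ^ k - 1) :=
            mul_le_mul_of_nonneg_right (pow_le_pow_right₀ (by norm_num) hk) h9
        _ ≤ 1 := Near_bern k hk1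
    rw [h4] at h3
    have h8 : ‖PP X ⊥ s‖ - ‖PP X ⊥ x‖ ≤ ‖PP X ⊥ x - PP X ⊥ s‖ := by
      rw [norm_sub_rev]
      exact norm_sub_norm_le _ _
    rw [h5] at h8
    have hr : 1 ≤ finrank (ZMod 2) (span (ZMod 2) (X : Set V)) := by
      have hfd : FiniteDimensional (ZMod 2) (span (ZMod 2) (X : Set V)) :=
        FiniteDimensional.span_finset _ X
      rw [Nat.one_le_iff_ne_zero, Ne, Submodule.finrank_eq_zero, span_eq_bot]
      intro h
      obtain ⟨v, hv⟩ := hne
      have := h v hv
      rw [this] at hv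
      exact h0 hv
    have h9 : (2 : ℝ) ≤ 2 ^ finrank (ZMod 2) (span (ZMod 2) (X : Set V)) := by
      calc (2 : ℝ) = 2 ^ 1 := by norm_num
        _ ≤ _ := pow_le_pow_right₀ (by norm_num) hr
    linarith

/-- the polynomial near a sign vector whose negative part spans -/
theorem near_span (X : Finset V) (k : ℕ) (hk : (X.erase 0).card ≤ k)
    (Y : Finset V) (hYX : Y ⊆ X.erase 0)
    (hY : span (ZMod 2) (Y : Set V) = span (ZMod 2) (X : Set V)) (x : V → ℂ) (hx0 : ‖x 0‖ = 1)
    (hx1 : ∀ v ∈ Y, ‖x v + 1‖ ≤ 1 / (2 * k * 3 ^ k))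
    (hx2 : ∀ v ∈ X.erase 0, v ∉ Y → ‖x v - 1‖ ≤ 1 / (2 * k * 3 ^ k)) :
    (2 : ℝ) ^ finrank (ZMod 2) (span (ZMod 2) (X : Set V)) ≤ 2 * ‖PP X ⊥ x‖ := by
  have hspan : span (ZMod 2) ((X.erase 0 : Finset V) : Set V) = span (ZMod 2) (X : Set V) := by
    rw [Finset.coe_erase]
    exact Submodule.span_sdiff_singleton_zero
  have h1 := Near_mainY (X.erase 0) (Finset.notMem_erase 0 X) k hk Y hYX (by rw [hspan, hY]) x
    hx1 hx2
  rw [hspan] at h1
  by_cases h0 : (0 : V) ∈ X
  · have h2 := PP_loop (X.erase 0) ⊥ x 0 (Finset.notMem_erase 0 X) (zero_mem _)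
    rw [Finset.insert_erase h0] at h2
    rw [h2, norm_mul, hx0, one_mul]
    exact h1
  · rw [Finset.erase_eq_of_notMem h0] at h1
    exact h1

end

/-- **Module A** -/
theorem thm_Near : St_Near := by
  intro V _ _ _ X k hk x hx0 hx
  have hspan : span (ZMod 2) ((X.erase 0 : Finset V) : Set V) = span (ZMod 2) (X : Set V) := by
    rw [Finset.coe_erase]
    exact Submodule.span_sdiff_singleton_zero
  have h1 := Near_main (X.erase 0) (Finset.notMem_erase 0 X) k hk x fun v hv =>
    hx v (Finset.mem_of_mem_erase hv) (Finset.ne_of_mem_erase hv)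
  rw [hspan] at h1
  by_cases h0 : (0 : V) ∈ X
  · have h2 := PP_loop (X.erase 0) ⊥ x 0 (Finset.notMem_erase 0 X) (zero_mem _)
    rw [Finset.insert_erase h0] at h2
    rw [h2, norm_mul, hx0, one_mul]
    exact h1
  · rw [Finset.erase_eq_of_notMem h0] at h1
    exact h1

end Pool.Agent.FHP
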