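import Pool.Agent.FHP.Cor
import Pool.Agent.FHP.Near
import Pool.Agent.FHP.Kron

/-!
# FHP: the theorems without hypotheses
-/

set_option autoImplicit false

namespace Pool.Agent.FHP

/-- **Module B** -/
theorem thm_Kron : St_Kron := by
  classical
  intro ι _ L η ε K c hη hη2 hε hK hL hrel
  exact kron L η ε K c hη.le hε hK (by rwa [one_div_pow]) hrel

theorem thm_KnotoidF : St_KnotoidF := knotoidF thm_Near thm_Kron
theorem thm_KnotF : St_KnotF := knotF thm_Near thm_Kron
theorem thm_KnotoidH : St_KnotoidH := knotoidH thm_Near thm_Kron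
theorem thm_KnotH : St_KnotH := knotH thm_Near thm_Kron

end Pool.Agent.FHP
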