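import Pool.Agent.FHP.RelSt
import Pool.Agent.FHP.Graph
import Pool.Agent.SPT.RelV
import Pool.Agent.C8.Main

/-!
# FHP: the relations between the twist numbers of the classes (helper32)
-/

set_option autoImplicit false
set_option linter.unusedSectionVars false
set_option linter.unusedTactic false

open Submodule Module LaurentPolynomial

namespace Pool.Agent.FHP

open Pool.Agent.SPT Pool.Agent.SPT.Rel Pool.Agent.EQT Pool.Agent.Helper16.Knotoid

variable {n : ℕ}

/-! ### the zero row -/

private theorem RelC_zero {V : Type} [AddCommGroup V] [Module (ZMod 2) V] [DecidableEq V]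
    (X : Finset V) (u : V → ℤ) (h : ¬ NZu X u) : ¬ NZu (X.erase 0) u := by
  rintro ⟨z, hz, hz1⟩
  refine h ⟨z, hz, ?_⟩
  have hz0 : z ≠ 0 := by
    intro h0
    rw [h0, norm_zero] at hz
    exact zero_ne_one hz
  by_cases h0 : (0 : V) ∈ X
  · have h1 : X = insert 0 (X.erase 0) := (Finset.insert_erase h0).symm
    rw [h1, PP_loop (X.erase 0) ⊥ _ 0 (Finset.notMem_erase _ _) (zero_mem _)]
    exact mul_ne_zero (zpow_ne_zero _ hz0) hz1
  · rw [Finset.erase_eq_of_notMem h0] at hz1
    exact hz1

private theorem RelC_follows {V : Type} (X Y : Finset V) (hYX : Y ⊆ X) (a u : V → ℤ) (C N : ℕ)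
    (h : Follows X a u C N) : Follows Y a u C N :=
  fun S hS S' hS' => h S (hS.trans hYX) S' (hS'.trans hYX)

/-- at most eight vectors: the long ones do not span -/
private theorem RelC_eight {V : Type} [AddCommGroup V] [Module (ZMod 2) V] [DecidableEq V]
    (X : Finset V) (a u : V → ℤ) (C N : ℕ) (hF : Follows X a u C N) (h : ¬ NZu X u)
    (h8 : X.card ≤ 8) :
    span (ZMod 2) {v | v ∈ X ∧ (N : ℤ) ≤ |a v|} ≠ span (ZMod 2) (X : Set V) := by
  classical
  intro hlong
  obtain ⟨Y, hY⟩ : ∃ Y : Finset V, Y = X.filter fun v => u v ≠ 0 := ⟨_, rfl⟩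
  have hYX : Y ⊆ X := by
    rw [hY]
    exact Finset.filter_subset _ _
  have hlY : ∀ v ∈ X, (N : ℤ) ≤ |a v| → v ∈ Y := by
    intro v hv hl
    rw [hY, Finset.mem_filter]
    refine ⟨hv, fun h0 => ?_⟩
    refine (hF {v} (Finset.singleton_subset_iff.2 hv) ∅ (Finset.empty_subset _)).1 ?_ ?_
    · rw [Finset.sum_singleton, Finset.sum_empty, sub_zero]
      exact hl
    · rw [Finset.sum_singleton, Finset.sum_empty]
      exact h0
  have hs : span (ZMod 2) (Y : Set V) = span (ZMod 2) (X : Set V) := by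
    refine le_antisymm (span_mono (Finset.coe_subset.2 hYX)) ?_
    rw [← hlong]
    exact span_mono fun v hv => hlY v hv.1 hv.2
  have hc : (Y.erase 0).card ≤ 8 :=
    (Finset.card_le_card ((Finset.erase_subset _ _).trans hYX)).trans h8
  obtain ⟨z, hz, hz1⟩ := C8.thm_Card8 V Y hc u fun v hv _ => by
    rw [hY, Finset.mem_filter] at hv
    exact hv.2
  refine h ⟨z, hz, ?_⟩
  rw [PP_res X Y hYX hs]
  · exact hz1
  · intro v hv hvY
    have h0 : u v = 0 := by
      by_contra hne
      apply hvY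
      rw [hY, Finset.mem_filter]
      exact ⟨hv, hne⟩
    change z ^ u v = 1
    rw [h0, zpow_zero]

/-! ### the transfer to the classes -/

section

variable {I : Fin n → Fin n → Prop} {e : Fin n → Bool}

/-- the vector on the classes -/
noncomputable def RelC_d (I : Fin n → Fin n → Prop) (e : Fin n → Bool) (S : Finset (Fin n))
    (s : Fin n → ℤ) (d : (Fin n → ZMod 2) → ℤ) (i : Fin n) : ℤ :=
  if i ∈ S then s i * d (row (Graph_R I e) i) else 0

theorem RelC_sum (S : Finset (Fin n)) (s : Fin n → ℤ) (d : (Fin n → ZMod 2) → ℤ)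
    (T : Finset (Fin n)) (hT : T ⊆ S) (f : Fin n → ℤ) :
    ∑ i ∈ T, RelC_d I e S s d i * f i = ∑ i ∈ T, s i * d (row (Graph_R I e) i) * f i := by
  refine Finset.sum_congr rfl fun i hi => ?_
  unfold RelC_d
  rw [if_pos (hT hi)]

theorem RelC_short (hi : ∀ i, ¬ I i i) (hs : ∀ i j, I i j → I j i) {S : Finset (Fin n)}
    (hS : Transversal I S) (s : Fin n → ℤ) (hs1 : ∀ i, s i = 1 ∨ s i = -1)
    (hs2 : ∀ i, twist (Graph_R I e) (cutState I e) (row (Graph_R I e) i) =
      s i * twistNumber I e i) (N : ℕ) (d : (Fin n → ZMod 2) → ℤ)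
    (hd : Small ((rows (Graph_R I e)).erase 0) (twist (Graph_R I e) (cutState I e)) N d) :
    Short I e S N (RelC_d I e S s d) := by
  classical
  obtain ⟨h1, h2, h3⟩ := hd
  refine ⟨fun i => ?_, fun i hiS => ?_, ?_⟩
  · unfold RelC_d
    by_cases hiS : i ∈ S
    · rw [if_pos hiS]
      rcases hs1 i with h4 | h4 <;> rcases h1 (row (Graph_R I e) i) with h5 | h5 | h5 <;>
        rw [h4, h5] <;> simp
    · rw [if_neg hiS]
      exact Or.inr (Or.inl rfl)
  · unfold RelC_d
    rw [if_neg hiS]
  · have h4 : ∑ i ∈ S, RelC_d I e S s d i * twistNumber I e i =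
        ∑ v ∈ (rows (Graph_R I e)).erase 0, d v * twist (Graph_R I e) (cutState I e) v := by
      rw [RelC_sum S s d S (Finset.Subset.refl S), Graph_image hi hs hS,
        Finset.sum_image (Graph_inj hi hs hS)]
      refine Finset.sum_congr rfl fun i _ => ?_
      rw [hs2]
      ring
    rw [h4]
    exact h3

/-- linear independence -/
theorem RelC_li (hi : ∀ i, ¬ I i i) (hs : ∀ i j, I i j → I j i) {S : Finset (Fin n)}
    (hS : Transversal I S) (s : Fin n → ℤ) (hs1 : ∀ i, s i = 1 ∨ s i = -1) {m : ℕ} (N : ℕ)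
    (d : Fin m → (Fin n → ZMod 2) → ℤ)
    (hd : ∀ j, Small ((rows (Graph_R I e)).erase 0) (twist (Graph_R I e) (cutState I e)) N (d j))
    (R : Type) [CommRing R] (hLI : LinearIndependent R (fun j v => ((d j v : ℤ) : R))) :
    LinearIndependent R (fun j i => ((RelC_d I e S s (d j) i : ℤ) : R)) := by
  classical
  rw [Fintype.linearIndependent_iff] at hLI ⊢
  intro g hg
  refine hLI g ?_
  funext v
  rw [Finset.sum_apply, Pi.zero_apply]
  by_cases hv : v ∈ (rows (Graph_R I e)).erase 0
  · rw [Graph_image hi hs hS, Finset.mem_image] at hv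
    obtain ⟨i, hiS, rfl⟩ := hv
    have h1 := congrFun hg i
    rw [Finset.sum_apply, Pi.zero_apply] at h1
    have h2 : ∀ j, (g j • fun i => ((RelC_d I e S s (d j) i : ℤ) : R)) i =
        ((s i : ℤ) : R) * (g j * ((d j (row (Graph_R I e) i) : ℤ) : R)) := by
      intro j
      rw [Pi.smul_apply, smul_eq_mul]
      unfold RelC_d
      rw [if_pos hiS]
      push_cast
      ring
    rw [Finset.sum_congr rfl fun j _ => h2 j, ← Finset.mul_sum] at h1
    have h3 : ((s i : ℤ) : R) * ((s i : ℤ) : R) = 1 := by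
      rcases hs1 i with h4 | h4 <;> rw [h4] <;> simp
    have h5 : ∑ j, g j * ((d j (row (Graph_R I e) i) : ℤ) : R) = 0 := by
      calc ∑ j, g j * ((d j (row (Graph_R I e) i) : ℤ) : R)
          = (((s i : ℤ) : R) * ((s i : ℤ) : R)) *
            ∑ j, g j * ((d j (row (Graph_R I e) i) : ℤ) : R) := by rw [h3, one_mul]
        _ = 0 := by rw [mul_assoc, h1, mul_zero]
    exact h5
  · refine Finset.sum_eq_zero fun j _ => ?_
    rw [Pi.smul_apply, (hd j).2.1 v hv, Int.cast_zero, smul_zero]

/-- **The relations** -/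
private theorem RelC_main (hi : ∀ i, ¬ I i i) (hs : ∀ i j, I i j → I j i) {S : Finset (Fin n)}
    (hS : Transversal I S) (Cyc : Finset (Fin n) → Prop)
    (hC : ∀ J ⊆ S, (∀ i, row (Graph_R I e) i ∈ span (ZMod 2)
      (row (Graph_R I e) '' ((S \ J : Finset (Fin n)) : Set (Fin n)))) ↔ ¬ Cyc J)
    (N : ℕ) (u : (Fin n → ZMod 2) → ℤ)
    (hF : Follows (rows (Graph_R I e)) (twist (Graph_R I e) (cutState I e)) u 0 N)
    (hu : ¬ NZu (rows (Graph_R I e)) u) : Relations I e S Cyc N := by
  classical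
  obtain ⟨X, hX⟩ : ∃ X, X = (rows (Graph_R I e)).erase 0 := ⟨_, rfl⟩
  have hXS : X = S.image (row (Graph_R I e)) := by
    rw [hX, Graph_image hi hs hS]
  have hinj := Graph_inj (e := e) hi hs hS
  obtain ⟨a, ha⟩ : ∃ a, a = twist (Graph_R I e) (cutState I e) := ⟨_, rfl⟩
  have hF' : Follows X a u 0 N := by
    rw [hX, ha]
    exact RelC_follows _ _ (Finset.erase_subset _ _) _ _ _ _ hF
  have hu' : ¬ NZu X u := by
    rw [hX]
    exact RelC_zero _ u hu
  -- the signs
  have h1 : ∀ i : Fin n, ∃ t : ℤ, (t = 1 ∨ t = -1) ∧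
      twist (Graph_R I e) (cutState I e) (row (Graph_R I e) i) = t * twistNumber I e i := by
    intro i
    rcases Graph_twist (e := e) hi hs i with h2 | h2
    · exact ⟨1, Or.inl rfl, by rw [h2, one_mul]⟩
    · exact ⟨-1, Or.inr rfl, by rw [h2, neg_one_mul]⟩
  choose s hs1 hs2 using h1
  have habs : ∀ i, |a (row (Graph_R I e) i)| = |twistNumber I e i| := by
    intro i
    rw [ha, hs2, abs_mul]
    rcases hs1 i with h | h <;> rw [h] <;> simp
  -- full rank
  have hfull : ∀ J ⊆ S, ¬ Cyc J ↔ span (ZMod 2) (((S \ J).image (row (Graph_R I e)) :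
      Finset (Fin n → ZMod 2)) : Set (Fin n → ZMod 2)) = span (ZMod 2) (X : Set _) := by
    intro J hJ
    rw [← hC J hJ, Finset.coe_image]
    constructor
    · intro h
      refine le_antisymm (span_mono ?_) (span_le.2 ?_)
      · rw [hXS, Finset.coe_image]
        exact Set.image_mono (Finset.coe_subset.2 Finset.sdiff_subset)
      · intro v hv
        rw [Finset.mem_coe, hXS, Finset.mem_image] at hv
        obtain ⟨i, -, rfl⟩ := hv
        exact h i
    · intro h i
      rw [h]
      by_cases h0 : row (Graph_R I e) i = 0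
      · rw [h0]
        exact Submodule.zero_mem _
      · refine subset_span (Finset.mem_coe.2 ?_)
        rw [hX, Finset.mem_erase]
        refine ⟨h0, ?_⟩
        unfold rows
        exact Finset.mem_image_of_mem _ (Finset.mem_univ i)
  have hcut : ∀ m : ℕ, (∀ J ⊆ S, Cyc J → m ≤ J.card) → Cut X m := by
    intro m hm J hJX hJm
    obtain ⟨T, hT⟩ : ∃ T : Finset (Fin n), T = S.filter fun i => row (Graph_R I e) i ∈ J := ⟨_, rfl⟩
    have hTS : T ⊆ S := by
      rw [hT]
      exact Finset.filter_subset _ _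
    have hTJ : T.image (row (Graph_R I e)) = J := by
      ext v
      rw [Finset.mem_image]
      constructor
      · rintro ⟨i, hiT, rfl⟩
        rw [hT, Finset.mem_filter] at hiT
        exact hiT.2
      · intro hv
        have h2 := hJX hv
        rw [hXS, Finset.mem_image] at h2
        obtain ⟨i, hiS, rfl⟩ := h2
        exact ⟨i, by rw [hT, Finset.mem_filter]; exact ⟨hiS, hv⟩, rfl⟩
    have hTc : T.card = J.card := by
      rw [← hTJ, Finset.card_image_of_injOn (hinj.mono (Finset.coe_subset.2 hTS))]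
    have h2 : ¬ Cyc T := fun h => absurd (hm T hTS h) (by omega)
    have h3 := (hfull T hTS).1 h2
    have h4 : (S \ T).image (row (Graph_R I e)) = X \ J := by
      ext v
      rw [Finset.mem_image, Finset.mem_sdiff]
      constructor
      · rintro ⟨i, hiT, rfl⟩
        rw [Finset.mem_sdiff, hT, Finset.mem_filter, not_and] at hiT
        exact ⟨by rw [hXS]; exact Finset.mem_image_of_mem _ hiT.1, hiT.2 hiT.1⟩
      · rintro ⟨hvX, hvJ⟩
        rw [hXS, Finset.mem_image] at hvX
        obtain ⟨i, hiS, rfl⟩ := hvX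
        refine ⟨i, ?_, rfl⟩
        rw [Finset.mem_sdiff, hT, Finset.mem_filter, not_and]
        exact ⟨hiS, fun _ => hvJ⟩
    rw [← h4]
    exact h3
  -- the long classes
  have hlong : ¬ Cyc (S.filter fun i => |twistNumber I e i| < N) ↔
      span (ZMod 2) {v | v ∈ X ∧ (N : ℤ) ≤ |a v|} = span (ZMod 2) (X : Set _) := by
    rw [hfull _ (Finset.filter_subset _ _)]
    have h2 : (((S \ S.filter fun i => |twistNumber I e i| < N).image (row (Graph_R I e)) :
        Finset (Fin n → ZMod 2)) : Set (Fin n → ZMod 2)) = {v | v ∈ X ∧ (N : ℤ) ≤ |a v|} := by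
      ext v
      rw [Finset.mem_coe, Finset.mem_image, Set.mem_ofPred_eq]
      constructor
      · rintro ⟨i, hiS, rfl⟩
        rw [Finset.mem_sdiff, Finset.mem_filter, not_and, not_lt] at hiS
        refine ⟨by rw [hXS]; exact Finset.mem_image_of_mem _ hiS.1, ?_⟩
        rw [habs]
        exact hiS.2 hiS.1
      · rintro ⟨hvX, hvN⟩
        rw [hXS, Finset.mem_image] at hvX
        obtain ⟨i, hiS, rfl⟩ := hvX
        refine ⟨i, ?_, rfl⟩
        rw [Finset.mem_sdiff, Finset.mem_filter, not_and, not_lt]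
        rw [habs] at hvN
        exact ⟨hiS, fun _ => hvN⟩
    rw [h2]
  obtain ⟨c1, c2, -⟩ := all_of_follows X a u 0 N hF' hu'
  have c3 : span (ZMod 2) {v | v ∈ X ∧ (N : ℤ) ≤ |a v|} = span (ZMod 2) (X : Set _) →
      ∀ m : ℕ, (m ≤ 5 ∨ Cut X (m - 1)) → ∃ d : Fin m → (Fin n → ZMod 2) → ℤ,
        (∀ i, Small X a N (d i)) ∧ LinearIndependent ℤ d := by
    intro hl m hm
    obtain ⟨d, hd, hLI⟩ := rel_main5 X u hu' (fun J hJ hJ0 => by
      refine le_antisymm (span_mono (Finset.coe_subset.2 Finset.sdiff_subset)) ?_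
      rw [← hl]
      refine span_mono fun v hv => ?_
      rw [Finset.mem_coe, Finset.mem_sdiff]
      refine ⟨hv.1, fun hvJ => ?_⟩
      refine (hF' {v} (Finset.singleton_subset_iff.2 hv.1) ∅ (Finset.empty_subset _)).1 ?_ ?_
      · rw [Finset.sum_singleton, Finset.sum_empty, sub_zero]
        exact hv.2
      · rw [Finset.sum_singleton, Finset.sum_empty]
        exact hJ0 v hvJ) m hm
    exact ⟨d, fun i => small_of_rel X a u 0 N hF' _ (hd i), hLI⟩
  have htrans : ∀ d, Small X a N d → Short I e S N (RelC_d I e S s d) := by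
    intro d hd
    rw [hX, ha] at hd
    exact RelC_short hi hs hS s hs1 hs2 N d hd
  refine ⟨fun J hJ hc => ?_, fun m hm => ?_, fun hc m hm => ?_, fun h8 => ?_⟩
  · obtain ⟨d, hd, hodd⟩ := c1 ((S \ J).image (row (Graph_R I e))) (by
      rw [hXS]
      exact Finset.image_subset_image Finset.sdiff_subset) ((hfull J hJ).1 hc)
    refine ⟨_, htrans d hd, ?_⟩
    rw [Finset.sum_image (hinj.mono (Finset.coe_subset.2 Finset.sdiff_subset))] at hodd
    have h5 : ∀ i ∈ S \ J, ∃ t : ℤ, RelC_d I e S s d i = d (row (Graph_R I e) i) + 2 * t := by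
      intro i hiJ
      unfold RelC_d
      rw [if_pos (Finset.mem_sdiff.1 hiJ).1]
      rcases hs1 i with h6 | h6
      · exact ⟨0, by rw [h6]; ring⟩
      · exact ⟨-d (row (Graph_R I e) i), by rw [h6]; ring⟩
    choose! t ht using h5
    rw [Finset.sum_congr rfl ht, Finset.sum_add_distrib, ← Finset.mul_sum]
    exact hodd.add_even (even_two_mul _)
  · obtain ⟨d, hd, hLI⟩ := c2 m (hcut m hm)
    refine ⟨fun j => RelC_d I e S s (d j), fun j => htrans _ (hd j), ?_⟩
    rw [hX, ha] at hd
    exact RelC_li hi hs hS s hs1 N d hd (ZMod 2) hLI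
  · obtain ⟨d, hd, hLI⟩ := c3 (hlong.1 hc) m (hm.imp_right (hcut (m - 1)))
    refine ⟨fun j => RelC_d I e S s (d j), fun j => htrans _ (hd j), ?_⟩
    rw [hX, ha] at hd
    have h6 := RelC_li hi hs hS s hs1 N d hd ℤ (by simpa using hLI)
    simpa using h6
  · by_contra hc
    refine RelC_eight X a u 0 N hF' hu' ?_ (hlong.1 hc)
    rw [hXS, Finset.card_image_of_injOn hinj]
    exact h8

end

/-! ### the theorems -/

/-- **knotoid diagrams** -/
theorem knotoidR (D : GaussDiagram n) (S : Finset (Fin n)) (B : ℕ)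
    (hS : Transversal D.Interlaced S) (hne : S.Nonempty)
    (h : coeffSum D.normalizedBracket ≤ B) :
    Relations D.Interlaced D.sign S (HasCycleO D) ((B + 1) * 2 ^ 8 ^ (S.card + 2)) := by
  classical
  obtain ⟨i, hi⟩ := hne
  obtain ⟨j, hj⟩ := hS.1 i hi
  have hcard : (rows (D.Cut (cutState D.Interlaced D.sign))).card ≤ S.card + 1 := by
    have h1 : ((rows (Graph_R D.Interlaced D.sign)).erase 0).card ≤ S.card := by
      rw [Graph_image (Graph_irrefl D) (Graph_int_symm D) hS]
      exact Finset.card_image_le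
    have h2 := Finset.pred_card_le_card_erase (s := rows (Graph_R D.Interlaced D.sign)) (a := 0)
    have h3 : rows (D.Cut (cutState D.Interlaced D.sign)) = rows (Graph_R D.Interlaced D.sign) :=
      rfl
    rw [h3]
    omega
  have hN : NX (S.card + 1) 0 B = (B + 1) * 2 ^ 8 ^ (S.card + 2) := by
    unfold NX
    ring
  obtain ⟨u, hF, hu⟩ : ∃ u, Follows (rows (D.Cut (cutState D.Interlaced D.sign)))
      (twist (D.Cut (cutState D.Interlaced D.sign)) (cutState D.Interlaced D.sign)) u 0
      (NX (S.card + 1) 0 B) ∧ ¬ NZu (rows (D.Cut (cutState D.Interlaced D.sign))) u := by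
    by_contra hno
    push Not at hno
    exact absurd (knotoidGX (S.card + 1) 0 B n D (cutState D.Interlaced D.sign)
      ⟨⟨i, j, Or.inl hj⟩, hcard, hno⟩) (by omega)
  rw [hN] at hF
  exact RelC_main (Graph_irrefl D) (Graph_int_symm D) hS (HasCycleO D)
    (fun J hJ => knotoid_dict D hS hJ) _ u hF hu

/-- **knot diagrams** -/
theorem knotR (g : GaussJones.Code n) (e : Fin n → Bool) (S : Finset (Fin n)) (B : ℕ)
    (hS : Transversal (GaussJones.Interlaced g) S) (hne : S.Nonempty)
    (h : coeffSum (GaussJones.fPoly g e) ≤ B) :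
    Relations (GaussJones.Interlaced g) e S (HasCycle g) ((B + 1) * 2 ^ 8 ^ (S.card + 2)) := by
  classical
  obtain ⟨i, hi⟩ := hne
  obtain ⟨j, hj⟩ := hS.1 i hi
  have hirr : ∀ i, ¬ GaussJones.Interlaced g i i := by
    intro i h
    rcases h with h | h <;> exact lt_irrefl _ h.1
  have hsy : ∀ i j, GaussJones.Interlaced g i j → GaussJones.Interlaced g j i :=
    fun i j h => h.symm
  have hcard : (rows (GaussJones.Cut g e (cutState (GaussJones.Interlaced g) e))).card ≤
      S.card + 1 := by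
    have h1 : ((rows (Graph_R (GaussJones.Interlaced g) e)).erase 0).card ≤ S.card := by
      rw [Graph_image hirr hsy hS]
      exact Finset.card_image_le
    have h2 := Finset.pred_card_le_card_erase
      (s := rows (Graph_R (GaussJones.Interlaced g) e)) (a := 0)
    have h3 : rows (GaussJones.Cut g e (cutState (GaussJones.Interlaced g) e)) =
      rows (Graph_R (GaussJones.Interlaced g) e) := rfl
    rw [h3]
    omega
  have hN : NX (S.card + 1) 0 B = (B + 1) * 2 ^ 8 ^ (S.card + 2) := by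
    unfold NX
    ring
  obtain ⟨u, hF, hu⟩ : ∃ u, Follows
      (rows (GaussJones.Cut g e (cutState (GaussJones.Interlaced g) e)))
      (twist (GaussJones.Cut g e (cutState (GaussJones.Interlaced g) e))
        (cutState (GaussJones.Interlaced g) e)) u 0
      (NX (S.card + 1) 0 B) ∧
      ¬ NZu (rows (GaussJones.Cut g e (cutState (GaussJones.Interlaced g) e))) u := by
    by_contra hno
    push Not at hno
    exact absurd (knotGX (S.card + 1) 0 B n g e (cutState (GaussJones.Interlaced g) e)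
      ⟨⟨i, j, Or.inl hj⟩, hcard, hno⟩) (by omega)
  rw [hN] at hF
  exact RelC_main hirr hsy hS (HasCycle g) (fun J hJ => knot_dict g e hS hJ) _ u hF hu

end Pool.Agent.FHP
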