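import Pool.Agent.FHP.RelC
import Pool.Agent.FHP.LinM

/-!
# FHP, module RelD: the isotropy for the classes (helper32)
-/

set_option autoImplicit false
set_option linter.unusedSectionVars false

open Submodule Module

namespace Pool.Agent.FHP

open Pool.Agent.SPT Pool.Agent.SPT.Rel Pool.Agent.EQT Pool.Agent.Helper16.Knotoid

variable {n : ℕ}

theorem RelD_mono {I : Fin n → Fin n → Prop} {e : Fin n → Bool} {S : Finset (Fin n)} {N N' : ℕ}
    (h : N ≤ N') (d : Fin n → ℤ) (hd : Short I e S N d) : Short I e S N' d :=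
  ⟨hd.1, hd.2.1, hd.2.2.trans_le (by exact_mod_cast h)⟩

section

variable {I : Fin n → Fin n → Prop} {e : Fin n → Bool}

/-- transfer of the isotropy from the rows to the classes -/
theorem RelD_iso (hi : ∀ i, ¬ I i i) (hs : ∀ i j, I i j → I j i) {S : Finset (Fin n)}
    (hS : Transversal I S) (N₀ N : ℕ) (hN : N₀ ≤ N)
    (hiso : ∀ ρ : (Fin n → ZMod 2) → Fin n,
      (∀ v ∈ (rows (Graph_R I e)).erase 0, row (Graph_R I e) (ρ v) = v) →
      ∀ w w' : (Fin n → ZMod 2) → ZMod 2,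
      (∀ d, Small ((rows (Graph_R I e)).erase 0) (twist (Graph_R I e) (cutState I e)) N₀ d →
        ∑ v ∈ (rows (Graph_R I e)).erase 0, w v * ((d v : ℤ) : ZMod 2) = 0) →
      (∀ d, Small ((rows (Graph_R I e)).erase 0) (twist (Graph_R I e) (cutState I e)) N₀ d →
        ∑ v ∈ (rows (Graph_R I e)).erase 0, w' v * ((d v : ℤ) : ZMod 2) = 0) →
      ∑ u ∈ (rows (Graph_R I e)).erase 0, ∑ v ∈ (rows (Graph_R I e)).erase 0,
        w u * w' v * row (Graph_R I e) (ρ u) (ρ v) = 0)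
    (w w' : Fin n → ZMod 2)
    (hw : ∀ d, Short I e S N d → ∑ i ∈ S, w i * ((d i : ℤ) : ZMod 2) = 0)
    (hw' : ∀ d, Short I e S N d → ∑ i ∈ S, w' i * ((d i : ℤ) : ZMod 2) = 0) :
    ∑ i ∈ S, ∑ j ∈ S, w i * (row (Graph_R I e) i j * w' j) = 0 := by
  classical
  rcases S.eq_empty_or_nonempty with hemp | ⟨i0, hi0⟩
  · rw [hemp, Finset.sum_empty]
  obtain ⟨X, hX⟩ : ∃ X, X = (rows (Graph_R I e)).erase 0 := ⟨_, rfl⟩
  have hXS : X = S.image (row (Graph_R I e)) := by
    rw [hX, Graph_image hi hs hS]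
  have hinj := Graph_inj (e := e) hi hs hS
  -- representatives
  obtain ⟨ρ, hρ⟩ : ∃ ρ : (Fin n → ZMod 2) → Fin n, ∀ i ∈ S, ρ (row (Graph_R I e) i) = i := by
    have h1 : ∀ v, ∃ i, v ∈ X → i ∈ S ∧ row (Graph_R I e) i = v := by
      intro v
      by_cases hv : v ∈ X
      · rw [hXS, Finset.mem_image] at hv
        obtain ⟨i, h1, h2⟩ := hv
        exact ⟨i, fun _ => ⟨h1, h2⟩⟩
      · exact ⟨i0, fun h => absurd h hv⟩
    choose ρ hρ using h1
    refine ⟨ρ, fun i hiS => ?_⟩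
    have h2 := hρ (row (Graph_R I e) i) (by rw [hXS]; exact Finset.mem_image_of_mem _ hiS)
    exact hinj h2.1 hiS h2.2
  have hρ' : ∀ v ∈ X, row (Graph_R I e) (ρ v) = v := by
    intro v hv
    rw [hXS, Finset.mem_image] at hv
    obtain ⟨i, h1, rfl⟩ := hv
    rw [hρ i h1]
  -- the signs
  have h1 : ∀ i : Fin n, ∃ t : ℤ, (t = 1 ∨ t = -1) ∧
      twist (Graph_R I e) (cutState I e) (row (Graph_R I e) i) = t * twistNumber I e i := by
    intro i
    rcases Graph_twist (e := e) hi hs i with h2 | h2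
    · exact ⟨1, Or.inl rfl, by rw [h2, one_mul]⟩
    · exact ⟨-1, Or.inr rfl, by rw [h2, neg_one_mul]⟩
  choose s hs1 hs2 using h1
  have key : ∀ w : Fin n → ZMod 2,
      (∀ d, Short I e S N d → ∑ i ∈ S, w i * ((d i : ℤ) : ZMod 2) = 0) →
      ∀ d, Small ((rows (Graph_R I e)).erase 0) (twist (Graph_R I e) (cutState I e)) N₀ d →
        ∑ v ∈ (rows (Graph_R I e)).erase 0, w (ρ v) * ((d v : ℤ) : ZMod 2) = 0 := by
    intro w hw d hd
    have h2 := hw _ (RelD_mono hN _ (RelC_short hi hs hS s hs1 hs2 N₀ d hd))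
    rw [← hX, hXS, Finset.sum_image hinj, ← h2]
    refine Finset.sum_congr rfl fun i hiS => ?_
    rw [hρ i hiS]
    unfold RelC_d
    rw [if_pos hiS]
    push_cast
    have h3 : ((s i : ℤ) : ZMod 2) = 1 := by
      rcases hs1 i with h4 | h4 <;> rw [h4] <;> decide
    rw [h3, one_mul]
  have h2 := hiso ρ (by rw [← hX]; exact hρ') (fun v => w (ρ v)) (fun v => w' (ρ v))
    (key w hw) (key w' hw')
  rw [← hX, hXS, Finset.sum_image hinj] at h2
  rw [← h2]
  refine Finset.sum_congr rfl fun i hiS => ?_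
  rw [Finset.sum_image hinj]
  refine Finset.sum_congr rfl fun j hjS => ?_
  rw [hρ i hiS, hρ j hjS]
  ring

end

end Pool.Agent.FHP
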