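import Pool.Agent.FHP.RelD
import Pool.Agent.SPT.LinH

/-!
# FHP: a linear number of independent relations between the twist numbers (helper32)

The isotropy of the annihilator of the short vectors is helper3's theorem (SPT/LinA ... LinH).
-/

set_option autoImplicit false
set_option linter.unusedSectionVars false

open Submodule Module LaurentPolynomial

namespace Pool.Agent.FHP

open Pool.Agent.SPT Pool.Agent.SPT.Rel Pool.Agent.SPT.Lin Pool.Agent.EQT
  Pool.Agent.Helper16.Knotoid

variable {n : ℕ}

/-- The number of the odd coefficients. -/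
noncomputable def oddCount (f : ℤ[T;T⁻¹]) : ℕ :=
  (f.coeff.support.filter fun i => Odd (f.coeff i)).card

open Classical in
/-- The entries of the cut matrix: `1` if the crossings `i`, `j` are interlaced, or if `i = j` is
interlaced with a crossing of its class. -/
noncomputable def cutEntry (I : Fin n → Fin n → Prop) (i j : Fin n) : ZMod 2 :=
  if I i j ∨ (i = j ∧ ∃ k, Twins I i k ∧ I i k) then 1 else 0

/-- The weights of the classes modulo `2` which are orthogonal to all short vectors form a totally
isotropic space for the cut matrix. -/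
def Isotropic (I : Fin n → Fin n → Prop) (e : Fin n → Bool) (S : Finset (Fin n)) (N : ℕ) : Prop :=
  ∀ w w' : Fin n → ZMod 2,
    (∀ d, Short I e S N d → ∑ i ∈ S, w i * ((d i : ℤ) : ZMod 2) = 0) →
    (∀ d, Short I e S N d → ∑ i ∈ S, w' i * ((d i : ℤ) : ZMod 2) = 0) →
    ∑ i ∈ S, ∑ j ∈ S, w i * cutEntry I i j * w' j = 0

/-- There are `m` short vectors which are linearly independent modulo `2`. -/
def Independent (I : Fin n → Fin n → Prop) (e : Fin n → Bool) (S : Finset (Fin n)) (N m : ℕ) :
    Prop :=
  ∃ d : Fin m → Fin n → ℤ, (∀ i, Short I e S N (d i)) ∧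
    LinearIndependent (ZMod 2) (fun i v => ((d i v : ℤ) : ZMod 2))

theorem RelL_odd (f : ℤ[T;T⁻¹]) : (red f).coeff.support.card = oddCount f := by
  unfold oddCount
  congr 1
  ext i
  rw [Finsupp.mem_support_iff, red_coeff, Finset.mem_filter, Finsupp.mem_support_iff,
    Ne, ZMod.intCast_eq_zero_iff_even, Int.not_even_iff_odd]
  constructor
  · intro h
    refine ⟨fun h0 => ?_, h⟩
    rw [h0] at h
    exact absurd h (by decide)
  · exact fun h => h.2

section

variable {I : Fin n → Fin n → Prop} {e : Fin n → Bool}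

theorem RelL_entry (i j : Fin n) : row (Graph_R I e) i j = cutEntry I i j := by
  classical
  unfold row cutEntry
  refine if_congr ?_ rfl rfl
  unfold Graph_R
  rw [Graph_cut]

/-- the rank is at most the number of classes -/
theorem RelL_rank (hi : ∀ i, ¬ I i i) (hs : ∀ i j, I i j → I j i) {S : Finset (Fin n)}
    (hS : Transversal I S) :
    finrank (ZMod 2) (span (ZMod 2) (rows (Graph_R I e) : Set (Fin n → ZMod 2))) ≤ S.card := by
  classical
  have h1 : span (ZMod 2) (rows (Graph_R I e) : Set (Fin n → ZMod 2)) =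
      span (ZMod 2) (((rows (Graph_R I e)).erase 0 : Finset _) : Set (Fin n → ZMod 2)) :=
    (span_erase_zero _).symm
  rw [h1, Graph_image hi hs hS]
  exact (finrank_span_finset_le_card _).trans Finset.card_image_le

/-- **Module RelL**: the class form -/
theorem RelL_main (hi : ∀ i, ¬ I i i) (hs : ∀ i j, I i j → I j i) {S : Finset (Fin n)}
    (hS : Transversal I S) (N₀ N r : ℕ) (hN : N₀ ≤ N)
    (hr : finrank (ZMod 2) (span (ZMod 2) (rows (Graph_R I e) : Set (Fin n → ZMod 2))) = r)
    (h3 : 2 ≤ S.card → S.card + 3 ≤ 3 * r) (hne : S.Nonempty)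
    (hiso : ∀ ρ : (Fin n → ZMod 2) → Fin n,
      (∀ v ∈ (rows (Graph_R I e)).erase 0, row (Graph_R I e) (ρ v) = v) →
      ∀ w w' : (Fin n → ZMod 2) → ZMod 2,
      (∀ d, Small ((rows (Graph_R I e)).erase 0) (twist (Graph_R I e) (cutState I e)) N₀ d →
        ∑ v ∈ (rows (Graph_R I e)).erase 0, w v * ((d v : ℤ) : ZMod 2) = 0) →
      (∀ d, Small ((rows (Graph_R I e)).erase 0) (twist (Graph_R I e) (cutState I e)) N₀ d →
        ∑ v ∈ (rows (Graph_R I e)).erase 0, w' v * ((d v : ℤ) : ZMod 2) = 0) →
      ∑ u ∈ (rows (Graph_R I e)).erase 0, ∑ v ∈ (rows (Graph_R I e)).erase 0,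
        w u * w' v * row (Graph_R I e) (ρ u) (ρ v) = 0) :
    Isotropic I e S N ∧ ∀ m : ℕ, (6 * m ≤ S.card + 6 ∨ 2 * m ≤ r + 1) →
      Independent I e S N m := by
  have h1 := fun w w' hw hw' => RelD_iso hi hs hS N₀ N hN hiso w w' hw hw'
  refine ⟨fun w w' hw hw' => ?_, fun m hm => ?_⟩
  · rw [← h1 w w' hw hw']
    refine Finset.sum_congr rfl fun i _ => Finset.sum_congr rfl fun j _ => ?_
    rw [← RelL_entry (e := e), mul_assoc]
  · refine LinM_main hi hs hS N h1 m ?_
    rw [hr]
    rcases hm with hm | hm
    · rcases Nat.lt_or_ge S.card 2 with h4 | h4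
      · have h5 : 0 < S.card := hne.card_pos
        have h6 : 1 ≤ r := by
          rw [← hr, Submodule.one_le_finrank_iff]
          obtain ⟨i, hiS⟩ := hne
          intro h0
          have h7 : row (Graph_R I e) i ∈
              span (ZMod 2) (rows (Graph_R I e) : Set (Fin n → ZMod 2)) := by
            refine subset_span (Finset.mem_coe.2 ?_)
            unfold rows
            exact Finset.mem_image_of_mem _ (Finset.mem_univ i)
          rw [h0, Submodule.mem_bot] at h7
          exact (Graph_ne (e := e) i).2 (hS.1 i hiS) h7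
        omega
      · have h5 := h3 h4
        omega
    · exact hm

end

/-- **Knotoid diagrams**: if `f` has at most `B` odd coefficients, then the weights modulo `2` which
are orthogonal to all short vectors are totally isotropic, and there are more than `k / 6` independent
short vectors. -/
theorem knotoidL (D : GaussDiagram n) (S : Finset (Fin n)) (B : ℕ)
    (hS : Transversal D.Interlaced S) (hne : S.Nonempty)
    (h : oddCount D.normalizedBracket ≤ B) :
    Isotropic D.Interlaced D.sign S (2 * (B + 2) * (S.card + 1)) ∧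
      ∀ m : ℕ, (6 * m ≤ S.card + 6 ∨
        2 * m + D.comps (cutState D.Interlaced D.sign) ≤ n + 2) →
      Independent D.Interlaced D.sign S (2 * (B + 2) * (S.card + 1)) m := by
  classical
  obtain ⟨σ, hσ⟩ : ∃ σ, σ = cutState D.Interlaced D.sign := ⟨_, rfl⟩
  have hr := LinR_knotoid D
  obtain ⟨r, hr2⟩ : ∃ r, r = finrank (ZMod 2) (span (ZMod 2)
      (rows (Graph_R D.Interlaced D.sign) : Set (Fin n → ZMod 2))) := ⟨_, rfl⟩
  rw [← hr2] at hr
  have hle := RelL_rank (e := D.sign) (Graph_irrefl D) (Graph_int_symm D) hS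
  have hgr := D.comps_add_rank (cutState D.Interlaced D.sign)
  have h1 := RelL_main (e := D.sign) (Graph_irrefl D) (Graph_int_symm D) hS
    (2 * (B + 2) * ((D.gmat (cutState D.Interlaced D.sign)).rank + 1))
    (2 * (B + 2) * (S.card + 1)) r
    (Nat.mul_le_mul_left _ (by omega)) hr2.symm
    (fun h2 => by rw [hr2]; exact LinK_knotoid D hS h2) hne
    (fun ρ hρ w w' hw hw' => by
      have h3 := knotoidIso' D (cutState D.Interlaced D.sign) B _
        (by rw [RelL_odd]; exact h) le_rfl ρ hρ w w' hw hw'
      rw [← h3]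
      refine Finset.sum_congr rfl fun u _ => Finset.sum_congr rfl fun v _ => ?_
      rw [← row_eq D (cutState D.Interlaced D.sign)]
      rfl)
  refine ⟨h1.1, fun m hm => h1.2 m (hm.imp_right fun h2 => ?_)⟩
  omega

/-- **Knot diagrams** -/
theorem knotL (g : GaussJones.Code n) (e : Fin n → Bool) (S : Finset (Fin n)) (B : ℕ)
    (hS : Transversal (GaussJones.Interlaced g) S) (hne : S.Nonempty)
    (h : oddCount (GaussJones.fPoly g e) ≤ B) :
    Isotropic (GaussJones.Interlaced g) e S (2 * (B + 2) * (S.card + 1)) ∧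
      ∀ m : ℕ, (6 * m ≤ S.card + 6 ∨
        2 * m + GaussJones.loops g (cutAll (GaussJones.Interlaced g)) ≤ n + 2) →
      Independent (GaussJones.Interlaced g) e S (2 * (B + 2) * (S.card + 1)) m := by
  classical
  have hn : 0 < n := by
    obtain ⟨i, -⟩ := hne
    exact i.pos
  have hi : ∀ i, ¬ GaussJones.Interlaced g i i := by
    intro i h
    rcases h with h | h <;> exact lt_irrefl _ h.1
  have hs : ∀ i j, GaussJones.Interlaced g i j → GaussJones.Interlaced g j i :=
    fun i j h => h.symm
  have h0 : (UNI.cutOpen g e).Cut (cutState (GaussJones.Interlaced g) e) =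
      Graph_R (GaussJones.Interlaced g) e := by
    have h1 : GaussJones.Cut g e (cutState (GaussJones.Interlaced g) e) =
        Graph_R (GaussJones.Interlaced g) e := rfl
    rw [← h1]
    funext i j
    exact (propext (UNI.cut_closed g e _ i j)).symm
  have hr := LinR_knot hn g e
  have hr' := LinR_gen (UNI.cutOpen g e) (cutState (GaussJones.Interlaced g) e)
  rw [h0] at hr'
  obtain ⟨r, hr2⟩ : ∃ r, r = finrank (ZMod 2) (span (ZMod 2)
      (rows (Graph_R (GaussJones.Interlaced g) e) : Set (Fin n → ZMod 2))) := ⟨_, rfl⟩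
  rw [← hr2] at hr hr'
  have hle := RelL_rank (e := e) hi hs hS
  rw [← hr2] at hle
  have hgr := (UNI.cutOpen g e).comps_add_rank (cutState (GaussJones.Interlaced g) e)
  have h1 := RelL_main (e := e) hi hs hS
    (2 * (B + 2) * (((UNI.cutOpen g e).gmat (cutState (GaussJones.Interlaced g) e)).rank + 1))
    (2 * (B + 2) * (S.card + 1)) r
    (Nat.mul_le_mul_left _ (by omega)) hr2.symm
    (fun h2 => by rw [hr2]; exact LinK_knot g e hS h2) hne
    (fun ρ hρ w w' hw hw' => by
      have h3 := knotIso' g e (cutState (GaussJones.Interlaced g) e) B _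
        (by rw [RelL_odd]; exact h) le_rfl ρ hρ w w' hw hw'
      refine Eq.trans ?_ h3
      refine Finset.sum_congr rfl fun u _ => Finset.sum_congr rfl fun v _ => ?_
      rw [← row_eq (UNI.cutOpen g e) (cutState (GaussJones.Interlaced g) e), h0])
  refine ⟨h1.1, fun m hm => h1.2 m (hm.imp_right fun h2 => ?_)⟩
  omega

end Pool.Agent.FHP
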