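import Pool.Agent.FHP.St

/-!
# FHP: the final statement about the relations between the twist numbers (helper32)
-/

set_option autoImplicit false

open Pool.Agent.EQT Pool.Agent.SPT

namespace Pool.Agent.FHP

variable {n : ℕ}

/-- The integer vector `d`, with one entry for every twist class (`S` contains one crossing of every
class), is short: its entries are `-1`, `0`, `1`, and `∑ d_i c_i` is less than `N` in absolute value,
where `c_i` is the twist number of the class of `i`. -/
def Short (I : Fin n → Fin n → Prop) (e : Fin n → Bool) (S : Finset (Fin n)) (N : ℕ)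
    (d : Fin n → ℤ) : Prop :=
  (∀ i, d i = -1 ∨ d i = 0 ∨ d i = 1) ∧ (∀ i, i ∉ S → d i = 0) ∧
    |∑ i ∈ S, d i * twistNumber I e i| < N

/-- The relations between the twist numbers. `Cyc J`: the classes of the crossings in `J` contain a
cycle of the graph whose edges are the twist classes.

* If `J` contains no cycle, then some short vector has an odd sum over the classes outside of `J`.
* If every cycle has at least `m` edges, then there are `m` short vectors which are linearly
  independent modulo `2`.
* If the classes with a twist number less than `N` in absolute value contain no cycle, then there are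
  five linearly independent short vectors, and `m` of them if every cycle has at least `m - 1` edges.
* If there are at most eight classes, then those with a twist number less than `N` in absolute value
  contain a cycle. -/
def Relations (I : Fin n → Fin n → Prop) (e : Fin n → Bool) (S : Finset (Fin n))
    (Cyc : Finset (Fin n) → Prop) (N : ℕ) : Prop :=
  (∀ J ⊆ S, ¬ Cyc J → ∃ d, Short I e S N d ∧ Odd (∑ i ∈ S \ J, d i)) ∧
  (∀ m : ℕ, (∀ J ⊆ S, Cyc J → m ≤ J.card) → ∃ d : Fin m → Fin n → ℤ,
    (∀ i, Short I e S N (d i)) ∧ LinearIndependent (ZMod 2) (fun i v => ((d i v : ℤ) : ZMod 2))) ∧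
  (¬ Cyc (S.filter fun i => |twistNumber I e i| < N) →
    ∀ m : ℕ, (m ≤ 5 ∨ ∀ J ⊆ S, Cyc J → m - 1 ≤ J.card) → ∃ d : Fin m → Fin n → ℤ,
      (∀ i, Short I e S N (d i)) ∧ LinearIndependent ℤ d) ∧
  (S.card ≤ 8 → Cyc (S.filter fun i => |twistNumber I e i| < N))

end Pool.Agent.FHP
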