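import Mathlib
import Pool.Agent.EQT.Stmt

/-!
# FHP: finitely many hyperplanes

Knots and knotoids with `k` twist classes: the twist numbers outside finitely many hyperplanes.
-/

set_option autoImplicit false

open Submodule LaurentPolynomial Pool.Agent.SPT Pool.Agent.EQT

namespace Pool.Agent.FHP

/-- **Module A**: the polynomial of the spanning sets near `-1` -/
def St_Near : Prop :=
  ∀ (V : Type) [AddCommGroup V] [Module (ZMod 2) V] [DecidableEq V] (X : Finset V) (k : ℕ),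
    (X.erase 0).card ≤ k → ∀ x : V → ℂ, ‖x 0‖ = 1 →
    (∀ v ∈ X, v ≠ 0 → ‖x v + 1‖ ≤ 1 / (3 * k)) →
    (2 : ℝ) ^ Module.finrank (ZMod 2) (span (ZMod 2) (X : Set V)) ≤ 2 * ‖PP X ⊥ x‖

/-- **Module B**: Kronecker's theorem, one-sided -/
def St_Kron : Prop :=
  ∀ (ι : Type) [Fintype ι] (L : ℕ) (η ε K : ℝ) (c : ι → ℝ), 0 < η → η ≤ 2 → 0 < ε → 0 < K →
    (1 - η ^ 2 / 4) ^ L + 4 / (K * ε) ^ 2 < 1 / (2 * L + 1) ^ Fintype.card ι →
    (∀ a : ι → ℤ, (∀ j, |a j| ≤ L) → Odd (∑ j, a j) → K ≤ |∑ j, (a j : ℝ) * c j|) →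
    ∃ φ : ℝ, 0 < φ ∧ φ < ε ∧ ∀ v, ‖Complex.exp (((φ * c v : ℝ) : ℂ) * Complex.I) + 1‖ ≤ η

variable {n : ℕ}

/-- The rows different from `0` of the relation `R` on the crossings have no short relation with an
odd sum of the coefficients: if the integers `a v`, one for every nonzero row, are at most `L` in
absolute value and have an odd sum, then `∑ a v * twist v` is at least `K` in absolute value. -/
def RowsFree (R : Fin n → Fin n → Prop) (σ : Fin n → Bool) (L K : ℕ) : Prop :=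
  ∀ a : (Fin n → ZMod 2) → ℤ, (∀ v ∈ (rows R).erase 0, |a v| ≤ L) →
    Odd (∑ v ∈ (rows R).erase 0, a v) → (K : ℤ) ≤ |∑ v ∈ (rows R).erase 0, a v * twist R σ v|

/-- **knotoid diagrams**, general form -/
def St_KnotoidF : Prop :=
  ∀ (n k B : ℕ) (D : Helper16.Knotoid.GaussDiagram n) (σ : Fin n → Bool), 1 ≤ B →
    (∃ c d, D.Cut σ c d) → ((rows (D.Cut σ)).erase 0).card ≤ k →
    RowsFree (D.Cut σ) σ (432 * k ^ 4) (2 ^ (12 * k ^ 2) * B) →
      (B : ℤ) < coeffSum D.normalizedBracket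

/-- **knot diagrams**, general form -/
def St_KnotF : Prop :=
  ∀ (n k B : ℕ) (g : GaussJones.Code n) (e σ : Fin n → Bool), 1 ≤ B →
    (∃ c d, GaussJones.Cut g e σ c d) → ((rows (GaussJones.Cut g e σ)).erase 0).card ≤ k →
    RowsFree (GaussJones.Cut g e σ) σ (432 * k ^ 4) (2 ^ (12 * k ^ 2) * B) →
      (B : ℤ) < coeffSum (GaussJones.fPoly g e)

/-! ### twist classes -/

/-- The set `S` contains exactly one crossing of every twist class whose crossings are interlaced with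
some crossing, and no other crossing. -/
def Transversal (I : Fin n → Fin n → Prop) (S : Finset (Fin n)) : Prop :=
  (∀ i ∈ S, ∃ j, I i j) ∧ (∀ i ∈ S, ∀ j ∈ S, Twins I i j → i = j) ∧
    ∀ i, (∃ j, I i j) → ∃ s ∈ S, Twins I i s

/-- **knotoid diagrams**: the twist numbers are not on finitely many hyperplanes -/
def St_KnotoidH : Prop :=
  ∀ (n B : ℕ) (D : Helper16.Knotoid.GaussDiagram n) (S : Finset (Fin n)), 1 ≤ B →
    Transversal D.Interlaced S → S.Nonempty →
    (∀ a : Fin n → ℤ, (∀ i ∈ S, |a i| ≤ 432 * S.card ^ 4) → Odd (∑ i ∈ S, a i) →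
      2 ^ (12 * S.card ^ 2) * (B : ℤ) ≤ |∑ i ∈ S, a i * twistNumber D.Interlaced D.sign i|) →
    (B : ℤ) < coeffSum D.normalizedBracket

/-- **knot diagrams**: the twist numbers are not on finitely many hyperplanes -/
def St_KnotH : Prop :=
  ∀ (n B : ℕ) (g : GaussJones.Code n) (e : Fin n → Bool) (S : Finset (Fin n)), 1 ≤ B →
    Transversal (GaussJones.Interlaced g) S → S.Nonempty →
    (∀ a : Fin n → ℤ, (∀ i ∈ S, |a i| ≤ 432 * S.card ^ 4) → Odd (∑ i ∈ S, a i) →
      2 ^ (12 * S.card ^ 2) * (B : ℤ) ≤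
        |∑ i ∈ S, a i * twistNumber (GaussJones.Interlaced g) e i|) →
    (B : ℤ) < coeffSum (GaussJones.fPoly g e)

end Pool.Agent.FHP
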