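import Pool.Agent.EQT.St

/-!
# FHP: finitely many hyperplanes, statements of the modules (helper32)

Every module `X` proves `theorem thm_X : St_X` in `Pool/Agent/FHP/X.lean`.
-/

set_option autoImplicit false
set_option linter.unusedSectionVars false
set_option linter.unusedVariables false

namespace Pool.Agent.FHP

open Submodule Module Pool.Agent.EQT

attribute [local instance] Classical.propDecidable Fintype.ofFinite

/-- [KRO] a one-sided theorem of Kronecker: if there is no relation `|∑ a_j c_j| ≤ K` with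
`|a_j| ≤ K` and `∑ a_j` odd, then there is a point `z` of the unit circle near `1` with `z ^ c_j` near
`-1` for all `j`.
PROOF. `k = card ι`, `N = K (1 + ∑ |c_j|) + 1`, `ζ = exp (2πi/N)` (`Complex.isPrimitiveRoot_exp`),
`z_r = ζ ^ r`, `r < N`. For `‖u‖ = 1`: `‖1 + u‖ ^ 2 = (1 + u)(1 + u⁻¹)`, so
`(‖1 + u‖ ^ 2) ^ K = u ^ (-K) (1 + u) ^ (2K) = ∑_(m < 2K+1) C(2K,m) u ^ (m - K)`. Let
`G(z) = (‖1 + z‖ ^ 2) ^ K * ∏_j (‖1 - z ^ c_j‖ ^ 2) ^ K`. Expanding (`Finset.prod_univ_sum`):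
`G(z) = ∑_(m, p) C(2K,m) ∏_j C(2K,p_j) (-1) ^ (∑ (p_j - K)) z ^ ((m - K) + ∑ c_j (p_j - K))`.
`(1/N) ∑_r z_r ^ e = 1` if `N ∣ e`, and `0` otherwise; here `|e| < N`, so `N ∣ e` iff `e = 0`; if `e = 0`
then `|∑ c_j (p_j - K)| = |m - K| ≤ K`, so by the hypothesis `∑ (p_j - K)` is not odd and the sign is
`+1`. So the average of `G(z_r)` is at least the term `m = K`, `p_j = K`, i.e. `C(2K,K) ^ (k+1)`, and
`(2K+1) C(2K,K) ≥ 4 ^ K` (`Nat.four_pow_le_two_mul_add_one_mul_central_binom`). So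
`G(z_r) ≥ (4 ^ K/(2K+1)) ^ (k+1)` for some `r`. All `k + 1` factors of `G` are between `0` and
`4 ^ K`, so each factor `X` satisfies `X * (4 ^ K) ^ k ≥ G`, i.e. `(2K+1) ^ (k+1) X/4 ^ K ≥ 1`. -/
def St_KRO : Prop := ∀ (ι : Type) [Fintype ι] (K : ℕ) (c : ι → ℤ),
  (∀ a : ι → ℤ, (∀ j, |a j| ≤ K) → Odd (∑ j, a j) → (K : ℤ) < |∑ j, a j * c j|) →
  ∃ z : ℂ, ‖z‖ = 1 ∧
    1 ≤ (2 * (K : ℝ) + 1) ^ (Fintype.card ι + 1) * (‖1 + z‖ ^ 2 / 4) ^ K ∧
    ∀ j, 1 ≤ (2 * (K : ℝ) + 1) ^ (Fintype.card ι + 1) * (‖1 - z ^ (c j)‖ ^ 2 / 4) ^ K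

/-- all sums over the subspaces containing `U` vanish, except for `U = V` -/
def TopOnly {V : Type} [AddCommGroup V] [Module F2 V] [Finite V] (m : Submodule F2 V → ℝ) : Prop :=
  ∀ U : Submodule F2 V, cc m U = if U = ⊤ then 1 else 0

/-- values `1` and `-1`, and `1` at `0` -/
def Signs {V : Type} [AddCommGroup V] (x : V → ℝ) : Prop := x 0 = 1 ∧ ∀ v, x v = 1 ∨ x v = -1

/-- [LOW] the values at the points with coordinates `1` and `-1`. Hypotheses: `EQT.St_QUO`,
`EQT.St_DC`, `EQT.St_PF`, `EQT.St_MOB` (all proved in `Pool/Agent/EQT`).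
PROOF. `r = finrank F2 V`. For `e ≠ 0` with `x e = -1`: DC with `δ = 1` gives
`W m x = W m (update x e 1) + 2 * W (quo 1 m (ln e)) (push (ln e) x)`. By QUO, second part,
`cc (quo 1 m (ln e)) U = -cc m (U.comap ..)`, so `m' := -quo 1 m (ln e)` is `TopOnly`
(`U.comap (ln e).mkQ = ⊤` iff `U = ⊤`), and `y := push (ln e) x` is `Signs` (a product of signs). As
`finrank (V ⧸ ln e) = r - 1` this reads
`(-1)^r W m x = (-1)^r W m (update x e 1) + 2 (-1)^(r-1) W m' y` (*).
(1) Induction on `r`, inside it on the number of the `v` with `x v = -1`. If there is such a `v`: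
(*), both terms are `≥ 0`. If `x = 1` everywhere then `W m x = ∑ m U = cc m ⊥ = [⊥ = ⊤]`, so the value is
`0` or, for `r = 0`, `1`. (2) is (*) and (1). (3) By (2), repeated, `x` may be replaced by the function which
is `-1` exactly on a basis `b : Fin r → V` contained in `{v | x v = -1}` (`exists_linearIndependent`,
`Basis`), and by PF with `ι = Fin r`, `r = b`, `x = -1`: `W m (..) = ∑ B : Finset (Fin r), (-2)^|B| cc m (span (b '' B))`, where
only `B = univ` spans: `(-2)^r`. (Or induct: for `x` with spanning `{v | x v = -1}` and more than `r` such elements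
remove one which is not needed.) -/
def St_LOW : Prop := ∀ (V : Type) [AddCommGroup V] [Module F2 V] [Finite V]
  (m : Submodule F2 V → ℝ), TopOnly m →
  (∀ x, Signs x → 0 ≤ (-1) ^ finrank F2 V * W m x) ∧
  (∀ x e, Signs x → e ≠ 0 →
    (-1) ^ finrank F2 V * W m (Function.update x e 1) ≤ (-1) ^ finrank F2 V * W m x) ∧
  ∀ x, Signs x → span F2 {v | x v = -1} = ⊤ → 2 ^ finrank F2 V ≤ (-1) ^ finrank F2 V * W m x

end Pool.Agent.FHP
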